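import Pool.Agent.Harder.Semi2

/-!
Harder's theorem: pencils without base points, and the number of bad members.
-/

set_option autoImplicit false

namespace Pool.Agent.Harder

theorem Good.symm {k R : Type} [Field k] [CommRing R] [Algebra k R] (D : OnePl k R) {N : ℕ}
    {x y : R} (h : D.Good N x y) : D.Good N y x :=
  ⟨h.2.1, h.1, h.2.2.1.symm, h.2.2.2.symm⟩

theorem bc_deg_one {k R : Type} [Field k] [CommRing R] [Algebra k R] (D : OnePl k R) :
    D.deg (1 : R) = 0 := by
  have := D.deg_C 1
  rwa [map_one] at this

theorem bc_algebraMap_ne {k R : Type} [Field k] [CommRing R] [IsDomain R] [Algebra k R]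
    {a : k} (ha : a ≠ 0) : algebraMap k R a ≠ 0 := by
  rw [Ne, map_eq_zero_iff _ (algebraMap k R).injective]
  exact ha

theorem bc_deg_smul {k R : Type} [Field k] [CommRing R] [IsDomain R] [Algebra k R]
    (D : OnePl k R) (a : k) (ha : a ≠ 0) (y : R) : D.deg (a • y) = D.deg y := by
  by_cases hy : y = 0
  · rw [hy, smul_zero]
  · rw [Algebra.smul_def, D.deg_mul _ _ (bc_algebraMap_ne ha) hy, D.deg_C, zero_add]

theorem bc_add_le {k R : Type} [Field k] [CommRing R] [IsDomain R] [Algebra k R]
    (D : OnePl k R) {N : ℕ} {x y : R} (hx : D.deg x ≤ N) (hy : D.deg y ≤ N) (a : k) :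
    D.deg (x + a • y) ≤ N :=
  (D.deg_add _ _).trans (max_le hx ((D.deg_smul_le a y).trans hy))

theorem Good.add {k R : Type} [Field k] [CommRing R] [IsDomain R] [Algebra k R]
    (D : OnePl k R) {N : ℕ} {x y : R} (h : D.Good N x y) (a : k) : D.Good N x (y + a • x) := by
  obtain ⟨h1, h2, h3, h4⟩ := h
  refine ⟨h1, bc_add_le D h2 h1 a, ?_, ?_⟩
  · by_cases hx : D.deg x = N
    · exact Or.inl hx
    · have hy : D.deg y = N := h3.resolve_left hx
      right
      apply le_antisymm (bc_add_le D h2 h1 a)
      have h5 : D.deg y ≤ max (D.deg (y + a • x)) (D.deg ((-a) • x)) := by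
        have := D.deg_add (y + a • x) ((-a) • x)
        have he : y + a • x + (-a) • x = y := by
          rw [neg_smul]; ring
        rwa [he] at this
      have h6 := D.deg_smul_le (-a) x
      rcases le_max_iff.1 h5 with h | h
      · omega
      · omega
  · rw [Algebra.smul_def]
    exact h4.add_mul_right_right _

theorem Good.smul {k R : Type} [Field k] [CommRing R] [IsDomain R] [Algebra k R]
    (D : OnePl k R) {N : ℕ} {x y : R} (h : D.Good N x y) (a : k) (ha : a ≠ 0) :
    D.Good N x (a • y) := by
  obtain ⟨h1, h2, h3, h4⟩ := h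
  refine ⟨h1, (bc_deg_smul D a ha y).le.trans h2, ?_, ?_⟩
  · rw [bc_deg_smul D a ha y]
    exact h3
  · obtain ⟨p, q, hpq⟩ := h4
    refine ⟨p, a⁻¹ • q, ?_⟩
    rw [smul_mul_smul_comm, inv_mul_cancel₀ ha, one_smul]
    exact hpq

theorem Good.indep {k R : Type} [Field k] [CommRing R] [IsDomain R] [Algebra k R]
    (D : OnePl k R) {N : ℕ} (hN : 0 < N) {x y : R} (h : D.Good N x y) (a b : k)
    (hab : a • x + b • y = 0) : a = 0 ∧ b = 0 := by
  have key : ∀ {x y : R} (_ : D.Good N x y) (a b : k) (_ : a • x + b • y = 0), b = 0 := by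
    intro x y h a b hab
    by_contra hb
    obtain ⟨h1, h2, h3, p, q, hpq⟩ := h
    have hy : y = (-(a / b)) • x := by
      have h5 : b • y = (-a) • x := by
        rw [neg_smul]
        exact eq_neg_of_add_eq_zero_right hab
      calc y = b⁻¹ • (b • y) := by rw [smul_smul, inv_mul_cancel₀ hb, one_smul]
        _ = (-(a / b)) • x := by
            rw [h5, smul_smul]
            congr 1
            field_simp
    have hu : (p + (-(a / b)) • q) * x = 1 := by
      rw [← hpq, hy, add_mul, smul_mul_assoc, mul_smul_comm]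
    have hx0 : x ≠ 0 := by
      rintro rfl
      rw [mul_zero] at hu
      exact zero_ne_one hu
    have hp0 : p + (-(a / b)) • q ≠ 0 := by
      intro h0
      rw [h0, zero_mul] at hu
      exact zero_ne_one hu
    have hd : D.deg x = 0 := by
      have := D.deg_mul _ _ hp0 hx0
      rw [hu, bc_deg_one] at this
      omega
    rcases h3 with h3 | h3
    · omega
    · have := D.deg_smul_le (-(a / b)) x
      rw [← hy] at this
      omega
  exact ⟨key (Good.symm D h) b a (by rw [add_comm]; exact hab), key h a b hab⟩

/-- Coprimality and units in the quotient. -/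
theorem bc_isUnit_iff {R : Type} [CommRing R] (u z : R) :
    IsUnit (Ideal.Quotient.mk (Ideal.span {u}) z) ↔ IsCoprime u z := by
  constructor
  · intro h
    obtain ⟨w, hw⟩ := h.exists_right_inv
    obtain ⟨w, rfl⟩ := Ideal.Quotient.mk_surjective w
    rw [← map_mul, ← map_one (Ideal.Quotient.mk (Ideal.span {u})), Ideal.Quotient.eq,
      Ideal.mem_span_singleton] at hw
    obtain ⟨c, hc⟩ := hw
    exact ⟨-c, w, by linear_combination hc⟩
  · rintro ⟨p, q, hpq⟩
    refine IsUnit.of_mul_eq_one (Ideal.Quotient.mk (Ideal.span {u}) q) ?_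
    rw [← map_mul, ← map_one (Ideal.Quotient.mk (Ideal.span {u})), Ideal.Quotient.eq,
      Ideal.mem_span_singleton]
    exact ⟨-p, by linear_combination hpq⟩

/-- In a finite dimensional algebra `t + a` is a unit for all but few constants `a`. -/
theorem bc_spectrum {k B : Type} [Field k] [CommRing B] [Algebra k B] [Module.Finite k B]
    (t : B) : {a : k | ¬ IsUnit (t + algebraMap k B a)}.Finite ∧
      {a : k | ¬ IsUnit (t + algebraMap k B a)}.ncard ≤ Module.finrank k B := by
  classical
  set f : Module.End k B := LinearMap.mulLeft k t with hf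
  have hsub : {a : k | ¬ IsUnit (t + algebraMap k B a)} ⊆
      (fun x : k => -x) '' (f.charpoly.roots.toFinset : Set k) := by
    intro a ha
    refine ⟨-a, ?_, neg_neg a⟩
    have hroot : f.charpoly.IsRoot (-a) := by
      rw [← Module.End.mem_spectrum_iff_isRoot_charpoly, spectrum.mem_iff]
      intro hunit
      apply ha
      rw [Module.End.isUnit_iff] at hunit
      obtain ⟨s, hs⟩ := hunit.2 1
      have hs' : (-a) • s - t * s = 1 := by
        have h1 : (algebraMap k (Module.End k B) (-a) - f) s = (-a) • s - t * s := by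
          rw [LinearMap.sub_apply, Module.algebraMap_end_apply, hf, LinearMap.mulLeft_apply]
        rw [← h1]
        exact hs
      refine IsUnit.of_mul_eq_one (-s) ?_
      have h2 : (t + algebraMap k B a) * -s = (-a) • s - t * s := by
        rw [Algebra.smul_def, map_neg]
        ring
      rw [h2]
      exact hs'
    have hne : f.charpoly ≠ 0 := (LinearMap.charpoly_monic f).ne_zero
    rw [Finset.mem_coe, Multiset.mem_toFinset, Polynomial.mem_roots hne]
    exact hroot
  have hfin : ((fun x : k => -x) '' (f.charpoly.roots.toFinset : Set k)).Finite :=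
    (Finset.finite_toSet _).image _
  refine ⟨hfin.subset hsub, ?_⟩
  calc {a : k | ¬ IsUnit (t + algebraMap k B a)}.ncard
      ≤ ((fun x : k => -x) '' (f.charpoly.roots.toFinset : Set k)).ncard :=
        Set.ncard_le_ncard hsub hfin
    _ ≤ (f.charpoly.roots.toFinset : Set k).ncard := Set.ncard_image_le (Finset.finite_toSet _)
    _ = f.charpoly.roots.toFinset.card := Set.ncard_coe_finset _
    _ ≤ Multiset.card f.charpoly.roots := Multiset.toFinset_card_le _
    _ ≤ f.charpoly.natDegree := Polynomial.card_roots' _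
    _ = Module.finrank k B := LinearMap.charpoly_natDegree f

theorem bc_coprime {k R : Type} [Field k] [CommRing R] [IsDomain R] [Algebra k R]
    (D : OnePl k R) (hg : D.gaps.Finite) (u v w : R) (hu : u ≠ 0) (huv : IsCoprime u v) :
    {a : k | ¬ IsCoprime u (w + a • v)}.Finite ∧
      {a : k | ¬ IsCoprime u (w + a • v)}.ncard ≤ D.deg u := by
  obtain ⟨hfin, hrank⟩ := finrank_quot D hg u hu
  obtain ⟨p, q, hpq⟩ := huv
  have hset : {a : k | ¬ IsCoprime u (w + a • v)} =
      {a : k | ¬ IsUnit (Ideal.Quotient.mk (Ideal.span {u}) (q * w) +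
        algebraMap k (R ⧸ Ideal.span {u}) a)} := by
    ext a
    simp only [Set.mem_setOf_eq]
    rw [not_iff_not]
    have h1 : Ideal.Quotient.mk (Ideal.span {u}) (q * w) +
        algebraMap k (R ⧸ Ideal.span {u}) a =
        Ideal.Quotient.mk (Ideal.span {u}) (q * (w + a • v)) := by
      have h2 : algebraMap k (R ⧸ Ideal.span {u}) a =
          Ideal.Quotient.mk (Ideal.span {u}) (algebraMap k R a) := rfl
      rw [h2, ← map_add, Ideal.Quotient.eq, Ideal.mem_span_singleton, Algebra.smul_def]
      exact ⟨algebraMap k R a * p, by linear_combination (-(algebraMap k R a)) * hpq⟩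
    rw [h1, bc_isUnit_iff]
    constructor
    · intro h
      exact IsCoprime.mul_right ⟨p, v, by linear_combination hpq⟩ h
    · intro h
      exact h.of_mul_right_right
  rw [hset, ← hrank]
  exact bc_spectrum _

theorem bad_count {k R : Type} [Field k] [CommRing R] [IsDomain R] [Algebra k R]
    (D : OnePl k R) (hg : D.gaps.Finite) (N : ℕ) (u v w : R) (huv : D.Good N u v)
    (hw : D.deg w ≤ N) :
    {a : k | ¬ D.Good N u (w + a • v)}.Finite ∧
      {a : k | ¬ D.Good N u (w + a • v)}.ncard ≤ N + 1 := by
  obtain ⟨h1, h2, h3, h4⟩ := huv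
  by_cases hu : u = 0
  · -- everything is constant
    subst hu
    have hv : IsUnit v := isCoprime_zero_left.1 h4
    have hv0 : v ≠ 0 := hv.ne_zero
    obtain ⟨v', hv'⟩ := hv.exists_right_inv
    have hv'0 : v' ≠ 0 := by
      rintro rfl
      rw [mul_zero] at hv'
      exact zero_ne_one hv'
    have hdv : D.deg v = 0 := by
      have := D.deg_mul _ _ hv0 hv'0
      rw [hv', bc_deg_one] at this
      omega
    have hN : N = 0 := by
      rcases h3 with h | h
      · rw [← h, D.deg_zero]
      · omega
    subst hN
    obtain ⟨cv, hcv⟩ := eq_algebraMap_of_deg D v hdv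
    obtain ⟨cw, hcw⟩ := eq_algebraMap_of_deg D w (by omega)
    have hcv0 : cv ≠ 0 := by
      rintro rfl
      exact hv0 (by rw [hcv, map_zero])
    have hsub : {a : k | ¬ D.Good 0 0 (w + a • v)} ⊆ {-(cw / cv)} := by
      intro a ha
      by_contra hne
      apply ha
      have hne' : cw + a * cv ≠ 0 := by
        intro h0
        apply hne
        rw [Set.mem_singleton_iff]
        field_simp
        linear_combination h0
      have he : w + a • v = algebraMap k R (cw + a * cv) := by
        rw [hcw, hcv, Algebra.smul_def, map_add, map_mul]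
      refine ⟨h1, bc_add_le D hw h2 a, Or.inl D.deg_zero, ?_⟩
      rw [he]
      exact isCoprime_zero_left.2 ((isUnit_iff_ne_zero.2 hne').map (algebraMap k R))
    refine ⟨(Set.finite_singleton _).subset hsub, ?_⟩
    calc _ ≤ ({-(cw / cv)} : Set k).ncard := Set.ncard_le_ncard hsub (Set.finite_singleton _)
      _ = 1 := Set.ncard_singleton _
      _ ≤ 0 + 1 := le_rfl
  · obtain ⟨hf1, hc1⟩ := bc_coprime D hg u v w hu h4
    by_cases hdu : D.deg u = N
    · have hsub : {a : k | ¬ D.Good N u (w + a • v)} ⊆
          {a : k | ¬ IsCoprime u (w + a • v)} := by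
        intro a ha hcop
        exact ha ⟨h1, bc_add_le D hw h2 a, Or.inl hdu, hcop⟩
      exact ⟨hf1.subset hsub, (Set.ncard_le_ncard hsub hf1).trans (by omega)⟩
    · have hdv : D.deg v = N := h3.resolve_left hdu
      have hss : {a : k | D.deg (w + a • v) ≠ N}.Subsingleton := by
        intro a ha b hb
        by_contra hab
        have ha' : D.deg (w + a • v) < N := lt_of_le_of_ne (bc_add_le D hw h2 a) ha
        have hb' : D.deg (w + b • v) < N := lt_of_le_of_ne (bc_add_le D hw h2 b) hb
        have he : (a - b) • v = (w + a • v) + (-1 : k) • (w + b • v) := by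
          rw [sub_smul, smul_add, smul_smul, neg_one_smul, neg_one_mul, neg_smul]
          ring
        have h5 := D.deg_add (w + a • v) ((-1 : k) • (w + b • v))
        rw [← he, bc_deg_smul D _ (sub_ne_zero.2 hab)] at h5
        have h6 := D.deg_smul_le (-1 : k) (w + b • v)
        rcases le_max_iff.1 h5 with h | h
        · omega
        · omega
      have hf2 : {a : k | D.deg (w + a • v) ≠ N}.Finite := hss.finite
      have hc2 : {a : k | D.deg (w + a • v) ≠ N}.ncard ≤ 1 := by
        rw [Set.ncard_le_one hf2]
        intro a ha b hb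
        exact hss ha hb
      have hsub : {a : k | ¬ D.Good N u (w + a • v)} ⊆
          {a : k | ¬ IsCoprime u (w + a • v)} ∪ {a : k | D.deg (w + a • v) ≠ N} := by
        intro a ha
        by_contra hcon
        simp only [Set.mem_union, Set.mem_setOf_eq, not_or, not_not] at hcon
        exact ha ⟨h1, bc_add_le D hw h2 a, Or.inr hcon.2, hcon.1⟩
      refine ⟨(hf1.union hf2).subset hsub, ?_⟩
      have h7 := Set.ncard_le_ncard hsub (hf1.union hf2)
      have h8 := Set.ncard_union_le {a : k | ¬ IsCoprime u (w + a • v)}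
        {a : k | D.deg (w + a • v) ≠ N}
      omega

end Pool.Agent.Harder
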