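import Pool.Agent.Harder.Defs2

/-!
HB-08: models of one place rings over finite fields.
-/

set_option autoImplicit false

namespace Pool.Agent.Harder

section Form

variable {k R : Type} [Field k] [CommRing R] [Algebra k R] (D : OnePl k R)

/-- the functions which are zero or of degree less than `n` -/
def frm_low (n : ℕ) : Submodule k R where
  carrier := {f | f = 0 ∨ D.deg f < n}
  add_mem' := fun {a b} ha hb => by
    rcases ha with ha | ha
    · rw [ha, zero_add]; exact hb
    · rcases hb with hb | hb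
      · rw [hb, add_zero]; exact Or.inr ha
      · exact Or.inr ((D.deg_add a b).trans_lt (max_lt ha hb))
  zero_mem' := Or.inl rfl
  smul_mem' := fun c f hf => by
    rcases hf with hf | hf
    · rw [hf, smul_zero]; exact Or.inl rfl
    · exact Or.inr ((D.deg_smul_le c f).trans_lt hf)

theorem frm_mem_low (n : ℕ) (f : R) : f ∈ frm_low D n ↔ f = 0 ∨ D.deg f < n := Iff.rfl

theorem frm_low_mono {m n : ℕ} (h : m ≤ n) {f : R} (hf : f ∈ frm_low D m) :
    f ∈ frm_low D n := by
  rcases hf with hf | hf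
  · exact Or.inl hf
  · exact Or.inr (hf.trans_le h)

/-- If `f` is not of degree less than `n`, but is of degree less than `n + 1`, it has degree
`n`. -/
theorem frm_deg_eq {n : ℕ} {f : R} (h1 : f ∈ frm_low D (n + 1)) (h2 : f ∉ frm_low D n) :
    f ≠ 0 ∧ D.deg f = n := by
  rw [frm_mem_low] at h1 h2
  push Not at h2
  rcases h1 with h1 | h1
  · exact absurd h1 h2.1
  · exact ⟨h2.1, by omega⟩

/-- The leading term of a combination of functions of different degrees. -/
theorem frm_lead {S : Set ℕ} (b : S → R) (hb : ∀ s, b s ≠ 0 ∧ D.deg (b s) = s) (c : S →₀ k)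
    (hc : c ≠ 0) : ∃ n : S, c n ≠ 0 ∧ (c.sum fun s a => a • b s) ≠ 0 ∧
      D.deg (c.sum fun s a => a • b s) = n ∧
      (c.sum fun s a => a • b s) - c n • b n ∈ frm_low D n := by
  classical
  have hne : c.support.Nonempty := Finsupp.support_nonempty_iff.2 hc
  obtain ⟨n, hn, hmax⟩ := c.support.exists_max_image (fun s => (s : ℕ)) hne
  have hcn : c n ≠ 0 := Finsupp.mem_support_iff.1 hn
  have h1 : (c.sum fun s a => a • b s) - c n • b n ∈ frm_low D n := by
    rw [Finsupp.sum, ← Finset.add_sum_erase _ _ hn, add_sub_cancel_left]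
    refine Submodule.sum_mem _ fun s hs => Submodule.smul_mem _ _ ?_
    rw [Finset.mem_erase] at hs
    refine Or.inr ?_
    rw [(hb s).2]
    have h2 := hmax s hs.2
    have h3 : (s : ℕ) ≠ n := fun h => hs.1 (Subtype.ext h)
    omega
  have h2 : c n • b n ∉ frm_low D n := by
    intro h
    have h3 : b n ∈ frm_low D n := (Submodule.smul_mem_iff _ hcn).1 h
    rcases h3 with h3 | h3
    · exact (hb n).1 h3
    · rw [(hb n).2] at h3
      exact lt_irrefl _ h3
  have h3 : (c.sum fun s a => a • b s) ∉ frm_low D n := fun h => h2 (by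
    have h4 := Submodule.sub_mem _ h h1
    rwa [sub_sub_cancel] at h4)
  have h4 : (c.sum fun s a => a • b s) ∈ frm_low D (n + 1) := by
    have h5 : c n • b n ∈ frm_low D ((n : ℕ) + 1) := by
      refine Submodule.smul_mem _ _ (Or.inr ?_)
      rw [(hb n).2]
      exact Nat.lt_succ_self _
    have h6 := Submodule.add_mem _ (frm_low_mono D (Nat.le_succ _) h1) h5
    rwa [sub_add_cancel] at h6
  obtain ⟨h5, h6⟩ := frm_deg_eq D h4 h3
  exact ⟨n, hcn, h5, h6, h1⟩

/-- Functions whose degrees are all non-gaps span. -/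
theorem frm_span (b : (D.gapsᶜ : Set ℕ) → R) (hb : ∀ s, b s ≠ 0 ∧ D.deg (b s) = s) (r : R) :
    r ∈ Submodule.span k (Set.range b) := by
  obtain ⟨d, hd⟩ : ∃ d, D.deg r = d := ⟨_, rfl⟩
  induction d using Nat.strong_induction_on generalizing r with
  | _ d ih =>
    by_cases hr : r = 0
    · rw [hr]; exact Submodule.zero_mem _
    have hn : d ∈ (D.gapsᶜ : Set ℕ) := fun h => h r hr hd
    have hbm : b ⟨d, hn⟩ ∈ Submodule.span k (Set.range b) := Submodule.subset_span ⟨_, rfl⟩
    obtain ⟨c, hc, h | h⟩ := D.lead r (b ⟨d, hn⟩) hr (hb _).1 (hd.trans (hb ⟨d, hn⟩).2.symm)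
    · rw [h]
      exact Submodule.smul_mem _ _ hbm
    · rw [hd] at h
      have h1 := ih _ h (r - c • b ⟨d, hn⟩) rfl
      have h2 := Submodule.add_mem _ h1 (Submodule.smul_mem _ c hbm)
      rwa [sub_add_cancel] at h2

/-- There are functions `h ^ j * e i` of all degrees which are not gaps. -/
theorem frm_basis [IsDomain R] (hg : D.gaps.Finite) : ∃ (M : ℕ) (h : R) (e : ℕ → R)
    (b : (D.gapsᶜ : Set ℕ) → R), 0 < M ∧ (∀ s, b s ≠ 0 ∧ D.deg (b s) = s) ∧
      (∀ s, ∃ i < M, ∃ j, b s = h ^ j * e i) ∧ (∀ s, ∃ t, b t = h * b s) := by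
  classical
  -- a function of positive degree
  obtain ⟨M, hM, hM0⟩ : ∃ M, M ∉ D.gaps ∧ 0 < M := by
    obtain ⟨m, hm⟩ := hg.bddAbove
    exact ⟨m + 1, fun h => absurd (hm h) (by omega), Nat.succ_pos _⟩
  have hM' := hM
  simp only [OnePl.gaps, Set.mem_ofPred_eq, not_forall, not_not] at hM'
  obtain ⟨h, hh0, hh⟩ := hM'
  -- the least degree in each class
  have hcls : ∀ i, i < M → ∃ n, n ∉ D.gaps ∧ n % M = i := by
    intro i hi
    obtain ⟨m, hm⟩ := hg.bddAbove
    refine ⟨i + M * (m + 1), fun h => ?_, ?_⟩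
    · have h1 := hm h
      have h2 : m + 1 ≤ M * (m + 1) := Nat.le_mul_of_pos_left _ hM0
      omega
    · rw [Nat.add_mul_mod_self_left, Nat.mod_eq_of_lt hi]
  have hcls' : ∀ i : ℕ, ∃ m : ℕ, i < M → (m ∉ D.gaps ∧ m % M = i ∧
      ∀ n, n ∉ D.gaps → n % M = i → m ≤ n) := by
    intro i
    by_cases hi : i < M
    · refine ⟨Nat.find (hcls i hi), fun _ => ⟨(Nat.find_spec (hcls i hi)).1,
        (Nat.find_spec (hcls i hi)).2, fun n h1 h2 => Nat.find_min' _ ⟨h1, h2⟩⟩⟩
    · exact ⟨0, fun h => absurd h hi⟩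
  choose m hm using hcls'
  have he : ∀ i : ℕ, ∃ f : R, i < M → f ≠ 0 ∧ D.deg f = m i := by
    intro i
    by_cases hi : i < M
    · have h1 := (hm i hi).1
      simp only [OnePl.gaps, Set.mem_ofPred_eq, not_forall, not_not] at h1
      obtain ⟨f, hf0, hf⟩ := h1
      exact ⟨f, fun _ => ⟨hf0, hf⟩⟩
    · exact ⟨0, fun h => absurd h hi⟩
  choose e he using he
  have hpow : ∀ j, D.deg (h ^ j) = j * M := by
    intro j
    induction j with
    | zero =>
      have h1 := D.deg_C 1
      rw [map_one] at h1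
      rw [pow_zero, h1, zero_mul]
    | succ j ih =>
      rw [pow_succ, D.deg_mul _ _ (pow_ne_zero _ hh0) hh0, ih, hh, Nat.succ_mul]
  have hdeg : ∀ s : (D.gapsᶜ : Set ℕ),
      ((s : ℕ) - m (s % M)) / M * M + m (s % M) = s := by
    intro s
    have h1 : (s : ℕ) % M < M := Nat.mod_lt _ hM0
    obtain ⟨h2, h3, h4⟩ := hm _ h1
    have h5 := h4 s s.2 rfl
    have h6 : M ∣ (s : ℕ) - m (s % M) := by
      have h7 : m (s % M) ≡ s [MOD M] := h3
      exact (Nat.modEq_iff_dvd' h5).1 h7
    rw [Nat.div_mul_cancel h6]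
    omega
  have hb : ∀ s : (D.gapsᶜ : Set ℕ), h ^ (((s : ℕ) - m (s % M)) / M) * e (s % M) ≠ 0 ∧
      D.deg (h ^ (((s : ℕ) - m (s % M)) / M) * e (s % M)) = s := by
    intro s
    obtain ⟨h1, h2⟩ := he _ (Nat.mod_lt (s : ℕ) hM0)
    refine ⟨mul_ne_zero (pow_ne_zero _ hh0) h1, ?_⟩
    rw [D.deg_mul _ _ (pow_ne_zero _ hh0) h1, hpow, h2, hdeg]
  refine ⟨M, h, e, fun s => h ^ (((s : ℕ) - m (s % M)) / M) * e (s % M), hM0, hb,
    fun s => ⟨_, Nat.mod_lt _ hM0, _, rfl⟩, fun s => ?_⟩
  have h1 : (s : ℕ) + M ∈ (D.gapsᶜ : Set ℕ) := fun h3 => by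
    refine h3 (h * (h ^ (((s : ℕ) - m (s % M)) / M) * e (s % M))) (mul_ne_zero hh0 (hb s).1) ?_
    rw [D.deg_mul _ _ hh0 (hb s).1, (hb s).2, hh, add_comm]
  refine ⟨⟨(s : ℕ) + M, h1⟩, ?_⟩
  have h2 : ((s : ℕ) + M) % M = s % M := Nat.add_mod_right _ _
  have h3 : ((s : ℕ) + M - m (s % M)) / M = ((s : ℕ) - m (s % M)) / M + 1 := by
    have h5 := (hm _ (Nat.mod_lt (s : ℕ) hM0)).2.2 s s.2 rfl
    have h4 : (s : ℕ) + M - m (s % M) = (s : ℕ) - m (s % M) + M := by omega
    rw [h4, Nat.add_div_right _ hM0]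
  simp only [h2, h3]
  ring

end Form

theorem exists_form (p : ℕ) [Fact p.Prime] {k R : Type} [Field k] [IsAlgClosed k]
    [Algebra (ZMod p) k] [Algebra.IsAlgebraic (ZMod p) k] [CommRing R] [IsDomain R]
    [Algebra k R] (D : OnePl k R) (hg : D.gaps.Finite) (T : Finset R) (q₀ : ℕ) :
    ∃ (K : IntermediateField (ZMod p) k) (_ : Finite K) (R₀ : Subalgebra K R)
      (D₀ : OnePl K R₀), q₀ ≤ Nat.card K ∧ (∀ t ∈ T, t ∈ R₀) ∧
      (∀ f : R₀, D₀.deg f = D.deg (f : R)) ∧ D₀.gaps = D.gaps := by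
  classical
  obtain ⟨M, h, e, b, hM, hb, hbe, hbh⟩ := frm_basis D hg
  -- the coordinates
  have hcoord : ∀ r : R, ∃ c : (D.gapsᶜ : Set ℕ) →₀ k, (c.sum fun s a => a • b s) = r :=
    fun r => (Finsupp.mem_span_range_iff_exists_finsupp).1 (frm_span D b hb r)
  choose co hco using hcoord
  let X : Finset R := insert 1 (T ∪ (Finset.range M ×ˢ Finset.range M).image
    fun x => e x.1 * e x.2)
  obtain ⟨Q, hQ⟩ := Infinite.exists_subset_card_eq k q₀
  let F : Finset k := Q ∪ X.biUnion fun r => (co r).support.image (co r)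
  let K : IntermediateField (ZMod p) k := IntermediateField.adjoin (ZMod p) (F : Set k)
  have hfd : FiniteDimensional (ZMod p) K :=
    IntermediateField.finiteDimensional_adjoin fun x _ =>
      (Algebra.IsAlgebraic.isAlgebraic x).isIntegral
  have hfin : Finite K := Module.finite_of_finite (ZMod p)
  have hFK : ∀ x ∈ F, x ∈ K := fun x hx => IntermediateField.subset_adjoin _ _ hx
  have hcoK : ∀ r ∈ X, ∀ s, co r s ∈ K := by
    intro r hr s
    by_cases h0 : co r s = 0
    · rw [h0]; exact zero_mem _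
    · refine hFK _ (Finset.mem_union_right _ (Finset.mem_biUnion.2 ⟨r, hr, ?_⟩))
      exact Finset.mem_image.2 ⟨s, Finsupp.mem_support_iff.2 h0, rfl⟩
  let V : Submodule K R := Submodule.span K (Set.range b)
  have hXV : ∀ r ∈ X, r ∈ V := by
    intro r hr
    rw [← hco r, Finsupp.sum]
    refine Submodule.sum_mem _ fun s _ => ?_
    have h1 : ((⟨co r s, hcoK r hr s⟩ : K) • b s) ∈ V :=
      Submodule.smul_mem _ _ (Submodule.subset_span ⟨s, rfl⟩)
    exact h1
  have hhV : ∀ r ∈ V, h * r ∈ V := by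
    intro r hr
    refine Submodule.span_induction (p := fun r _ => h * r ∈ V) ?_ ?_ ?_ ?_ hr
    · rintro _ ⟨s, rfl⟩
      obtain ⟨t, ht⟩ := hbh s
      rw [← ht]
      exact Submodule.subset_span ⟨t, rfl⟩
    · rw [mul_zero]; exact Submodule.zero_mem _
    · intro x y _ _ hx hy
      rw [mul_add]; exact Submodule.add_mem _ hx hy
    · intro a x _ hx
      rw [mul_smul_comm]; exact Submodule.smul_mem _ _ hx
  have hhpV : ∀ j : ℕ, ∀ r ∈ V, h ^ j * r ∈ V := by
    intro j
    induction j with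
    | zero => intro r hr; rwa [pow_zero, one_mul]
    | succ j ih =>
      intro r hr
      rw [pow_succ, mul_assoc]
      exact ih _ (hhV _ hr)
  have hbbV : ∀ s t, b s * b t ∈ V := by
    intro s t
    obtain ⟨i, hi, j, hs⟩ := hbe s
    obtain ⟨i', hi', j', ht⟩ := hbe t
    have h1 : b s * b t = h ^ (j + j') * (e i * e i') := by
      rw [hs, ht, pow_add]; ring
    rw [h1]
    refine hhpV _ _ (hXV _ ?_)
    refine Finset.mem_insert_of_mem (Finset.mem_union_right _ (Finset.mem_image.2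
      ⟨(i, i'), Finset.mem_product.2 ⟨Finset.mem_range.2 hi, Finset.mem_range.2 hi'⟩, rfl⟩))
  have hmulV : ∀ x ∈ V, ∀ y ∈ V, x * y ∈ V := by
    intro x hx y hy
    refine Submodule.span_induction (p := fun x _ => x * y ∈ V) ?_ ?_ ?_ ?_ hx
    · rintro _ ⟨s, rfl⟩
      refine Submodule.span_induction (p := fun y _ => b s * y ∈ V) ?_ ?_ ?_ ?_ hy
      · rintro _ ⟨t, rfl⟩
        exact hbbV s t
      · rw [mul_zero]; exact Submodule.zero_mem _
      · intro x y _ _ hx hy
        rw [mul_add]; exact Submodule.add_mem _ hx hy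
      · intro a x _ hx
        rw [mul_smul_comm]; exact Submodule.smul_mem _ _ hx
    · rw [zero_mul]; exact Submodule.zero_mem _
    · intro x y _ _ hx hy
      rw [add_mul]; exact Submodule.add_mem _ hx hy
    · intro a x _ hx
      rw [smul_mul_assoc]; exact Submodule.smul_mem _ _ hx
  have h1V : (1 : R) ∈ V := hXV _ (Finset.mem_insert_self _ _)
  let R₀ : Subalgebra K R :=
    { carrier := V
      mul_mem' := fun {x y} hx hy => hmulV x hx y hy
      add_mem' := fun {x y} hx hy => Submodule.add_mem _ hx hy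
      algebraMap_mem' := fun c => by
        rw [Algebra.algebraMap_eq_smul_one]
        exact Submodule.smul_mem _ _ h1V }
  have hR₀ : ∀ x, x ∈ R₀ ↔ x ∈ V := fun x => Iff.rfl
  -- the leading terms
  have hlead : ∀ f : R₀, f ≠ 0 → ∃ (n : (D.gapsᶜ : Set ℕ)) (c : K), c ≠ 0 ∧
      D.deg (f : R) = n ∧ (f : R) - (c : k) • b n ∈ frm_low D n := by
    intro f hf
    obtain ⟨c, hc⟩ := (Finsupp.mem_span_range_iff_exists_finsupp).1 ((hR₀ _).1 f.2)
    let c' : (D.gapsᶜ : Set ℕ) →₀ k := c.mapRange (fun x : K => (x : k)) rfl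
    have hsum : (c'.sum fun s a => a • b s) = f := by
      rw [← hc, Finsupp.sum_mapRange_index]
      · rfl
      · intro s; exact zero_smul _ _
    have hc' : c' ≠ 0 := by
      intro h0
      apply hf
      apply Subtype.ext
      rw [← hsum, h0, Finsupp.sum_zero_index]
      rfl
    obtain ⟨n, h1, h2, h3, h4⟩ := frm_lead D b hb c' hc'
    rw [hsum] at h2 h3 h4
    refine ⟨n, c n, fun h0 => h1 ?_, h3, ?_⟩
    · show ((c n : K) : k) = 0
      rw [h0]; rfl
    · exact h4
  let D₀ : OnePl K R₀ :=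
    { deg := fun f => D.deg (f : R)
      deg_zero := D.deg_zero
      deg_mul := fun f g hf hg => D.deg_mul f g (fun h0 => hf (Subtype.ext h0))
        (fun h0 => hg (Subtype.ext h0))
      deg_add := fun f g => D.deg_add f g
      deg_C := fun c => D.deg_C (c : k)
      lead := by
        intro f g hf hg hfg
        obtain ⟨n, c, hc, h1, h2⟩ := hlead f hf
        obtain ⟨n', c', hc', h1', h2'⟩ := hlead g hg
        have hnn : n = n' := Subtype.ext (by rw [← h1, ← h1']; exact hfg)
        subst hnn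
        refine ⟨c / c', div_ne_zero hc hc', ?_⟩
        have h3 : ((f - (c / c') • g : R₀) : R) ∈ frm_low D n := by
          have h4 : ((f - (c / c') • g : R₀) : R) = ((f : R) - (c : k) • b n) -
              ((c : k) / (c' : k)) • ((g : R) - (c' : k) • b n) := by
            have h5 : (c' : k) ≠ 0 := fun h0 => hc' (Subtype.ext h0)
            have h6 : ((f - (c / c') • g : R₀) : R) = (f : R) - ((c : k) / (c' : k)) • (g : R) :=
              rfl
            rw [h6, smul_sub, smul_smul, div_mul_cancel₀ _ h5]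
            abel
          rw [h4]
          exact Submodule.sub_mem _ h2 (Submodule.smul_mem _ _ h2')
        rcases h3 with h3 | h3
        · left
          exact sub_eq_zero.1 (Subtype.ext h3)
        · right
          rw [h1]
          exact h3 }
  refine ⟨K, hfin, R₀, D₀, ?_, fun t ht => hXV _ (Finset.mem_insert_of_mem
    (Finset.mem_union_left _ ht)), fun f => rfl, ?_⟩
  · have h1 : (Q : Set k) ⊆ (K : Set k) := fun x hx => hFK x (Finset.mem_union_left _ hx)
    have h2 : (Q : Set k).ncard ≤ (K : Set k).ncard :=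
      Set.ncard_le_ncard h1 (Set.toFinite (K : Set k))
    rw [Set.ncard_coe_finset, hQ] at h2
    exact h2
  · ext n
    constructor
    · intro hn
      by_contra hn'
      have hV : b ⟨n, hn'⟩ ∈ V := Submodule.subset_span ⟨_, rfl⟩
      refine hn ⟨b ⟨n, hn'⟩, hV⟩ (fun h0 => (hb ⟨n, hn'⟩).1 (congrArg Subtype.val h0)) ?_
      exact (hb ⟨n, hn'⟩).2
    · intro hn f hf
      exact hn f (fun h0 => hf (Subtype.ext h0))

end Pool.Agent.Harder
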