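import Pool.Agent.Harder.Defs
import Pool.Agent.K3.HCore

/-!
The combinatorial core of the proof of Harder's theorem, in the form used for one-place rings.
-/

set_option autoImplicit false

open Finset

namespace Pool.Agent.Harder

theorem core {K V V₂ : Type} [Field K] [Finite K] [AddCommGroup V] [Module K V]
    [Fintype V] [AddCommGroup V₂] [Module K V₂] (m : V →ₗ[K] V →ₗ[K] V₂)
    (hm : ∀ x y, m x y = m y x) (good : V → V → Prop)
    (symm : ∀ x y, good x y → good y x)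
    (add : ∀ x y, good x y → ∀ a : K, good x (y + a • x))
    (smul : ∀ x y, good x y → ∀ a : K, a ≠ 0 → good x (a • y))
    (indep : ∀ x y, good x y → ∀ a b : K, a • x + b • y = 0 → a = 0 ∧ b = 0)
    (c₀ : ℕ) (hbad : ∀ u v, good u v → ∀ w, {a : K | ¬ good u (w + a • v)}.ncard ≤ c₀)
    (s₀ : ℕ) (hs0 : 0 < s₀) (hs : ∀ x y z, s₀ ≤ syz (fun a b => m a b) x y z)
    (hcount : ∀ x y, good x y → Nat.card K * ∑ z, syz (fun a b => m a b) x y z ≤
      (Nat.card K + 1) * s₀ * Nat.card V)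
    (φ : V → V → ℝ) (anti : ∀ x y, x ≠ 0 → y ≠ 0 → φ x y = - φ y x)
    (scal : ∀ x y, x ≠ 0 → y ≠ 0 → ∀ a : K, a ≠ 0 → φ (a • x) y = φ x y)
    (line : ∀ x y, good x y → φ x y + φ y (x + y) + φ (x + y) x = 0)
    (rel : ∀ p p' : Fin 3 → V, m (p 0) (p' 0) + m (p 1) (p' 1) + m (p 2) (p' 2) = 0 →
      (∀ i j, i ≠ j → good (p i) (p j) ∧ good (p i) (p' j) ∧ good (p' i) (p' j)) →
      (φ (p 0) (p 1) + φ (p 0) (p' 1) + φ (p' 0) (p 1) + φ (p' 0) (p' 1)) +
      (φ (p 1) (p 2) + φ (p 1) (p' 2) + φ (p' 1) (p 2) + φ (p' 1) (p' 2)) +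
      (φ (p 2) (p 0) + φ (p 2) (p' 0) + φ (p' 2) (p 0) + φ (p' 2) (p' 0)) = 0)
    (hQ : 10000 * (c₀ + 1) ^ 2 ≤ Nat.card K) :
    ∃ u : V → ℝ, ∀ x y, good x y → φ x y = u x - u y := by
  classical
  have : Fintype K := Fintype.ofFinite K
  have hK : Nat.card K = Fintype.card K := Nat.card_eq_fintype_card
  have hV : Nat.card V = Fintype.card V := Nat.card_eq_fintype_card
  have hsyz : ∀ x y z, syz (fun a b => m a b) x y z = Pool.Agent.K3.Harder.sN m x y z :=
    fun x y z => (Pool.Agent.K3.Harder.sN_eq_natCard m x y z).symm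
  have hne : ∀ x y, good x y → x ≠ 0 ∧ y ≠ 0 := by
    intro x y h
    refine ⟨?_, ?_⟩
    · rintro rfl
      exact one_ne_zero ((indep _ _ h 1 0 (by simp)).1)
    · rintro rfl
      exact one_ne_zero ((indep _ _ h 0 1 (by simp)).2)
  refine Pool.Agent.K3.Harder.core m hm good symm c₀ (fun u v w h => hbad u v h w) s₀ hs0
    (fun a b c => by rw [← hsyz]; exact hs a b c) ?_ φ
    (fun a b h => anti a b (hne a b h).1 (hne a b h).2) ?_ (by rw [← hK]; linarith)
  · intro a b h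
    have := hcount a b h
    rw [hK, hV] at this
    simpa only [hsyz] using this
  · intro a b c a' b' c' h0 g1 g2 g3 g4 g5 g6 g7 g8 g9 g10 g11 g12
    have h := rel ![a, b, c] ![a', b', c'] (by simpa using h0) ?_
    · simp only [Matrix.cons_val_zero, Matrix.cons_val_one, Matrix.cons_val] at h
      linarith
    · intro i j hij
      fin_cases i <;> fin_cases j
      · exact absurd rfl hij
      · exact ⟨g1, g2, g4⟩
      · exact ⟨symm _ _ g9, symm _ _ g11, symm _ _ g12⟩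
      · exact ⟨symm _ _ g1, symm _ _ g3, symm _ _ g4⟩
      · exact absurd rfl hij
      · exact ⟨g5, g6, g8⟩
      · exact ⟨g9, g10, g12⟩
      · exact ⟨symm _ _ g5, symm _ _ g7, symm _ _ g8⟩
      · exact absurd rfl hij

end Pool.Agent.Harder
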