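import Pool.Agent.Harder.Semi

/-!
Harder's theorem: division with remainder in a ring of functions with one pole, and the
dimension of the quotient by a principal ideal.
-/

set_option autoImplicit false

namespace Pool.Agent.Harder

section Semi2
variable {k R : Type} [Field k] [CommRing R] [IsDomain R] [Algebra k R] (D : OnePl k R)

/-- division with remainder -/
theorem exists_div (x : R) (hx : x ≠ 0) (c : ℕ) (hc : ∀ n ∈ D.gaps, n < c) (r : R) :
    ∃ q s : R, r = x * q + s ∧ (s = 0 ∨ D.deg s < D.deg x + c) := by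
  have key : ∀ n : ℕ, ∀ r : R, D.deg r ≤ n →
      ∃ q s : R, r = x * q + s ∧ (s = 0 ∨ D.deg s < D.deg x + c) := by
    intro n
    induction n using Nat.strong_induction_on with
    | _ n ih =>
      intro r hr
      by_cases hr0 : r = 0
      · exact ⟨0, 0, by rw [hr0, mul_zero, zero_add], Or.inl rfl⟩
      by_cases hlt : D.deg r < D.deg x + c
      · exact ⟨0, r, by rw [mul_zero, zero_add], Or.inr hlt⟩
      have hm : D.deg r - D.deg x ∉ D.gaps := fun h => by
        have := hc _ h
        omega
      have hm' : ∃ q₀ : R, q₀ ≠ 0 ∧ D.deg q₀ = D.deg r - D.deg x := by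
        by_contra hcon
        apply hm
        intro f hf hd
        exact hcon ⟨f, hf, hd⟩
      obtain ⟨q₀, hq₀, hd₀⟩ := hm'
      have hxq : x * q₀ ≠ 0 := mul_ne_zero hx hq₀
      have hdxq : D.deg r = D.deg (x * q₀) := by
        rw [D.deg_mul x q₀ hx hq₀, hd₀]
        omega
      obtain ⟨e, he, h | h⟩ := D.lead r (x * q₀) hr0 hxq hdxq
      · refine ⟨e • q₀, 0, ?_, Or.inl rfl⟩
        rw [add_zero, mul_smul_comm]
        exact h
      · obtain ⟨q, s, hqs, hs⟩ := ih (D.deg (r - e • (x * q₀))) (by omega)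
          (r - e • (x * q₀)) le_rfl
        refine ⟨q + e • q₀, s, ?_, hs⟩
        rw [mul_add, mul_smul_comm]
        linear_combination hqs
  exact key (D.deg r) r le_rfl

theorem finrank_quot (hg : D.gaps.Finite) (x : R) (hx : x ≠ 0) :
    Module.Finite k (R ⧸ Ideal.span {x}) ∧
      Module.finrank k (R ⧸ Ideal.span {x}) = D.deg x := by
  obtain ⟨c, hc⟩ : ∃ c : ℕ, ∀ n ∈ D.gaps, n < c := by
    obtain ⟨b, hb⟩ := hg.bddAbove
    exact ⟨b + 1, fun n hn => Nat.lt_succ_of_le (hb hn)⟩
  have := fil_finite D (D.deg x + c)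
  have := fil_finite D c
  let φ : D.fil (D.deg x + c) →ₗ[k] (R ⧸ Ideal.span {x}) :=
    (Ideal.Quotient.mkₐ k (Ideal.span {x})).toLinearMap ∘ₗ (D.fil (D.deg x + c)).subtype
  have hφ : ∀ v, φ v = Ideal.Quotient.mk (Ideal.span {x}) (v : R) := fun v => rfl
  have hsurj : Function.Surjective φ := by
    intro y
    obtain ⟨r, rfl⟩ := Ideal.Quotient.mk_surjective y
    obtain ⟨q, s, hqs, hs⟩ := exists_div D x hx c hc r
    have hsm : s ∈ D.fil (D.deg x + c) := by
      rw [D.mem_fil]
      rcases hs with h | h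
      · rw [h, D.deg_zero]; exact Nat.zero_le _
      · exact h.le
    refine ⟨⟨s, hsm⟩, ?_⟩
    rw [hφ, Ideal.Quotient.eq, Ideal.mem_span_singleton]
    refine ⟨-q, ?_⟩
    rw [hqs]
    ring
  let μ : D.fil c →ₗ[k] D.fil (D.deg x + c) :=
    { toFun := fun w => ⟨x * (w : R), by
        have hw := (D.mem_fil _ _).1 w.2
        exact (D.deg_mul_le _ _).trans (by omega)⟩
      map_add' := fun a b => Subtype.ext (mul_add _ _ _)
      map_smul' := fun e a => Subtype.ext (mul_smul_comm _ _ _) }
  have hμ : ∀ w, ((μ w : D.fil (D.deg x + c)) : R) = x * (w : R) := fun w => rfl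
  have hinj : Function.Injective μ := by
    intro a b hab
    apply Subtype.ext
    have h1 : x * (a : R) = x * (b : R) := by
      rw [← hμ, ← hμ, hab]
    exact mul_left_cancel₀ hx h1
  have hker : LinearMap.ker φ = LinearMap.range μ := by
    ext v
    rw [LinearMap.mem_ker, LinearMap.mem_range, hφ, Ideal.Quotient.eq_zero_iff_mem,
      Ideal.mem_span_singleton]
    constructor
    · rintro ⟨w, hw⟩
      have hwm : w ∈ D.fil c := by
        rw [D.mem_fil]
        by_cases hw0 : w = 0
        · rw [hw0, D.deg_zero]; exact Nat.zero_le _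
        · have h1 := D.deg_mul x w hx hw0
          have h2 := (D.mem_fil _ _).1 v.2
          rw [hw] at h2
          omega
      exact ⟨⟨w, hwm⟩, Subtype.ext hw.symm⟩
    · rintro ⟨w, hw⟩
      exact ⟨(w : R), by rw [← hw, hμ]⟩
  have hfin : Module.Finite k (R ⧸ Ideal.span {x}) := Module.Finite.of_surjective φ hsurj
  refine ⟨hfin, ?_⟩
  have h1 := LinearMap.finrank_range_add_finrank_ker φ
  rw [hker, LinearMap.finrank_range_of_inj hinj, LinearMap.range_eq_top.2 hsurj,
    finrank_top] at h1
  have h2 := finrank_fil D hg (D.deg x + c) (fun n hn => by have := hc n hn; omega)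
  have h3 := finrank_fil D hg c (fun n hn => (hc n hn).le)
  omega

end Semi2

end Pool.Agent.Harder
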