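import Pool.Agent.Harder.Semi
import Pool.Agent.Harder.Semi2

/-!
Harder's theorem: functionals killing a pencil without base points. If a nonzero functional on
the functions of pole order at most `2N` kills `x V` and `y V` (a good pair), then the space of the
`z` for which it kills `z V` has dimension at most twice the number of gaps.
-/

set_option autoImplicit false

namespace Pool.Agent.Harder

open Module

section KB

variable {k R : Type} [Field k] [CommRing R] [IsDomain R] [Algebra k R] (D : OnePl k R)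

/-- A functional on `D.fil (2 * N)` which kills `x D.fil N` extends to the quotient by `x`. -/
theorem kb_ext (N : ℕ) (hN : ∀ n ∈ D.gaps, n < N) (x : D.fil N) (hx0 : (x : R) ≠ 0)
    (hxN : D.deg (x : R) = N) (η : D.fil (2 * N) →ₗ[k] k)
    (hx : ∀ v, η (D.mulFil N x v) = 0) :
    ∃ ηq : (R ⧸ Ideal.span {(x : R)}) →ₗ[k] k,
      ∀ v : D.fil (2 * N), ηq (Ideal.Quotient.mk (Ideal.span {(x : R)}) (v : R)) = η v := by
  let φ : D.fil (2 * N) →ₗ[k] (R ⧸ Ideal.span {(x : R)}) :=
    (Ideal.Quotient.mkₐ k (Ideal.span {(x : R)})).toLinearMap ∘ₗ (D.fil (2 * N)).subtype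
  have hφ : ∀ v, φ v = Ideal.Quotient.mk (Ideal.span {(x : R)}) (v : R) := fun v => rfl
  have hsurj : Function.Surjective φ := by
    intro w
    obtain ⟨r, rfl⟩ := Ideal.Quotient.mk_surjective w
    obtain ⟨q, s, hqs, hs⟩ := exists_div D (x : R) hx0 N hN r
    have hsm : s ∈ D.fil (2 * N) := by
      rw [D.mem_fil]
      rcases hs with h | h
      · rw [h, D.deg_zero]; exact Nat.zero_le _
      · omega
    refine ⟨⟨s, hsm⟩, ?_⟩
    rw [hφ, Ideal.Quotient.eq, Ideal.mem_span_singleton]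
    refine ⟨-q, ?_⟩
    rw [hqs]
    ring
  have hker : LinearMap.ker φ ≤ LinearMap.ker η := by
    intro v hv
    rw [LinearMap.mem_ker, hφ, Ideal.Quotient.eq_zero_iff_mem, Ideal.mem_span_singleton] at hv
    obtain ⟨w, hw⟩ := hv
    have hwm : w ∈ D.fil N := by
      rw [D.mem_fil]
      by_cases hw0 : w = 0
      · rw [hw0, D.deg_zero]; exact Nat.zero_le _
      · have h1 := D.deg_mul (x : R) w hx0 hw0
        have h2 := (D.mem_fil _ _).1 v.2
        rw [hw] at h2
        omega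
    have h3 : v = D.mulFil N x ⟨w, hwm⟩ := Subtype.ext hw
    rw [LinearMap.mem_ker, h3]
    exact hx _
  refine ⟨((LinearMap.ker φ).liftQ η hker) ∘ₗ
    (φ.quotKerEquivOfSurjective hsurj).symm.toLinearMap, ?_⟩
  intro v
  have h4 : (φ.quotKerEquivOfSurjective hsurj).symm (φ v) = Submodule.Quotient.mk v := by
    rw [LinearEquiv.symm_apply_eq]
    rfl
  rw [← hφ, LinearMap.comp_apply, LinearEquiv.coe_coe, h4]
  rfl

theorem kb_arith (a b c d : ℕ) (h : a + b ≤ c + 1) (h' : c + 1 ≤ b + 2 * d) : a ≤ 2 * d := by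
  omega

/-- Linear algebra: a map whose image is killed by independent functionals. -/
theorem kb_lin {B E T : Type} [AddCommGroup B] [Module k B] [Module.Finite k B] [AddCommGroup E]
    [Module k E] [Module.Finite k E] [Fintype T] (lam : T → Module.Dual k B)
    (hlin : LinearIndependent k lam) (ψ : E →ₗ[k] B) (hψ : ∀ z t, lam t (ψ z) = 0)
    (hker : Module.finrank k (LinearMap.ker ψ) ≤ 1) :
    Module.finrank k E + Fintype.card T ≤ Module.finrank k B + 1 := by
  have hΦ : Module.finrank k (Submodule.span k (Set.range lam)) = Fintype.card T :=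
    finrank_span_eq_card hlin
  have hdim := Subspace.finrank_add_finrank_dualCoannihilator_eq
    (Submodule.span k (Set.range lam))
  rw [hΦ] at hdim
  have hrange : LinearMap.range ψ ≤
      (Submodule.span k (Set.range lam)).dualCoannihilator := by
    rintro _ ⟨z, rfl⟩
    have h1 : Submodule.span k (Set.range lam) ≤
        LinearMap.ker (Module.Dual.eval k B (ψ z)) := by
      rw [Submodule.span_le]
      rintro _ ⟨t, rfl⟩
      exact hψ z t
    rw [Submodule.mem_dualCoannihilator]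
    intro ξ hξ
    exact h1 hξ
  have h1 := LinearMap.finrank_range_add_finrank_ker ψ
  have h2 := Submodule.finrank_mono hrange
  omega

/-- Independence of the functionals `w ↦ μ (e t * w)`. -/
theorem kb_tri {B : Type} [AddCommGroup B] [Module k B] (mk : R →ₗ[k] B) (μ : R →ₗ[k] k)
    (s N : ℕ) (hsN : N < s) (hlt : ∀ r : R, D.deg r < s → μ r = 0)
    (heq : ∀ r : R, r ≠ 0 → D.deg r = s → μ r ≠ 0) (T : Finset ℕ) (hT : ∀ t ∈ T, t ≤ N)
    (e f : T → R) (he0 : ∀ t, e t ≠ 0) (he : ∀ t, D.deg (e t) = (t : ℕ))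
    (hf0 : ∀ t, f t ≠ 0) (hf : ∀ t, D.deg (f t) = s - (t : ℕ))
    (lam : T → Module.Dual k B) (hlam : ∀ t w, lam t (mk w) = μ (e t * w)) :
    LinearIndependent k lam := by
  classical
  rw [Fintype.linearIndependent_iff]
  intro g hsum
  by_contra hcon
  push Not at hcon
  obtain ⟨i₀, hi₀⟩ := hcon
  obtain ⟨m, hm, hmax⟩ := (Finset.univ.filter (fun i => g i ≠ 0)).exists_max_image
    (fun i : T => (i : ℕ)) ⟨i₀, by simp [hi₀]⟩
  have h1 : (∑ i, g i • lam i) (mk (f m)) = 0 := by rw [hsum]; rfl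
  rw [LinearMap.sum_apply, Finset.sum_eq_single m] at h1
  · rw [LinearMap.smul_apply, smul_eq_mul, hlam] at h1
    have h2 : μ (e m * f m) ≠ 0 := by
      apply heq _ (mul_ne_zero (he0 m) (hf0 m))
      rw [D.deg_mul _ _ (he0 m) (hf0 m), he, hf]
      have h3 := hT m m.2
      omega
    have h4 : g m ≠ 0 := (Finset.mem_filter.mp hm).2
    exact (mul_ne_zero h4 h2) h1
  · intro i _ him
    by_cases hgi : g i = 0
    · rw [hgi, zero_smul, LinearMap.zero_apply]
    · have h5 : (i : ℕ) ≤ (m : ℕ) := hmax i (by simp [hgi])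
      have h6 : (i : ℕ) ≠ (m : ℕ) := fun h => him (Subtype.ext h)
      rw [LinearMap.smul_apply, hlam, hlt, smul_zero]
      rw [D.deg_mul _ _ (he0 i) (hf0 m), he, hf]
      have h3 := hT m m.2
      omega
  · intro h
    exact absurd (Finset.mem_univ _) h

omit [IsDomain R] in
/-- The lowest degree of an element where a functional does not vanish. -/
theorem kb_low (μ : R →ₗ[k] k) (N : ℕ) (hμV : ∀ v : R, D.deg v ≤ N → μ v = 0)
    (hne : ∃ e : R, μ e ≠ 0) : ∃ s, N < s ∧ (∀ r : R, D.deg r < s → μ r = 0) ∧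
      ∀ r : R, r ≠ 0 → D.deg r = s → μ r ≠ 0 := by
  classical
  have hne : ∃ s, ∃ e : R, D.deg e = s ∧ μ e ≠ 0 := by
    obtain ⟨e, he⟩ := hne
    exact ⟨_, e, rfl, he⟩
  obtain ⟨es, hes, hμes⟩ := Nat.find_spec hne
  have hlt : ∀ r : R, D.deg r < Nat.find hne → μ r = 0 := by
    intro r hr
    by_contra h
    exact Nat.find_min hne hr ⟨r, rfl, h⟩
  refine ⟨Nat.find hne, ?_, hlt, ?_⟩
  · by_contra h
    push Not at h
    exact hμes (hμV es (by rw [hes]; exact h))
  · intro r hr hd h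
    have hes0 : es ≠ 0 := by
      rintro rfl
      exact hμes (map_zero _)
    obtain ⟨c, -, h1 | h1⟩ := D.lead es r hes0 hr (by rw [hes, hd])
    · apply hμes
      rw [h1, map_smul, h, smul_zero]
    · apply hμes
      have h2 : es = (es - c • r) + c • r := by abel
      rw [h2, map_add, hlt _ (by rw [← hes]; exact h1), map_smul, h, smul_zero, add_zero]

/-- The main step, with an abstract quotient map. -/
theorem kb_abs (hg : D.gaps.Finite) (N : ℕ) (x y : R)
    (hx0 : x ≠ 0) (hxN : D.deg x = N) (a b : R) (hab : a * x + b * y = 1)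
    {B : Type} [CommRing B] [Algebra k B] [Module.Finite k B] (hBdim : Module.finrank k B = N)
    (mk : R →ₐ[k] B) (hmkx : ∀ r, mk r = 0 ↔ x ∣ r) (ηq : B →ₗ[k] k)
    (hη : ∃ v : R, ηq (mk v) ≠ 0) (hy : ∀ v : R, D.deg v ≤ N → ηq (mk (y * v)) = 0)
    {E : Type} [AddCommGroup E] [Module k E] [Module.Finite k E] (i : E →ₗ[k] R)
    (hi : Function.Injective i) (hiN : ∀ z, D.deg (i z) ≤ N)
    (hE : ∀ z, ∀ v : R, D.deg v ≤ N → ηq (mk (i z * v)) = 0) :
    Module.finrank k E ≤ 2 * D.gaps.ncard := by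
  have hyb : ∀ w, mk (y * (b * w)) = mk w := by
    intro w
    have h1 : y * (b * w) = w + x * (-(a * w)) := by
      linear_combination w * hab
    rw [h1, map_add, (hmkx _).2 (Dvd.intro _ rfl), add_zero]
  obtain ⟨μ, hμ⟩ : ∃ μ : R →ₗ[k] k, ∀ w, μ w = ηq (mk (y * w)) :=
    ⟨ηq ∘ₗ mk.toLinearMap ∘ₗ LinearMap.mulLeft k y, fun w => rfl⟩
  have hμV : ∀ v : R, D.deg v ≤ N → μ v = 0 := by
    intro v hv
    rw [hμ]
    exact hy v hv
  have hμb : ∀ w, μ (b * w) = ηq (mk w) := by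
    intro w
    rw [hμ, hyb]
  have hne : ∃ e : R, μ e ≠ 0 := by
    obtain ⟨v, hv⟩ := hη
    exact ⟨b * v, by rw [hμb]; exact hv⟩
  obtain ⟨s, hsN, hlt, heq⟩ := kb_low D μ N hμV hne
  obtain ⟨T, hT1, hT2⟩ := card_sym D hg s N hsN
  have hgap : ∀ n, n ∉ D.gaps → ∃ f : R, f ≠ 0 ∧ D.deg f = n := by
    intro n hn
    by_contra hcon
    apply hn
    intro f hf hd
    exact hcon ⟨f, hf, hd⟩
  have hch1 : ∀ t : T, ∃ e : R, e ≠ 0 ∧ D.deg e = (t : ℕ) := fun t => hgap _ (hT2 t t.2).2.1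
  have hch2 : ∀ t : T, ∃ f : R, f ≠ 0 ∧ D.deg f = s - (t : ℕ) :=
    fun t => hgap _ (hT2 t t.2).2.2
  choose e he0 he using hch1
  choose f hf0 hf using hch2
  obtain ⟨lam, hlam⟩ : ∃ lam : T → Module.Dual k B, ∀ t w, lam t (mk w) = μ (e t * w) := by
    refine ⟨fun t => ηq ∘ₗ LinearMap.mulLeft k (mk (y * e t)), ?_⟩
    intro t w
    rw [hμ]
    show ηq (mk (y * e t) * mk w) = _
    rw [← map_mul, mul_assoc]
  have hlin : LinearIndependent k lam :=
    kb_tri D mk.toLinearMap μ s N hsN hlt heq T (fun t ht => (hT2 t ht).1) e f he0 he hf0 hf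
      lam hlam
  obtain ⟨ψ, hψ⟩ : ∃ ψ : E →ₗ[k] B, ∀ z : E, ψ z = mk (b * i z) :=
    ⟨mk.toLinearMap ∘ₗ LinearMap.mulLeft k b ∘ₗ i, fun z => rfl⟩
  have hzero : ∀ z t, lam t (ψ z) = 0 := by
    intro z t
    rw [hψ, hlam]
    have h2 : e t * (b * i z) = b * (i z * e t) := by ring
    rw [h2, hμb]
    exact hE z (e t) (by rw [he]; exact (hT2 t t.2).1)
  have h3 : Module.finrank k (LinearMap.ker ψ) ≤ 1 := by
    have h4 : ∀ z : LinearMap.ker ψ, (i ∘ₗ (LinearMap.ker ψ).subtype) z ∈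
        Submodule.span k {x} := by
      intro z
      have hz' : ψ (z : E) = 0 := z.2
      have h5 : mk (i (z : E)) = 0 := by
        rw [← hyb, map_mul, ← hψ, hz', mul_zero]
      rw [hmkx] at h5
      obtain ⟨w, hw⟩ := h5
      have hw0 : D.deg w = 0 := by
        by_cases hw0 : w = 0
        · rw [hw0, D.deg_zero]
        · have h6 := D.deg_mul x w hx0 hw0
          have h7 := hiN (z : E)
          rw [hw] at h7
          omega
      obtain ⟨c, hc⟩ := eq_algebraMap_of_deg D w hw0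
      rw [Submodule.mem_span_singleton]
      refine ⟨c, ?_⟩
      show c • x = i (z : E)
      rw [hw, hc, Algebra.smul_def, mul_comm]
    have h5 : Function.Injective (LinearMap.codRestrict (Submodule.span k {x}) _ h4) := by
      intro z z' hzz
      have h6 := congrArg Subtype.val hzz
      exact Subtype.ext (hi h6)
    refine (LinearMap.finrank_le_finrank_of_injective h5).trans ?_
    rw [finrank_span_singleton hx0]
  have h6 := kb_lin lam hlin ψ hzero h3
  rw [Fintype.card_coe, hBdim] at h6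
  exact kb_arith _ _ _ _ h6 hT1

theorem kb_core (hg : D.gaps.Finite) (N : ℕ) (hN : ∀ n ∈ D.gaps, n < N) (x y : D.fil N)
    (hx0 : (x : R) ≠ 0) (hxN : D.deg (x : R) = N) (hcop : IsCoprime (x : R) (y : R))
    (η : D.fil (2 * N) →ₗ[k] k) (hη : η ≠ 0)
    (hx : ∀ v, η (D.mulFil N x v) = 0) (hy : ∀ v, η (D.mulFil N y v) = 0)
    (E : Submodule k (D.fil N)) (hE : ∀ z ∈ E, ∀ v, η (D.mulFil N z v) = 0) :
    Module.finrank k E ≤ 2 * D.gaps.ncard := by
  have hfin := fil_finite D N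
  obtain ⟨ηq, hq⟩ := kb_ext D N hN x hx0 hxN η hx
  obtain ⟨hBfin, hBdim⟩ := finrank_quot D hg (x : R) hx0
  obtain ⟨a, b, hab⟩ := hcop
  refine kb_abs (E := E) D hg N (x : R) (y : R) hx0 hxN a b hab (hBdim.trans hxN)
    (Ideal.Quotient.mkₐ k (Ideal.span {(x : R)})) ?_ ηq ?_ ?_
    ((D.fil N).subtype ∘ₗ E.subtype) ?_ ?_ ?_
  · intro r
    rw [Ideal.Quotient.mkₐ_eq_mk, Ideal.Quotient.eq_zero_iff_mem, Ideal.mem_span_singleton]
  · obtain ⟨v, hv⟩ : ∃ v, η v ≠ 0 := by
      by_contra hcon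
      push Not at hcon
      exact hη (LinearMap.ext hcon)
    exact ⟨(v : R), by rw [Ideal.Quotient.mkₐ_eq_mk, hq]; exact hv⟩
  · intro v hv
    rw [Ideal.Quotient.mkₐ_eq_mk, ← hy ⟨v, hv⟩, ← hq]
    rfl
  · intro z z' h
    exact Subtype.ext (Subtype.ext h)
  · intro z
    exact (z : D.fil N).2
  · intro z v hv
    rw [Ideal.Quotient.mkₐ_eq_mk, ← hE (z : D.fil N) z.2 ⟨v, hv⟩, ← hq]
    rfl

end KB

theorem kbound {k R : Type} [Field k] [CommRing R] [IsDomain R] [Algebra k R] (D : OnePl k R)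
    (hg : D.gaps.Finite) (N : ℕ) (hN : ∀ n ∈ D.gaps, n < N) (x y : D.fil N)
    (hxy : D.Good N x y) (η : D.fil (2 * N) →ₗ[k] k) (hη : η ≠ 0)
    (hx : ∀ v, η (D.mulFil N x v) = 0) (hy : ∀ v, η (D.mulFil N y v) = 0)
    (E : Submodule k (D.fil N)) (hE : ∀ z ∈ E, ∀ v, η (D.mulFil N z v) = 0) :
    Module.finrank k E ≤ 2 * D.gaps.ncard := by
  obtain ⟨hx1, hy1, hd, hcop⟩ := hxy
  have key : ((x : R) ≠ 0 ∧ D.deg (x : R) = N) ∨ ((y : R) ≠ 0 ∧ D.deg (y : R) = N) := by
    by_cases hN0 : N = 0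
    · by_cases hx0 : (x : R) = 0
      · right
        refine ⟨?_, by omega⟩
        intro hy0
        rw [hx0, hy0] at hcop
        exact not_isCoprime_zero_zero hcop
      · left
        exact ⟨hx0, by omega⟩
    · rcases hd with h | h
      · left
        refine ⟨?_, h⟩
        intro h0
        rw [h0, D.deg_zero] at h
        exact hN0 h.symm
      · right
        refine ⟨?_, h⟩
        intro h0
        rw [h0, D.deg_zero] at h
        exact hN0 h.symm
  rcases key with ⟨h0, h1⟩ | ⟨h0, h1⟩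
  · exact kb_core D hg N hN x y h0 h1 hcop η hη hx hy E hE
  · exact kb_core D hg N hN y x h0 h1 hcop.symm η hη hy hx E hE

end Pool.Agent.Harder
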