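import Pool.Agent.Harder.CountA
import Pool.Agent.Harder.KBound

/-!
Harder's theorem, block HB-05: counting syzygies.
-/

set_option autoImplicit false

namespace Pool.Agent.Harder

section Count
variable {K R : Type} [Field K] [Finite K] [CommRing R] [IsDomain R] [Algebra K R]
  (D : OnePl K R)

theorem syz_sum_le (hg : D.gaps.Finite) (N : ℕ) (hN : ∀ n ∈ D.gaps, n < N)
    (hN5 : 5 * D.gaps.ncard ≤ N) [Fintype (D.fil N)] (x y : D.fil N) (hxy : D.Good N x y) :
    Nat.card K * ∑ z, syz (fun a b => D.mulFil N a b) x y z ≤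
      (Nat.card K + 1) *
        Nat.card K ^ (3 * Module.finrank K (D.fil N) - Module.finrank K (D.fil (2 * N))) *
        Nat.card (D.fil N) :=
  ct_sum_le D hg N hN hN5 x y hxy fun η hη hx hy E hE => kbound D hg N hN x y hxy η hη hx hy E hE

end Count

end Pool.Agent.Harder
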