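import Pool.Agent.Harder.Stein
import Pool.Agent.Harder.BadCount
import Pool.Agent.Harder.Count
import Pool.Agent.Harder.Core

/-!
Harder's theorem, HB-07: over a finite field with many elements the symbol of two coprime
functions with the same pole order is zero.
-/

set_option autoImplicit false

namespace Pool.Agent.Harder

theorem of_scal {K R : Type} [Field K] [Finite K] [CommRing R] [IsDomain R] [Algebra K R]
    {φ : R → R → ℝ} (hφ : StR φ) (a : K) (ha : a ≠ 0) (x y : R) (hx : x ≠ 0) (hy : y ≠ 0) :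
    φ (a • x) y = φ x y := by
  have h1 : algebraMap K R a ≠ 0 := fun h0 =>
    ha ((injective_iff_map_eq_zero (algebraMap K R)).1 (algebraMap K R).injective a h0)
  have h2 : (Units.mk0 a ha) ^ Nat.card Kˣ = 1 := pow_card_eq_one'
  have h3 : a ^ Nat.card Kˣ = 1 := by
    have h5 := congrArg Units.val h2
    rwa [Units.val_pow_eq_pow_val, Units.val_mk0, Units.val_one] at h5
  have h4 : φ (algebraMap K R a) y = 0 :=
    hφ.torsion (algebraMap K R a) y (Nat.card Kˣ) Nat.card_pos
      (by rw [← map_pow, h3, map_one]) hy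
  rw [Algebra.smul_def, hφ.mul_left _ _ _ h1 hx hy, h4, zero_add]

theorem of_neg {K R : Type} [Field K] [Finite K] [CommRing R] [IsDomain R] [Algebra K R]
    {φ : R → R → ℝ} (hφ : StR φ) (x y : R) (hx : x ≠ 0) (hy : y ≠ 0) :
    φ (-x) y = φ x y := by
  have h := of_scal (K := K) hφ (-1) (neg_ne_zero.2 one_ne_zero) x y hx hy
  rwa [neg_smul, one_smul] at h

theorem of_ne {K R : Type} [Field K] [CommRing R] [IsDomain R]
    [Algebra K R] (D : OnePl K R) (N : ℕ) (hN0 : 0 < N) {x y : R} (h : D.Good N x y) :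
    x ≠ 0 ∧ y ≠ 0 := by
  refine ⟨?_, ?_⟩
  · rintro rfl
    exact one_ne_zero ((Good.indep D hN0 h (1 : K) 0 (by simp)).1)
  · rintro rfl
    exact one_ne_zero ((Good.indep D hN0 h (0 : K) 1 (by simp)).2)

theorem coprime_finite {K R : Type} [Field K] [Finite K] [CommRing R] [IsDomain R]
    [Algebra K R] (D : OnePl K R) (hg : D.gaps.Finite) (N : ℕ) (hN0 : 0 < N)
    (hN : ∀ n ∈ D.gaps, n < N) (hN5 : 5 * D.gaps.ncard ≤ N)
    (hQ : 10000 * (N + 2) ^ 2 ≤ Nat.card K) (φ : R → R → ℝ) (hφ : StR φ) (x y : R)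
    (hx : D.deg x = N) (hy : D.deg y = N) (hxy : IsCoprime x y) : φ x y = 0 := by
  classical
  have hfin : Module.Finite K (D.fil N) := fil_finite D N
  have hfin2 : Finite (D.fil N) := Module.finite_of_finite K
  let inst : Fintype (D.fil N) := Fintype.ofFinite _
  have hcoe : ∀ v : D.fil N, v ≠ 0 → (v : R) ≠ 0 := fun v hv h =>
    hv (Subtype.ext h)
  have hgood : ∀ v w : D.fil N, D.Good N (v : R) (w : R) → (v : R) ≠ 0 ∧ (w : R) ≠ 0 :=
    fun v w h => of_ne D N hN0 h
  obtain ⟨u, hu⟩ := core (D.mulFil N) (fun a b => Subtype.ext (mul_comm (a : R) (b : R)))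
    (fun a b => D.Good N (a : R) (b : R)) (fun a b h => Good.symm D h)
    (fun a b h c => Good.add D h c) (fun a b h c hc => Good.smul D h c hc)
    (fun a b h c d hcd => Good.indep D hN0 h c d (by
      have := congrArg Subtype.val hcd
      simpa using this))
    (N + 1) (fun u v huv w => (bad_count D hg N u v w huv w.2).2)
    (Nat.card K ^ (3 * Module.finrank K (D.fil N) - Module.finrank K (D.fil (2 * N))))
    (Nat.pow_pos Nat.card_pos) (fun a b c => syz_ge D N a b c)
    (fun a b h => syz_sum_le D hg N hN hN5 a b h) (fun a b => φ (a : R) (b : R))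
    (fun a b ha hb => hφ.anti _ _ (hcoe a ha) (hcoe b hb))
    (fun a b ha hb c hc => of_scal hφ c hc _ _ (hcoe a ha) (hcoe b hb)) (fun a b h => by
      obtain ⟨h1, h2⟩ := hgood a b h
      have h3 : (a : R) + b ≠ 0 := by
        intro h0
        exact one_ne_zero ((Good.indep D hN0 h (1 : K) 1 (by rw [one_smul, one_smul]; exact h0)).1)
      have h4 := hφ.rel (a : R) b (-((a : R) + b)) h1 h2 (neg_ne_zero.2 h3) (by ring)
      have h5 : φ (b : R) (-((a : R) + b)) = φ (b : R) ((a : R) + b) := by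
        rw [hφ.anti _ _ h2 (neg_ne_zero.2 h3), of_neg (K := K) hφ _ _ h3 h2,
          ← hφ.anti _ _ h2 h3]
      rw [h5, of_neg (K := K) hφ _ _ h3 h1] at h4
      exact h4) (fun p p' h0 h => by
      have hp : ∀ i, (p i : R) ≠ 0 := by
        intro i
        fin_cases i
        · exact (hgood _ _ (h 0 1 (by decide)).1).1
        · exact (hgood _ _ (h 0 1 (by decide)).1).2
        · exact (hgood _ _ (h 2 1 (by decide)).1).1
      have hp' : ∀ i, (p' i : R) ≠ 0 := by
        intro i
        fin_cases i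
        · exact (hgood _ _ (h 1 0 (by decide)).2.1).2
        · exact (hgood _ _ (h 0 1 (by decide)).2.1).2
        · exact (hgood _ _ (h 1 2 (by decide)).2.1).2
      exact hφ.rel6 (fun i => (p i : R)) (fun i => (p' i : R)) hp hp'
        (congrArg Subtype.val h0)) hQ
  have hx0 : x ≠ 0 := by
    rintro rfl
    rw [D.deg_zero] at hx
    omega
  have hy0 : y ≠ 0 := by
    rintro rfl
    rw [D.deg_zero] at hy
    omega
  have hone : D.deg (1 : R) ≤ N := by
    have := D.deg_C (1 : K)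
    rw [map_one] at this
    omega
  have key : ∀ z : R, z ≠ 0 → D.deg z = N → ∀ hz : z ∈ D.fil N,
      u ⟨z, hz⟩ = u ⟨1, hone⟩ := by
    intro z hz0 hzN hz
    have h1 := hu ⟨z, hz⟩ ⟨1, hone⟩ ⟨hzN.le, hone, Or.inl hzN, isCoprime_one_right⟩
    have h2 : φ z 1 = 0 := by
      rw [hφ.anti _ _ hz0 one_ne_zero, hφ.one_left z hz0, neg_zero]
    have h3 : φ z 1 = u ⟨z, hz⟩ - u ⟨1, hone⟩ := h1
    linarith
  have h1 : φ x y = u ⟨x, hx.le⟩ - u ⟨y, hy.le⟩ :=
    hu ⟨x, hx.le⟩ ⟨y, hy.le⟩ ⟨hx.le, hy.le, Or.inl hx, hxy⟩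
  rw [h1, key x hx0 hx hx.le, key y hy0 hy hy.le, sub_self]

end Pool.Agent.Harder
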