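import Pool.Agent.Harder.Defs

/-!
The semigroup of pole orders of a ring of functions with only one pole.
-/

set_option autoImplicit false
set_option linter.unusedSectionVars false

namespace Pool.Agent.Harder

open Module

variable {k R : Type} [Field k] [CommRing R] [IsDomain R] [Algebra k R] (D : OnePl k R)

theorem eq_algebraMap_of_deg (f : R) (hf : D.deg f = 0) : ∃ c : k, f = algebraMap k R c := by
  by_cases h0 : f = 0
  · exact ⟨0, by rw [h0, map_zero]⟩
  · have h1 : D.deg (1 : R) = 0 := by
      have := D.deg_C 1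
      rwa [map_one] at this
    obtain ⟨c, -, hc | hc⟩ := D.lead f 1 h0 one_ne_zero (by rw [hf, h1])
    · exact ⟨c, by rw [hc, Algebra.smul_def, mul_one]⟩
    · rw [hf] at hc
      exact absurd hc (Nat.not_lt_zero _)

theorem sm_zero_notMem_gaps : 0 ∉ D.gaps := by
  intro h
  have h1 : D.deg (1 : R) = 0 := by
    have := D.deg_C 1
    rwa [map_one] at this
  exact h 1 one_ne_zero h1

theorem sm_fil_zero : D.fil 0 = Submodule.span k {(1 : R)} := by
  apply le_antisymm
  · intro f hf
    obtain ⟨c, hc⟩ := eq_algebraMap_of_deg D f (Nat.le_zero.mp ((D.mem_fil _ _).1 hf))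
    rw [hc, Algebra.algebraMap_eq_smul_one]
    exact Submodule.smul_mem _ _ (Submodule.mem_span_singleton_self _)
  · rw [Submodule.span_singleton_le_iff_mem, D.mem_fil]
    have := D.deg_C 1
    rw [map_one] at this
    exact this.le

theorem sm_fil_succ_gap (N : ℕ) (h : N + 1 ∈ D.gaps) : D.fil (N + 1) = D.fil N := by
  apply le_antisymm
  · intro f hf
    rw [D.mem_fil] at hf ⊢
    by_cases h0 : f = 0
    · rw [h0, D.deg_zero]
      exact Nat.zero_le _
    · have := h f h0
      omega
  · intro f hf
    rw [D.mem_fil] at hf ⊢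
    omega

theorem sm_fil_succ (N : ℕ) (g : R) (hg : g ≠ 0) (h : D.deg g = N + 1) :
    D.fil (N + 1) = D.fil N ⊔ Submodule.span k {g} := by
  apply le_antisymm
  · intro f hf
    rw [D.mem_fil] at hf
    by_cases hN : D.deg f ≤ N
    · exact Submodule.mem_sup_left ((D.mem_fil _ _).2 hN)
    · have h1 : D.deg f = N + 1 := by omega
      have h0 : f ≠ 0 := by
        rintro rfl
        rw [D.deg_zero] at h1
        omega
      obtain ⟨c, -, hc⟩ := D.lead f g h0 hg (by rw [h1, h])
      have h2 : f = (f - c • g) + c • g := by abel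
      rw [h2]
      refine Submodule.add_mem_sup ?_ (Submodule.smul_mem _ _ (Submodule.mem_span_singleton_self _))
      rcases hc with hc | hc
      · rw [hc, sub_self]
        exact Submodule.zero_mem _
      · rw [D.mem_fil]
        omega
  · refine sup_le ?_ ?_
    · intro f hf
      rw [D.mem_fil] at hf ⊢
      omega
    · rw [Submodule.span_singleton_le_iff_mem, D.mem_fil, h]

theorem fil_finite (N : ℕ) : Module.Finite k (D.fil N) := by
  rw [Module.Finite.iff_fg]
  induction N with
  | zero =>
    rw [sm_fil_zero]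
    exact Submodule.fg_span_singleton _
  | succ N ih =>
    by_cases h : N + 1 ∈ D.gaps
    · rw [sm_fil_succ_gap D N h]
      exact ih
    · simp only [OnePl.gaps, Set.mem_ofPred_eq, not_forall, not_not] at h
      obtain ⟨g, hg, h⟩ := h
      rw [sm_fil_succ D N g hg h]
      exact ih.sup (Submodule.fg_span_singleton _)

theorem sm_finrank_succ (N : ℕ) (h : N + 1 ∉ D.gaps) :
    finrank k (D.fil (N + 1)) = finrank k (D.fil N) + 1 := by
  simp only [OnePl.gaps, Set.mem_ofPred_eq, not_forall, not_not] at h
  obtain ⟨g, hg, h⟩ := h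
  have := fil_finite D N
  have h1 := Submodule.finrank_sup_add_finrank_inf_eq (D.fil N) (Submodule.span k {g})
  have h2 : D.fil N ⊓ Submodule.span k {g} = ⊥ := by
    rw [← disjoint_iff, Submodule.disjoint_span_singleton' hg, D.mem_fil, h]
    omega
  rw [h2, finrank_bot, finrank_span_singleton hg, add_zero, ← sm_fil_succ D N g hg h] at h1
  exact h1

theorem sm_finrank (N : ℕ) :
    finrank k (D.fil N) + (D.gaps ∩ Set.Iic N).ncard = N + 1 := by
  induction N with
  | zero =>
    have h1 : D.gaps ∩ Set.Iic 0 = ∅ := by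
      ext n
      simp only [Set.mem_inter_iff, Set.mem_Iic, Set.mem_empty_iff_false, iff_false, not_and]
      intro hn h0
      obtain rfl : n = 0 := Nat.le_zero.mp h0
      exact sm_zero_notMem_gaps D hn
    rw [h1, Set.ncard_empty, sm_fil_zero, finrank_span_singleton one_ne_zero]
  | succ N ih =>
    have hfin : (D.gaps ∩ Set.Iic N).Finite := (Set.finite_Iic N).subset Set.inter_subset_right
    by_cases h : N + 1 ∈ D.gaps
    · have h1 : D.gaps ∩ Set.Iic (N + 1) = insert (N + 1) (D.gaps ∩ Set.Iic N) := by
        ext n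
        simp only [Set.mem_inter_iff, Set.mem_Iic, Set.mem_insert_iff]
        constructor
        · rintro ⟨h2, h3⟩
          by_cases h4 : n = N + 1
          · exact Or.inl h4
          · exact Or.inr ⟨h2, by omega⟩
        · rintro (rfl | ⟨h2, h3⟩)
          · exact ⟨h, le_refl _⟩
          · exact ⟨h2, by omega⟩
      rw [h1, Set.ncard_insert_of_notMem (fun h2 => by
        have h3 : N + 1 ≤ N := h2.2
        omega) hfin, sm_fil_succ_gap D N h]
      omega
    · have h1 : D.gaps ∩ Set.Iic (N + 1) = D.gaps ∩ Set.Iic N := by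
        ext n
        simp only [Set.mem_inter_iff, Set.mem_Iic]
        constructor
        · rintro ⟨h2, h3⟩
          refine ⟨h2, ?_⟩
          by_contra h4
          obtain rfl : n = N + 1 := by omega
          exact h h2
        · rintro ⟨h2, h3⟩
          exact ⟨h2, by omega⟩
      rw [h1, sm_finrank_succ D N h]
      omega

theorem finrank_fil (hg : D.gaps.Finite) (N : ℕ) (hN : ∀ n ∈ D.gaps, n ≤ N) :
    Module.finrank k (D.fil N) + D.gaps.ncard = N + 1 := by
  have h := sm_finrank D N
  have h1 : D.gaps ∩ Set.Iic N = D.gaps :=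
    Set.inter_eq_left.mpr (fun n hn => Set.mem_Iic.mpr (hN n hn))
  rwa [h1] at h

/-- for many `t ≤ N` both `t` and `s - t` are pole orders -/
theorem card_sym (hg : D.gaps.Finite) (s N : ℕ) (hs : N < s) :
    ∃ T : Finset ℕ, N + 1 ≤ T.card + 2 * D.gaps.ncard ∧ ∀ t ∈ T, t ≤ N ∧ t ∉ D.gaps ∧
      s - t ∉ D.gaps := by
  classical
  refine ⟨(Finset.range (N + 1)).filter (fun t => t ∉ D.gaps ∧ s - t ∉ D.gaps), ?_, ?_⟩
  · set G : Finset ℕ := hg.toFinset with hG
    have hGc : G.card = D.gaps.ncard := by
      rw [hG, Set.ncard_eq_toFinset_card _ hg]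
    have h1 : Finset.range (N + 1) ⊆
        (Finset.range (N + 1)).filter (fun t => t ∉ D.gaps ∧ s - t ∉ D.gaps) ∪
          (G ∪ G.image (fun n => s - n)) := by
      intro t ht
      have ht' := Finset.mem_range.mp ht
      simp only [Finset.mem_union, Finset.mem_filter, Finset.mem_image, hG,
        Set.Finite.mem_toFinset]
      by_cases h1 : t ∈ D.gaps
      · exact Or.inr (Or.inl h1)
      · by_cases h2 : s - t ∈ D.gaps
        · exact Or.inr (Or.inr ⟨s - t, h2, by omega⟩)
        · exact Or.inl ⟨ht, h1, h2⟩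
    have h2 := Finset.card_le_card h1
    rw [Finset.card_range] at h2
    have h3 := Finset.card_union_le
      ((Finset.range (N + 1)).filter (fun t => t ∉ D.gaps ∧ s - t ∉ D.gaps))
      (G ∪ G.image (fun n => s - n))
    have h4 := Finset.card_union_le G (G.image (fun n => s - n))
    have h5 : (G.image (fun n => s - n)).card ≤ G.card := Finset.card_image_le
    omega
  · intro t ht
    rw [Finset.mem_filter, Finset.mem_range] at ht
    exact ⟨by omega, ht.2.1, ht.2.2⟩

end Pool.Agent.Harder
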