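import Pool.Agent.Harder.Stein
import Pool.Agent.Harder.Semi
import Pool.Agent.Harder.Form
import Pool.Agent.Harder.OverFinite

/-!
HB-09: coprime elements of a one place ring over the algebraic closure of a finite field.
-/

set_option autoImplicit false

namespace Pool.Agent.Harder

private theorem cop_deg_pow {k R : Type} [Field k] [CommRing R] [IsDomain R] [Algebra k R]
    (D : OnePl k R) (x : R) (hx : x ≠ 0) (n : ℕ) : D.deg (x ^ n) = n * D.deg x := by
  induction n with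
  | zero =>
    rw [pow_zero, zero_mul]
    have h := D.deg_C 1
    rwa [map_one] at h
  | succ n ih =>
    rw [pow_succ, D.deg_mul _ _ (pow_ne_zero n hx) hx, ih]
    ring

/-- nonzero elements of an algebraic extension of a finite field have finite order -/
private theorem cop_finite_order (p : ℕ) [Fact p.Prime] {k : Type} [Field k]
    [Algebra (ZMod p) k] [Algebra.IsAlgebraic (ZMod p) k] (c : k) (hc : c ≠ 0) :
    ∃ n : ℕ, 0 < n ∧ c ^ n = 1 := by
  have hint : IsIntegral (ZMod p) c := (Algebra.IsAlgebraic.isAlgebraic c).isIntegral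
  have hfin : Module.Finite (ZMod p) (IntermediateField.adjoin (ZMod p) {c}) :=
    IntermediateField.adjoin.finiteDimensional hint
  have hfin' : Finite (IntermediateField.adjoin (ZMod p) {c}) :=
    Module.finite_of_finite (ZMod p)
  let c' : IntermediateField.adjoin (ZMod p) {c} :=
    ⟨c, IntermediateField.mem_adjoin_simple_self (ZMod p) c⟩
  have hc' : c' ≠ 0 := fun h => hc (congrArg Subtype.val h)
  let u : (IntermediateField.adjoin (ZMod p) {c})ˣ := Units.mk0 c' hc'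
  have hu : IsOfFinOrder u := isOfFinOrder_of_finite u
  obtain ⟨n, hn, h⟩ := isOfFinOrder_iff_pow_eq_one.1 hu
  refine ⟨n, hn, ?_⟩
  have h2 := congrArg (fun v : (IntermediateField.adjoin (ZMod p) {c})ˣ =>
    ((v : IntermediateField.adjoin (ZMod p) {c}) : k)) h
  simpa [u, c'] using h2

private theorem cop_const (p : ℕ) [Fact p.Prime] {k R : Type} [Field k]
    [Algebra (ZMod p) k] [Algebra.IsAlgebraic (ZMod p) k] [CommRing R] [IsDomain R]
    [Algebra k R] (D : OnePl k R) (φ : R → R → ℝ) (hφ : StR φ) (x y : R)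
    (hx : x ≠ 0) (hy : y ≠ 0) (h0 : D.deg x = 0) : φ x y = 0 := by
  obtain ⟨c, rfl⟩ := eq_algebraMap_of_deg D x h0
  have hc : c ≠ 0 := by
    rintro rfl
    exact hx (map_zero _)
  obtain ⟨n, hn, h⟩ := cop_finite_order p c hc
  exact hφ.torsion _ y n hn (by rw [← map_pow, h, map_one]) hy

theorem coprime_closed (p : ℕ) [Fact p.Prime] {k R : Type} [Field k] [IsAlgClosed k]
    [Algebra (ZMod p) k] [Algebra.IsAlgebraic (ZMod p) k] [CommRing R] [IsDomain R]
    [Algebra k R] (D : OnePl k R) (hg : D.gaps.Finite) (φ : R → R → ℝ) (hφ : StR φ) (x y : R)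
    (hx : x ≠ 0) (hy : y ≠ 0) (hxy : IsCoprime x y) : φ x y = 0 := by
  classical
  by_cases hdx : D.deg x = 0
  · exact cop_const p D φ hφ x y hx hy hdx
  by_cases hdy : D.deg y = 0
  · rw [hφ.anti x y hx hy, cop_const p D φ hφ y x hy hx hdy, neg_zero]
  have hdx' : 1 ≤ D.deg x := Nat.one_le_iff_ne_zero.2 hdx
  have hdy' : 1 ≤ D.deg y := Nat.one_le_iff_ne_zero.2 hdy
  obtain ⟨B, hB⟩ := hg.bddAbove
  set m : ℕ := B + 5 * D.gaps.ncard + 1 with hm
  set N : ℕ := m * (D.deg x * D.deg y) with hN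
  have hmN : m ≤ N := Nat.le_mul_of_pos_right m (Nat.mul_pos hdx' hdy')
  have hx' : x ^ (m * D.deg y) ≠ 0 := pow_ne_zero _ hx
  have hy' : y ^ (m * D.deg x) ≠ 0 := pow_ne_zero _ hy
  obtain ⟨a, b, hab⟩ : IsCoprime (x ^ (m * D.deg y)) (y ^ (m * D.deg x)) := hxy.pow
  obtain ⟨K, hK, R₀, D₀, hq, hT, hdeg, hgap⟩ := exists_form p D hg
    {x ^ (m * D.deg y), y ^ (m * D.deg x), a, b} (10000 * (N + 2) ^ 2)
  have hmem1 : x ^ (m * D.deg y) ∈ R₀ := hT _ (by simp)
  have hmem2 : y ^ (m * D.deg x) ∈ R₀ := hT _ (by simp)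
  have hmem3 : a ∈ R₀ := hT _ (by simp)
  have hmem4 : b ∈ R₀ := hT _ (by simp)
  have hφ₀ : StR (fun u v : R₀ => φ (u : R) (v : R)) :=
    StR.comap (R₀.val : R₀ →+* R) Subtype.val_injective hφ
  have h1 := coprime_finite D₀ (by rw [hgap]; exact hg) N (by omega)
    (by
      intro n hn
      rw [hgap] at hn
      have := hB hn
      omega) (by rw [hgap]; omega) hq _ hφ₀ ⟨_, hmem1⟩ ⟨_, hmem2⟩
    (by
      rw [hdeg]
      show D.deg (x ^ (m * D.deg y)) = N
      rw [cop_deg_pow D x hx, hN]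
      ring)
    (by
      rw [hdeg]
      show D.deg (y ^ (m * D.deg x)) = N
      rw [cop_deg_pow D y hy, hN]
      ring)
    ⟨⟨a, hmem3⟩, ⟨b, hmem4⟩, Subtype.ext hab⟩
  have h2 : φ (x ^ (m * D.deg y)) (y ^ (m * D.deg x)) = 0 := h1
  rw [hφ.pow_left x _ hx hy', hφ.anti x _ hx hy', hφ.pow_left y x hy hx, hφ.anti y x hy hx] at h2
  have h3 : ((m * D.deg y : ℕ) : ℝ) ≠ 0 := by
    exact_mod_cast (Nat.mul_pos (by omega : 0 < m) hdy').ne'
  have h4 : ((m * D.deg x : ℕ) : ℝ) ≠ 0 := by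
    exact_mod_cast (Nat.mul_pos (by omega : 0 < m) hdx').ne'
  rcases mul_eq_zero.1 h2 with h5 | h5
  · exact absurd h5 h3
  · rw [mul_neg, neg_neg] at h5
    exact (mul_eq_zero.1 h5).resolve_left h4

end Pool.Agent.Harder
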