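import Pool.Agent.Harder.Defs2
import Pool.Agent.Harder.Semi

/-!
Harder's theorem, block HB-05: counting syzygies (everything but the use of the genus bound).
-/

set_option autoImplicit false
set_option linter.unusedSectionVars false

namespace Pool.Agent.Harder

/-! ### linear algebra -/

section Lin

variable {K V W : Type} [Field K] [AddCommGroup V] [Module K V] [Module.Finite K V]
  [AddCommGroup W] [Module K W] [Module.Finite K W] (m : V →ₗ[K] V →ₗ[K] W)

/-- the map `(a, b, c) ↦ x a + y b + z c` -/
noncomputable def ctMap (x y z : V) : V × V × V →ₗ[K] W :=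
  (m x).coprod ((m y).coprod (m z))

theorem ct_syz [Finite K] (x y z : V) :
    syz (fun a b => m a b) x y z = Nat.card K ^ Module.finrank K (LinearMap.ker (ctMap m x y z)) := by
  rw [← Module.natCard_eq_pow_finrank]
  unfold syz
  refine Nat.card_congr (Equiv.subtypeEquivRight fun p => ?_)
  rw [LinearMap.mem_ker]
  simp [ctMap, add_assoc]

theorem ct_range (x y z : V) : LinearMap.range (ctMap m x y z) =
    LinearMap.range (m x) ⊔ (LinearMap.range (m y) ⊔ LinearMap.range (m z)) := by
  rw [ctMap, LinearMap.range_coprod, LinearMap.range_coprod]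

theorem ct_rank (x y z : V) : Module.finrank K (LinearMap.range (ctMap m x y z)) +
    Module.finrank K (LinearMap.ker (ctMap m x y z)) = 3 * Module.finrank K V := by
  rw [LinearMap.finrank_range_add_finrank_ker, Module.finrank_prod, Module.finrank_prod]
  ring

theorem ct_ge [Finite K] (x y z : V) :
    Nat.card K ^ (3 * Module.finrank K V - Module.finrank K W) ≤
      syz (fun a b => m a b) x y z := by
  rw [ct_syz]
  refine Nat.pow_le_pow_right Nat.card_pos ?_
  have h1 := ct_rank m x y z
  have h2 := Submodule.finrank_le (LinearMap.range (ctMap m x y z))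
  omega

theorem ct_eq [Finite K] (x y z : V)
    (h : LinearMap.range (m x) ⊔ (LinearMap.range (m y) ⊔ LinearMap.range (m z)) = ⊤) :
    syz (fun a b => m a b) x y z =
      Nat.card K ^ (3 * Module.finrank K V - Module.finrank K W) := by
  rw [ct_syz]
  have h1 := ct_rank m x y z
  rw [ct_range, h, finrank_top] at h1
  congr 1
  omega

theorem ct_bad [Finite K] (x y z : V)
    (hI : 2 * Module.finrank K V ≤
      Module.finrank K (LinearMap.range (m x) ⊔ LinearMap.range (m y) : Submodule K W) + 1) :
    syz (fun a b => m a b) x y z ≤ Nat.card K ^ (Module.finrank K V + 1) := by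
  rw [ct_syz]
  refine Nat.pow_le_pow_right Nat.card_pos ?_
  have h1 := ct_rank m x y z
  have h2 : Module.finrank K (LinearMap.range (m x) ⊔ LinearMap.range (m y) : Submodule K W) ≤
      Module.finrank K (LinearMap.range (ctMap m x y z)) := by
    refine Submodule.finrank_mono ?_
    rw [ct_range]
    exact sup_le_sup_left le_sup_left _
  omega

/-- the number of `z` for which the three spaces do not span -/
theorem ct_card_bad [Finite K] [Fintype V] (x y : V) (g : ℕ)
    (hI : Module.finrank K W ≤
      Module.finrank K (LinearMap.range (m x) ⊔ LinearMap.range (m y) : Submodule K W) + g)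
    (hk : ∀ η : W →ₗ[K] K, η ≠ 0 → (∀ v, η (m x v) = 0) → (∀ v, η (m y v) = 0) →
      ∀ E : Submodule K V, (∀ z ∈ E, ∀ v, η (m z v) = 0) → Module.finrank K E ≤ 2 * g) :
    {z : V | LinearMap.range (m x) ⊔ (LinearMap.range (m y) ⊔ LinearMap.range (m z)) ≠ ⊤}.ncard ≤
      Nat.card K ^ (3 * g) := by
  classical
  have hfin : Finite (Module.Dual K W) := Module.finite_of_finite K
  let _ : Fintype (Module.Dual K W) := Fintype.ofFinite _
  let A : Finset (Module.Dual K W) := Finset.univ.filter fun η =>
    η ∈ (LinearMap.range (m x) ⊔ LinearMap.range (m y)).dualAnnihilator ∧ η ≠ 0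
  let E : Module.Dual K W → Finset V := fun η => Finset.univ.filter fun z => ∀ v, η (m z v) = 0
  have hA : A.card ≤ Nat.card K ^ g := by
    have h1 : A.card ≤ Nat.card (LinearMap.range (m x) ⊔ LinearMap.range (m y)).dualAnnihilator := by
      have h0 : (A : Set (Module.Dual K W)) ⊆
          ((LinearMap.range (m x) ⊔ LinearMap.range (m y)).dualAnnihilator :
            Set (Module.Dual K W)) :=
        fun η hη => (Finset.mem_filter.1 (Finset.mem_coe.1 hη)).2.1
      have h := Set.ncard_le_ncard h0 (Set.toFinite _)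
      rwa [Set.ncard_coe_finset] at h
    refine h1.trans ?_
    rw [Module.natCard_eq_pow_finrank (K := K)]
    refine Nat.pow_le_pow_right Nat.card_pos ?_
    have h2 := Subspace.finrank_add_finrank_dualAnnihilator_eq
      (LinearMap.range (m x) ⊔ LinearMap.range (m y))
    omega
  have hE : ∀ η ∈ A, (E η).card ≤ Nat.card K ^ (2 * g) := by
    intro η hη
    obtain ⟨h1, h2⟩ := (Finset.mem_filter.1 hη).2
    rw [Submodule.mem_dualAnnihilator] at h1
    let Es : Submodule K V :=
      { carrier := {z | ∀ v, η (m z v) = 0}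
        add_mem' := fun {a b} ha hb v => by rw [map_add, LinearMap.add_apply, map_add, ha, hb, add_zero]
        zero_mem' := fun v => by rw [map_zero, LinearMap.zero_apply, map_zero]
        smul_mem' := fun c a ha v => by
          rw [map_smul, LinearMap.smul_apply, map_smul, ha, smul_zero] }
    have h3 : (E η).card = Nat.card Es := by
      rw [← Set.ncard_coe_finset]
      have : ((E η : Finset V) : Set V) = (Es : Set V) := by
        ext z
        simp only [E, Finset.coe_filter, Finset.mem_univ, true_and]
        rfl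
      rw [this]
      rfl
    rw [h3, Module.natCard_eq_pow_finrank (K := K)]
    refine Nat.pow_le_pow_right Nat.card_pos (hk η h2 ?_ ?_ Es fun z hz => hz)
    · exact fun v => h1 _ (Submodule.mem_sup_left ⟨v, rfl⟩)
    · exact fun v => h1 _ (Submodule.mem_sup_right ⟨v, rfl⟩)
  have hsub : {z : V | LinearMap.range (m x) ⊔ (LinearMap.range (m y) ⊔ LinearMap.range (m z)) ≠ ⊤} ⊆
      ((A.biUnion E : Finset V) : Set V) := by
    intro z hz
    obtain ⟨f, hf0, hf⟩ := Submodule.exists_le_ker_of_lt_top _ (lt_top_iff_ne_top.2 hz)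
    rw [Finset.mem_coe, Finset.mem_biUnion]
    refine ⟨f, Finset.mem_filter.2 ⟨Finset.mem_univ _, ?_, hf0⟩,
      Finset.mem_filter.2 ⟨Finset.mem_univ _, fun v => ?_⟩⟩
    · rw [Submodule.mem_dualAnnihilator]
      intro w hw
      exact hf (Submodule.mem_sup.2 (by
        obtain ⟨a, ha, b, hb, rfl⟩ := Submodule.mem_sup.1 hw
        exact ⟨a, ha, b, Submodule.mem_sup_left hb, rfl⟩))
    · exact hf (Submodule.mem_sup_right (Submodule.mem_sup_right ⟨v, rfl⟩))
  calc _ ≤ ((A.biUnion E : Finset V) : Set V).ncard := Set.ncard_le_ncard hsub (Finset.finite_toSet _)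
    _ = (A.biUnion E).card := Set.ncard_coe_finset _
    _ ≤ A.card * Nat.card K ^ (2 * g) := Finset.card_biUnion_le_card_mul _ _ _ hE
    _ ≤ Nat.card K ^ g * Nat.card K ^ (2 * g) := Nat.mul_le_mul_right _ hA
    _ = Nat.card K ^ (3 * g) := by rw [← pow_add]; congr 1; ring

/-- the sum over `z` -/
theorem ct_sum [Finite K] [Fintype V] (x y : V) (g : ℕ)
    (hI : 2 * Module.finrank K V ≤
      Module.finrank K (LinearMap.range (m x) ⊔ LinearMap.range (m y) : Submodule K W) + 1)
    (hW : Module.finrank K W + 1 = 2 * Module.finrank K V + g)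
    (hg : 5 * g + 1 ≤ Module.finrank K V + g)
    (hk : ∀ η : W →ₗ[K] K, η ≠ 0 → (∀ v, η (m x v) = 0) → (∀ v, η (m y v) = 0) →
      ∀ E : Submodule K V, (∀ z ∈ E, ∀ v, η (m z v) = 0) → Module.finrank K E ≤ 2 * g) :
    Nat.card K * ∑ z, syz (fun a b => m a b) x y z ≤
      (Nat.card K + 1) * Nat.card K ^ (3 * Module.finrank K V - Module.finrank K W) *
        Nat.card V := by
  classical
  have hb := ct_card_bad m x y g (by omega) hk
  let Bd : Finset V := Finset.univ.filter fun z =>
    LinearMap.range (m x) ⊔ (LinearMap.range (m y) ⊔ LinearMap.range (m z)) ≠ ⊤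
  have hBd : Bd.card ≤ Nat.card K ^ (3 * g) := by
    rw [← Set.ncard_coe_finset]
    simpa [Bd] using hb
  have h1 : ∑ z, syz (fun a b => m a b) x y z ≤
      ∑ z, (Nat.card K ^ (3 * Module.finrank K V - Module.finrank K W) +
        if z ∈ Bd then Nat.card K ^ (Module.finrank K V + 1) else 0) := by
    refine Finset.sum_le_sum fun z _ => ?_
    by_cases hz : z ∈ Bd
    · rw [if_pos hz]
      exact (ct_bad m x y z hI).trans (Nat.le_add_left _ _)
    · rw [if_neg hz, add_zero]
      refine (ct_eq m x y z ?_).le
      by_contra hcon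
      exact hz (Finset.mem_filter.2 ⟨Finset.mem_univ _, hcon⟩)
  have h2 : ∑ z, (Nat.card K ^ (3 * Module.finrank K V - Module.finrank K W) +
        if z ∈ Bd then Nat.card K ^ (Module.finrank K V + 1) else 0) =
      Nat.card V * Nat.card K ^ (3 * Module.finrank K V - Module.finrank K W) +
        Bd.card * Nat.card K ^ (Module.finrank K V + 1) := by
    rw [Finset.sum_add_distrib, Finset.sum_const, Finset.card_univ, smul_eq_mul,
      Nat.card_eq_fintype_card (α := V), ← Finset.sum_filter, Finset.filter_mem_eq_inter,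
      Finset.univ_inter, Finset.sum_const, smul_eq_mul]
  have h3 : Nat.card K * (Bd.card * Nat.card K ^ (Module.finrank K V + 1)) ≤
      Nat.card K ^ (3 * Module.finrank K V - Module.finrank K W) * Nat.card V := by
    rw [Module.natCard_eq_pow_finrank (K := K) (V := V)]
    calc Nat.card K * (Bd.card * Nat.card K ^ (Module.finrank K V + 1)) ≤
        Nat.card K * (Nat.card K ^ (3 * g) * Nat.card K ^ (Module.finrank K V + 1)) :=
          Nat.mul_le_mul_left _ (Nat.mul_le_mul_right _ hBd)
      _ = Nat.card K ^ (3 * g + (Module.finrank K V + 1) + 1) := by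
          rw [← pow_add, mul_comm, ← pow_succ]
      _ ≤ Nat.card K ^ ((3 * Module.finrank K V - Module.finrank K W) + Module.finrank K V) :=
          Nat.pow_le_pow_right Nat.card_pos (by omega)
      _ = _ := by rw [pow_add]
  calc Nat.card K * ∑ z, syz (fun a b => m a b) x y z ≤ Nat.card K * (Nat.card V *
        Nat.card K ^ (3 * Module.finrank K V - Module.finrank K W) +
        Bd.card * Nat.card K ^ (Module.finrank K V + 1)) := Nat.mul_le_mul_left _ (h1.trans h2.le)
    _ = Nat.card K * Nat.card K ^ (3 * Module.finrank K V - Module.finrank K W) * Nat.card V +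
        Nat.card K * (Bd.card * Nat.card K ^ (Module.finrank K V + 1)) := by ring
    _ ≤ Nat.card K * Nat.card K ^ (3 * Module.finrank K V - Module.finrank K W) * Nat.card V +
        Nat.card K ^ (3 * Module.finrank K V - Module.finrank K W) * Nat.card V :=
          Nat.add_le_add_left h3 _
    _ = _ := by ring

theorem ct_of_span (x y : V) (v : V × V)
    (h : ∀ p : V × V, m x p.1 + m y p.2 = 0 → ∃ c : K, p = c • v) :
    2 * Module.finrank K V ≤
      Module.finrank K (LinearMap.range (m x) ⊔ LinearMap.range (m y) : Submodule K W) + 1 := by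
  have h1 := LinearMap.finrank_range_add_finrank_ker ((m x).coprod (m y))
  rw [LinearMap.range_coprod, Module.finrank_prod] at h1
  have h2 : LinearMap.ker ((m x).coprod (m y)) ≤ Submodule.span K {v} := by
    intro p hp
    rw [LinearMap.mem_ker, LinearMap.coprod_apply] at hp
    obtain ⟨c, hc⟩ := h p hp
    exact Submodule.mem_span_singleton.2 ⟨c, hc.symm⟩
  have h3 : Module.finrank K (Submodule.span K {v}) ≤ 1 := by
    have h4 := finrank_span_finset_le_card (R := K) ({v} : Finset (V × V))
    rwa [Finset.coe_singleton, Finset.card_singleton] at h4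
  have h5 := Submodule.finrank_mono h2
  omega

end Lin

/-! ### the two statements -/

section Count
variable {K R : Type} [Field K] [Finite K] [CommRing R] [IsDomain R] [Algebra K R]
  (D : OnePl K R)

theorem syz_ge (N : ℕ) (x y z : D.fil N) :
    Nat.card K ^ (3 * Module.finrank K (D.fil N) - Module.finrank K (D.fil (2 * N))) ≤
      syz (fun a b => D.mulFil N a b) x y z := by
  have h1 : Module.Finite K (D.fil N) := fil_finite D N
  have h2 : Module.Finite K (D.fil (2 * N)) := fil_finite D (2 * N)
  exact ct_ge (D.mulFil N) x y z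

theorem ct_ker_left (N : ℕ) (x y : D.fil N) (hx : D.deg x = N) (hxy : IsCoprime (x : R) y)
    (hN : N = 0 → Module.finrank K (D.fil N) ≤ 1) :
    2 * Module.finrank K (D.fil N) ≤ Module.finrank K (LinearMap.range (D.mulFil N x) ⊔
      LinearMap.range (D.mulFil N y) : Submodule K (D.fil (2 * N))) + 1 := by
  have h1 : Module.Finite K (D.fil N) := fil_finite D N
  have h2 : Module.Finite K (D.fil (2 * N)) := fil_finite D (2 * N)
  by_cases hx0 : (x : R) = 0
  · have hN0 : N = 0 := by rw [← hx, hx0, D.deg_zero]
    obtain ⟨v, hv⟩ := finrank_le_one_iff.1 (hN hN0)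
    refine ct_of_span (D.mulFil N) x y (v, 0) fun p hp => ?_
    obtain ⟨c, hc⟩ := hv p.1
    have hp' : (x : R) * p.1 + y * p.2 = 0 := congrArg (fun t : D.fil (2 * N) => (t : R)) hp
    rw [hx0, zero_mul, zero_add] at hp'
    have hy0 : (y : R) ≠ 0 := by
      intro hy0
      rw [hx0, hy0] at hxy
      exact not_isCoprime_zero_zero hxy
    have h3 : (p.2 : R) = 0 := (mul_eq_zero.1 hp').resolve_left hy0
    refine ⟨c, Prod.ext hc.symm (Subtype.ext ?_)⟩
    rw [h3]
    simp
  · refine ct_of_span (D.mulFil N) x y (-y, x) fun p hp => ?_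
    have hp' : (x : R) * p.1 + y * p.2 = 0 := congrArg (fun t : D.fil (2 * N) => (t : R)) hp
    have h3 : (x : R) ∣ y * p.2 := ⟨- p.1, by linear_combination hp'⟩
    obtain ⟨c, hc⟩ := hxy.dvd_of_dvd_mul_left h3
    have hc0 : D.deg c = 0 := by
      by_cases hc0 : c = 0
      · rw [hc0, D.deg_zero]
      · have h4 := D.deg_mul _ _ hx0 hc0
        have h5 : D.deg (p.2 : R) ≤ N := p.2.2
        rw [hc, h4, hx] at h5
        omega
    obtain ⟨e, rfl⟩ := eq_algebraMap_of_deg D c hc0
    refine ⟨e, Prod.ext (Subtype.ext ?_) (Subtype.ext ?_)⟩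
    · show (p.1 : R) = e • (-(y : R))
      rw [Algebra.smul_def]
      refine mul_left_cancel₀ hx0 ?_
      rw [hc] at hp'
      linear_combination hp'
    · show (p.2 : R) = e • (x : R)
      rw [Algebra.smul_def, hc, mul_comm]

/-- the relations between two functions without common zero -/
theorem ct_ker (N : ℕ) (x y : D.fil N) (hxy : D.Good N x y)
    (hN : N = 0 → Module.finrank K (D.fil N) ≤ 1) :
    2 * Module.finrank K (D.fil N) ≤ Module.finrank K (LinearMap.range (D.mulFil N x) ⊔
      LinearMap.range (D.mulFil N y) : Submodule K (D.fil (2 * N))) + 1 := by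
  obtain ⟨-, -, h | h, hc⟩ := hxy
  · exact ct_ker_left D N x y h hc hN
  · rw [sup_comm]
    exact ct_ker_left D N y x h hc.symm hN

theorem ct_sum_le (hg : D.gaps.Finite) (N : ℕ) (hN : ∀ n ∈ D.gaps, n < N)
    (hN5 : 5 * D.gaps.ncard ≤ N) [Fintype (D.fil N)] (x y : D.fil N) (hxy : D.Good N x y)
    (hk : ∀ η : D.fil (2 * N) →ₗ[K] K, η ≠ 0 → (∀ v, η (D.mulFil N x v) = 0) →
      (∀ v, η (D.mulFil N y v) = 0) → ∀ E : Submodule K (D.fil N),
      (∀ z ∈ E, ∀ v, η (D.mulFil N z v) = 0) → Module.finrank K E ≤ 2 * D.gaps.ncard) :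
    Nat.card K * ∑ z, syz (fun a b => D.mulFil N a b) x y z ≤
      (Nat.card K + 1) *
        Nat.card K ^ (3 * Module.finrank K (D.fil N) - Module.finrank K (D.fil (2 * N))) *
        Nat.card (D.fil N) := by
  have h1 : Module.Finite K (D.fil N) := fil_finite D N
  have h2 : Module.Finite K (D.fil (2 * N)) := fil_finite D (2 * N)
  have h3 := finrank_fil D hg N fun n hn => (hN n hn).le
  have h4 := finrank_fil D hg (2 * N) fun n hn => by have := hN n hn; omega
  exact ct_sum (D.mulFil N) x y D.gaps.ncard (ct_ker D N x y hxy (by omega)) (by omega) (by omega)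
    hk

end Count

end Pool.Agent.Harder
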