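import Pool.Agent.Harder.Defs

set_option autoImplicit false

/-!
HB-10: over a Dedekind domain a Steinberg functional which vanishes on coprime pairs is zero.

For nonzero ideals `A`, `B` put `F A B = φ a b` with `(a) = A C`, `(b) = B D`, `C` prime to `B D`
and `D` prime to `A C`. Then `F` is bilinear and alternating, and vanishes on coprime pairs of
ideals; so it is zero by unique factorization.
-/

namespace Pool.Agent.Harder

namespace DedAux

variable {R : Type} [CommRing R] [IsDedekindDomain R]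

lemma moving (A B : Ideal R) (hA : A ≠ 0) (hB : B ≠ 0) :
    ∃ (a : R) (C : Ideal R), a ≠ 0 ∧ Ideal.span {a} = A * C ∧ IsCoprime C B := by
  have hAB : A * B ≠ 0 := mul_ne_zero hA hB
  obtain ⟨a, ha⟩ := IsDedekindDomain.exists_sup_span_eq (Ideal.mul_le_left : A * B ≤ A) hAB
  have haA : Ideal.span {a} ≤ A := by rw [← ha]; exact le_sup_right
  obtain ⟨C, hC⟩ := Ideal.dvd_iff_le.2 haA
  have h1 : A * (B ⊔ C) = A * ⊤ := by
    rw [Ideal.mul_sup, ← hC, ha, Ideal.mul_top]
  have h2 : B ⊔ C = ⊤ := mul_left_cancel₀ hA h1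
  by_cases ha0 : a = 0
  · have hC0 : C = 0 := by
      rw [ha0, Ideal.span_singleton_eq_bot.2 rfl] at hC
      exact (mul_eq_zero.1 hC.symm).resolve_left hA
    have hB1 : B = ⊤ := by
      rw [hC0] at h2
      simpa using h2
    obtain ⟨a', ha', ha'0⟩ := Submodule.exists_mem_ne_zero_of_ne_bot hA
    obtain ⟨C', hC'⟩ := Ideal.dvd_iff_le.2 ((Ideal.span_singleton_le_iff_mem A).2 ha')
    refine ⟨a', C', ha'0, hC', ?_⟩
    rw [hB1, Ideal.isCoprime_iff_sup_eq, sup_top_eq]
  · refine ⟨a, C, ha0, hC, ?_⟩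
    rw [Ideal.isCoprime_iff_sup_eq, sup_comm]
    exact h2

lemma mul_right' {φ : R → R → ℝ} (hφ : StR φ) (x b c : R) (hx : x ≠ 0) (hb : b ≠ 0)
    (hc : c ≠ 0) : φ x (b * c) = φ x b + φ x c := by
  rw [hφ.anti x _ hx (mul_ne_zero hb hc), hφ.mul_left b c x hb hc hx, hφ.anti b x hb hx,
    hφ.anti c x hc hx]
  ring

omit [IsDedekindDomain R] in
lemma span_ne {a : R} (ha : a ≠ 0) : Ideal.span {a} ≠ 0 := by
  intro h
  exact ha (Ideal.span_singleton_eq_bot.1 h)

/-- `φ x a` depends only on the part `A` of the ideal `(a)` which is not prime to `x`. -/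
lemma indep {φ : R → R → ℝ} (hφ : StR φ)
    (hcop : ∀ x y : R, x ≠ 0 → y ≠ 0 → IsCoprime x y → φ x y = 0) (x a a' : R) (hx : x ≠ 0)
    (ha : a ≠ 0) (ha' : a' ≠ 0) (A C C' : Ideal R) (h : Ideal.span {a} = A * C)
    (h' : Ideal.span {a'} = A * C') (hC : IsCoprime C (Ideal.span {x}))
    (hC' : IsCoprime C' (Ideal.span {x})) : φ x a = φ x a' := by
  have hC'0 : C' ≠ 0 := by
    rintro rfl
    rw [mul_zero] at h'
    exact span_ne ha' h'
  obtain ⟨u, D, hu, hD, hDx⟩ := moving C' (Ideal.span {x}) hC'0 (span_ne hx)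
  have hux : IsCoprime u x := by
    rw [← Ideal.isCoprime_span_singleton_iff, hD]
    exact hC'.mul_left hDx
  have h1 : Ideal.span {a * u} = Ideal.span {a'} * (C * D) := by
    rw [← Ideal.span_singleton_mul_span_singleton, h, hD, h']
    ring
  have h2 : a' ∣ a * u := by
    apply Ideal.span_singleton_le_span_singleton.1
    rw [h1]
    exact Ideal.mul_le_left
  obtain ⟨v, hv⟩ := h2
  have hau : a * u ≠ 0 := mul_ne_zero ha hu
  have hv0 : v ≠ 0 := by
    rintro rfl
    rw [mul_zero] at hv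
    exact hau hv
  have h3 : Ideal.span {v} = C * D := by
    rw [hv, ← Ideal.span_singleton_mul_span_singleton] at h1
    exact mul_left_cancel₀ (span_ne ha') h1
  have hvx : IsCoprime v x := by
    rw [← Ideal.isCoprime_span_singleton_iff, h3]
    exact hC.mul_left hDx
  have e1 := mul_right' hφ x a u hx ha hu
  have e2 := mul_right' hφ x a' v hx ha' hv0
  rw [hcop x u hx hu hux.symm, add_zero] at e1
  rw [hcop x v hx hv0 hvx.symm, add_zero] at e2
  rw [← e1, ← e2, hv]

/-- the bilinear form on ideals is zero -/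
def NN (φ : R → R → ℝ) (A B : Ideal R) : Prop :=
  ∀ (a b : R) (C D : Ideal R), a ≠ 0 → b ≠ 0 → Ideal.span {a} = A * C → Ideal.span {b} = B * D →
    IsCoprime C (Ideal.span {b}) → IsCoprime D (Ideal.span {a}) → φ a b = 0

omit [IsDedekindDomain R] in
lemma NN.symm {φ : R → R → ℝ} (hφ : StR φ) {A B : Ideal R} (h : NN φ A B) : NN φ B A := by
  intro a b C D ha hb h1 h2 h3 h4
  rw [hφ.anti a b ha hb, h b a D C hb ha h2 h1 h4 h3, neg_zero]

omit [IsDedekindDomain R] in
lemma NN.coprime {φ : R → R → ℝ}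
    (hcop : ∀ x y : R, x ≠ 0 → y ≠ 0 → IsCoprime x y → φ x y = 0) {A B : Ideal R}
    (h : IsCoprime A B) : NN φ A B := by
  intro a b C D ha hb h1 h2 h3 h4
  apply hcop a b ha hb
  rw [← Ideal.isCoprime_span_singleton_iff, h1]
  refine IsCoprime.mul_left ?_ h3
  rw [h2]
  refine h.mul_right ?_
  rw [h1] at h4
  exact (h4.of_mul_right_left).symm

lemma NN.self {φ : R → R → ℝ} (hφ : StR φ)
    (hcop : ∀ x y : R, x ≠ 0 → y ≠ 0 → IsCoprime x y → φ x y = 0) (A : Ideal R) :
    NN φ A A := by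
  intro a b C D ha hb h1 h2 h3 h4
  have hA0 : A ≠ 0 := by
    rintro rfl
    rw [zero_mul] at h1
    exact span_ne ha h1
  obtain ⟨c, E, hc, hE, hEab⟩ := moving A (Ideal.span {a} * Ideal.span {b}) hA0
    (mul_ne_zero (span_ne ha) (span_ne hb))
  have hEa : IsCoprime E (Ideal.span {a}) := hEab.of_mul_right_left
  have hEb : IsCoprime E (Ideal.span {b}) := hEab.of_mul_right_right
  -- `C` and `D` are prime to `A` and `E`
  have hCA : IsCoprime C A := by
    rw [h2] at h3
    exact h3.of_mul_right_left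
  have hDA : IsCoprime D A := by
    rw [h1] at h4
    exact h4.of_mul_right_left
  have hCE : IsCoprime C E := by
    rw [h1] at hEa
    exact (hEa.of_mul_right_right).symm
  have hDE : IsCoprime D E := by
    rw [h2] at hEb
    exact (hEb.of_mul_right_right).symm
  have hCc : IsCoprime C (Ideal.span {c}) := by
    rw [hE]
    exact hCA.mul_right hCE
  have hDc : IsCoprime D (Ideal.span {c}) := by
    rw [hE]
    exact hDA.mul_right hDE
  have e1 : φ a b = φ a c := indep hφ hcop a b c ha hb hc A D E h2 hE h4 hEa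
  have e2 : φ c a = φ c b := indep hφ hcop c a b hc ha hb A C D h1 h2 hCc hDc
  have e3 : φ b c = φ b a := indep hφ hcop b c a hb hc ha A E C hE h1 hEb h3
  have e4 := hφ.anti a c ha hc
  have e5 := hφ.anti c b hc hb
  have e6 := hφ.anti b a hb ha
  linarith

lemma NN.mul {φ : R → R → ℝ} (hφ : StR φ)
    (hcop : ∀ x y : R, x ≠ 0 → y ≠ 0 → IsCoprime x y → φ x y = 0) {A₁ A₂ B : Ideal R}
    (n₁ : NN φ A₁ B) (n₂ : NN φ A₂ B) : NN φ (A₁ * A₂) B := by
  intro a b C D ha hb h1 h2 h3 h4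
  have hA1 : A₁ ≠ 0 := by
    rintro rfl
    rw [zero_mul, zero_mul] at h1
    exact span_ne ha h1
  have hA2 : A₂ ≠ 0 := by
    rintro rfl
    rw [mul_zero, zero_mul] at h1
    exact span_ne ha h1
  obtain ⟨a₁, C₁, ha₁, hC₁, k₁⟩ := moving A₁ (Ideal.span {b}) hA1 (span_ne hb)
  obtain ⟨a₂, C₂, ha₂, hC₂, k₂⟩ := moving A₂ (Ideal.span {b}) hA2 (span_ne hb)
  have hDA : IsCoprime D (A₁ * A₂) := by
    rw [h1] at h4
    exact h4.of_mul_right_left
  have hD1 : IsCoprime D (Ideal.span {a₁}) := by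
    rw [hC₁]
    refine hDA.of_mul_right_left.mul_right ?_
    rw [h2] at k₁
    exact k₁.of_mul_right_right.symm
  have hD2 : IsCoprime D (Ideal.span {a₂}) := by
    rw [hC₂]
    refine hDA.of_mul_right_right.mul_right ?_
    rw [h2] at k₂
    exact k₂.of_mul_right_right.symm
  have z₁ := n₁ a₁ b C₁ D ha₁ hb hC₁ h2 k₁ hD1
  have z₂ := n₂ a₂ b C₂ D ha₂ hb hC₂ h2 k₂ hD2
  have e1 : φ b a = φ b (a₁ * a₂) := by
    refine indep hφ hcop b a (a₁ * a₂) hb ha (mul_ne_zero ha₁ ha₂) (A₁ * A₂) C (C₁ * C₂) h1 ?_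
      h3 (k₁.mul_left k₂)
    rw [← Ideal.span_singleton_mul_span_singleton, hC₁, hC₂]
    ring
  rw [hφ.anti a b ha hb, e1, mul_right' hφ b a₁ a₂ hb ha₁ ha₂, hφ.anti b a₁ hb ha₁,
    hφ.anti b a₂ hb ha₂, z₁, z₂]
  simp

lemma NN.all {φ : R → R → ℝ} (hφ : StR φ)
    (hcop : ∀ x y : R, x ≠ 0 → y ≠ 0 → IsCoprime x y → φ x y = 0) (A B : Ideal R) :
    NN φ A B := by
  have hone : ∀ B : Ideal R, NN φ 1 B := fun B => NN.coprime hcop isCoprime_one_left
  have hzero : ∀ B : Ideal R, NN φ 0 B := by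
    intro B a b C D ha hb h1 h2 h3 h4
    rw [zero_mul] at h1
    exact absurd h1 (span_ne ha)
  -- both ideals prime
  have hpp : ∀ P Q : Ideal R, Prime P → Prime Q → NN φ P Q := by
    intro P Q hP hQ
    by_cases hPQ : P = Q
    · subst hPQ
      exact NN.self hφ hcop P
    · apply NN.coprime hcop
      have hP' : P.IsMaximal := (Ideal.isPrime_of_prime hP).isMaximal hP.ne_zero
      have hQ' : Q.IsMaximal := (Ideal.isPrime_of_prime hQ).isMaximal hQ.ne_zero
      rw [Ideal.isCoprime_iff_sup_eq]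
      exact hP'.coprime_of_ne hQ' hPQ
  have hp : ∀ (P : Ideal R), Prime P → ∀ B : Ideal R, NN φ B P := by
    intro P hP B
    induction B using UniqueFactorizationMonoid.induction_on_prime with
    | h₁ => exact hzero P
    | h₂ I hI =>
      rw [Ideal.isUnit_iff] at hI
      rw [hI, ← Ideal.one_eq_top]
      exact hone P
    | h₃ I Q hI hQ ih => exact NN.mul hφ hcop (hpp Q P hQ hP) ih
  induction A using UniqueFactorizationMonoid.induction_on_prime with
  | h₁ => exact hzero B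
  | h₂ I hI =>
    rw [Ideal.isUnit_iff] at hI
    rw [hI, ← Ideal.one_eq_top]
    exact hone B
  | h₃ I Q hI hQ ih => exact NN.mul hφ hcop (NN.symm hφ (hp Q hQ B)) ih

end DedAux

/-- Over a Dedekind domain a Steinberg functional which vanishes on coprime pairs is zero. -/
theorem dedekind_moving {R : Type} [CommRing R] [IsDedekindDomain R] (φ : R → R → ℝ)
    (hφ : StR φ) (hcop : ∀ x y : R, x ≠ 0 → y ≠ 0 → IsCoprime x y → φ x y = 0) (x y : R)
    (hx : x ≠ 0) (hy : y ≠ 0) : φ x y = 0 := by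
  refine DedAux.NN.all hφ hcop (Ideal.span {x}) (Ideal.span {y}) x y 1 1 hx hy ?_ ?_
    isCoprime_one_left isCoprime_one_left
  · rw [mul_one]
  · rw [mul_one]

end Pool.Agent.Harder
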