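import Mathlib

/-!
Harder's theorem for function fields of curves over the algebraic closure of a finite field:
common definitions.

* `St2 F φ` : `φ` is a (rational or real valued) Steinberg functional on the field `F`, that is a
  linear functional on `K_2(F)` tensor `ℝ`;
* `StR R φ` : the same for a domain `R` (restriction to the nonzero elements of `R`);
* `OnePl k R` : `R` is a ring of functions with only one pole, `deg` is the pole order.
-/

set_option autoImplicit false

namespace Pool.Agent.Harder

/-- Steinberg functionals on a field (only the values at nonzero arguments matter). -/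
structure St2 {F : Type} [Field F] (φ : F → F → ℝ) : Prop where
  mul_left : ∀ a b c, a ≠ 0 → b ≠ 0 → c ≠ 0 → φ (a * b) c = φ a c + φ b c
  mul_right : ∀ a b c, a ≠ 0 → b ≠ 0 → c ≠ 0 → φ a (b * c) = φ a b + φ a c
  stein : ∀ a, a ≠ 0 → 1 - a ≠ 0 → φ a (1 - a) = 0

/-- The restriction of a Steinberg functional to a domain. -/
structure StR {R : Type} [CommRing R] (φ : R → R → ℝ) : Prop where
  mul_left : ∀ a b c, a ≠ 0 → b ≠ 0 → c ≠ 0 → φ (a * b) c = φ a c + φ b c
  anti : ∀ a b, a ≠ 0 → b ≠ 0 → φ a b = - φ b a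
  rel : ∀ a b c, a ≠ 0 → b ≠ 0 → c ≠ 0 → a + b + c = 0 → φ a b + φ b c + φ c a = 0

/-- A ring of functions on a curve with only one pole, `deg` is the order of the pole. -/
structure OnePl (k R : Type) [Field k] [CommRing R] [Algebra k R] where
  /-- the pole order -/
  deg : R → ℕ
  deg_zero : deg 0 = 0
  deg_mul : ∀ f g : R, f ≠ 0 → g ≠ 0 → deg (f * g) = deg f + deg g
  deg_add : ∀ f g : R, deg (f + g) ≤ max (deg f) (deg g)
  deg_C : ∀ c : k, deg (algebraMap k R c) = 0
  lead : ∀ f g : R, f ≠ 0 → g ≠ 0 → deg f = deg g →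
    ∃ c : k, c ≠ 0 ∧ (f = c • g ∨ deg (f - c • g) < deg f)

namespace OnePl

variable {k R : Type} [Field k] [CommRing R] [Algebra k R] (D : OnePl k R)

theorem deg_smul_le (c : k) (f : R) : D.deg (c • f) ≤ D.deg f := by
  by_cases hc : algebraMap k R c = 0
  · rw [Algebra.smul_def, hc, zero_mul, D.deg_zero]; exact Nat.zero_le _
  · by_cases hf : f = 0
    · rw [hf, smul_zero]
    · rw [Algebra.smul_def, D.deg_mul _ _ hc hf, D.deg_C, zero_add]

/-- The functions with pole order at most `N`. -/
def fil (N : ℕ) : Submodule k R where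
  carrier := {f | D.deg f ≤ N}
  add_mem' := fun {a b} ha hb => (D.deg_add a b).trans (max_le ha hb)
  zero_mem' := by
    show D.deg 0 ≤ N
    rw [D.deg_zero]; exact Nat.zero_le _
  smul_mem' := fun c f hf => (D.deg_smul_le c f).trans hf

theorem mem_fil (N : ℕ) (f : R) : f ∈ D.fil N ↔ D.deg f ≤ N := Iff.rfl

theorem deg_mul_le (f g : R) : D.deg (f * g) ≤ D.deg f + D.deg g := by
  by_cases hf : f = 0
  · rw [hf, zero_mul, D.deg_zero]; exact Nat.zero_le _
  · by_cases hg : g = 0
    · rw [hg, mul_zero, D.deg_zero]; exact Nat.zero_le _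
    · exact (D.deg_mul f g hf hg).le

/-- The multiplication of functions of pole order at most `N`. -/
def mulFil (N : ℕ) : D.fil N →ₗ[k] D.fil N →ₗ[k] D.fil (2 * N) :=
  LinearMap.mk₂ k (fun x y => ⟨(x : R) * y, by
      have hx := (D.mem_fil _ _).1 x.2
      have hy := (D.mem_fil _ _).1 y.2
      exact (D.deg_mul_le _ _).trans (by omega)⟩)
    (fun x y z => Subtype.ext (add_mul _ _ _))
    (fun c x y => Subtype.ext (smul_mul_assoc _ _ _))
    (fun x y z => Subtype.ext (mul_add _ _ _))
    (fun c x y => Subtype.ext (mul_smul_comm _ _ _))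

theorem mulFil_coe (N : ℕ) (x y : D.fil N) : ((D.mulFil N x y : D.fil (2 * N)) : R) = x * y := rfl

/-- The gaps: the numbers which are not pole orders. -/
def gaps : Set ℕ := {n | ∀ f : R, f ≠ 0 → D.deg f ≠ n}

/-- Two functions of pole order at most `N`, one of them of pole order `N`, without common zero:
a pencil without base points. -/
def Good (N : ℕ) (x y : R) : Prop :=
  D.deg x ≤ N ∧ D.deg y ≤ N ∧ (D.deg x = N ∨ D.deg y = N) ∧ IsCoprime x y

end OnePl

/-- The number of syzygies `x a + y b + z c = 0` with coefficients in `V`. -/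
noncomputable def syz {V V₂ : Type} [AddCommGroup V] [AddCommGroup V₂] (m : V → V → V₂)
    (x y z : V) : ℕ :=
  Nat.card {p : V × V × V // m x p.1 + m y p.2.1 + m z p.2.2 = 0}

end Pool.Agent.Harder
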