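import Pool.Agent.Harder.Defs

/-!
Harder's theorem: the order at a point, and the output of the curve theorem of the K1 project.
-/

set_option autoImplicit false

namespace Pool.Agent.Harder

/-- An order function of a function field with residue field `k`. -/
structure IsOrd (k : Type) {L : Type} [Field k] [Field L] [Algebra k L] (ord : L → ℤ) :
    Prop where
  mul : ∀ a b, a ≠ 0 → b ≠ 0 → ord (a * b) = ord a + ord b
  add : ∀ a b, a ≠ 0 → b ≠ 0 → a + b ≠ 0 → min (ord a) (ord b) ≤ ord (a + b)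
  const : ∀ c : k, c ≠ 0 → ord (algebraMap k L c) = 0
  lead : ∀ a b, a ≠ 0 → b ≠ 0 → ord a = ord b →
    ∃ c : k, c ≠ 0 ∧ (a = c • b ∨ ord a < ord (a - c • b))

/-- What the curve theorem `curve_main` gives. -/
structure CurveOut {k C : Type} [Field k] [CommRing C] [Algebra k C] (W : Submodule k C)
    (x₀ : C →ₐ[k] k) (m M j₁ : ℕ) (b : C) : Prop where
  m_pos : 1 ≤ m
  M_pos : 1 ≤ M
  le : 2 * m ≤ j₁
  mem : b ∈ W ^ m
  span : Ideal.span {b} = (RingHom.ker x₀) ^ M
  div : ∀ j, j₁ ≤ j → ∀ c ∈ W ^ j, c ∈ (RingHom.ker x₀) ^ (2 * M) →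
    ∃ c' ∈ W ^ (j - 2 * m), c = b ^ 2 * c'

end Pool.Agent.Harder
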