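import Pool.Agent.Harder.Defs2

/-!
HB-13a: one place rings from an order function.
-/

set_option autoImplicit false

namespace Pool.Agent.Harder

theorem opo_ord_nonpos {k L : Type} [Field k] [Field L] [Algebra k L]
    (ord : L → ℤ) (hord : IsOrd k ord) (R : Subalgebra k L)
    (hconst : ∀ f ∈ R, f ≠ 0 → 0 ≤ ord f → f ∈ Set.range (algebraMap k L)) (f : L)
    (hf : f ∈ R) (hf0 : f ≠ 0) : ord f ≤ 0 := by
  by_contra hneg
  push Not at hneg
  obtain ⟨c, hc⟩ := hconst f hf hf0 hneg.le
  have hc0 : c ≠ 0 := by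
    rintro rfl
    exact hf0 (by rw [← hc, map_zero])
  have h1 := hord.const c hc0
  rw [hc] at h1
  omega

/-- A subring with constants `k` (functions without pole at the point are constants) has a
structure of one place ring. -/
theorem onePl_of_ord {k L : Type} [Field k] [IsAlgClosed k] [Field L] [Algebra k L]
    (ord : L → ℤ) (hord : IsOrd k ord) (R : Subalgebra k L)
    (hconst : ∀ f ∈ R, f ≠ 0 → 0 ≤ ord f → f ∈ Set.range (algebraMap k L)) :
    ∃ D : OnePl k R, ∀ f : R, f ≠ 0 → (D.deg f : ℤ) = - ord (f : L) := by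
  classical
  have hne : ∀ f : R, f ≠ 0 → (f : L) ≠ 0 := by
    intro f hf h
    exact hf (Subtype.ext h)
  have hnp : ∀ f : R, f ≠ 0 → ord (f : L) ≤ 0 := by
    intro f hf
    exact opo_ord_nonpos ord hord R hconst f f.2 (hne f hf)
  have hdeg : ∀ f : R, f ≠ 0 →
      (((if f = 0 then 0 else (- ord (f : L)).toNat : ℕ)) : ℤ) = - ord (f : L) := by
    intro f hf
    rw [if_neg hf]
    have := hnp f hf
    omega
  refine ⟨{
    deg := fun f => if f = 0 then 0 else (- ord (f : L)).toNat
    deg_zero := by simp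
    deg_mul := ?_
    deg_add := ?_
    deg_C := ?_
    lead := ?_ }, ?_⟩
  · intro f g hf hg
    have h0 : f * g ≠ 0 := mul_ne_zero hf hg
    have h1 := hord.mul (f : L) g (hne f hf) (hne g hg)
    have h2 := hdeg f hf
    have h3 := hdeg g hg
    have h4 := hdeg (f * g) h0
    have h5 : ((f * g : R) : L) = (f : L) * g := rfl
    rw [← h5] at h1
    omega
  · intro f g
    by_cases hf : f = 0
    · subst hf
      simp
    by_cases hg : g = 0
    · subst hg
      simp
    by_cases hfg : f + g = 0
    · simp [hfg]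
    have h5 : ((f + g : R) : L) = (f : L) + g := rfl
    have h1 := hord.add (f : L) g (hne f hf) (hne g hg) (by
      rw [← h5]
      exact hne _ hfg)
    have h2 := hdeg f hf
    have h3 := hdeg g hg
    have h4 := hdeg (f + g) hfg
    rw [← h5] at h1
    rcases min_le_iff.mp h1 with h | h
    · refine le_max_of_le_left ?_
      omega
    · refine le_max_of_le_right ?_
      omega
  · intro c
    by_cases hc : c = 0
    · subst hc
      simp
    · have h1 := hord.const c hc
      have h2 : ((algebraMap k R c : R) : L) = algebraMap k L c := rfl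
      rw [h2, h1]
      simp
  · intro f g hf hg hfg
    have h2 := hdeg f hf
    have h3 := hdeg g hg
    have h6 : ord (f : L) = ord (g : L) := by omega
    obtain ⟨c, hc, h⟩ := hord.lead (f : L) g (hne f hf) (hne g hg) h6
    refine ⟨c, hc, ?_⟩
    have h5 : ((c • g : R) : L) = c • (g : L) := rfl
    have h7 : ((f - c • g : R) : L) = (f : L) - c • (g : L) := rfl
    rcases h with h | h
    · left
      exact Subtype.ext (by rw [h5]; exact h)
    · by_cases h0 : f - c • g = 0
      · left
        exact sub_eq_zero.mp h0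
      · right
        have h4 := hdeg _ h0
        rw [← h7] at h
        omega
  · intro f hf
    exact hdeg f hf

/-- With `n` and `n + 1` all large numbers are sums. -/
theorem opo_semigroup (n N : ℕ) (hN : n * n ≤ N) (hn : 0 < n) :
    ∃ i j : ℕ, N = i * n + j * (n + 1) := by
  refine ⟨N / n - N % n, N % n, ?_⟩
  have h1 : N % n < n := Nat.mod_lt _ hn
  have h2 : n ≤ N / n := (Nat.le_div_iff_mul_le hn).mpr hN
  have h3 : n * (N / n) + N % n = N := Nat.div_add_mod N n
  have h4 : N % n ≤ N / n := by omega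
  obtain ⟨d, hd⟩ := Nat.exists_eq_add_of_le h4
  have h5 : N / n - N % n = d := by omega
  rw [h5]
  rw [hd] at h3
  nlinarith

theorem opo_deg_one {k R : Type} [Field k] [CommRing R] [Algebra k R] (D : OnePl k R) :
    D.deg 1 = 0 := by
  have := D.deg_C 1
  rwa [map_one] at this

theorem opo_deg_pow {k R : Type} [Field k] [CommRing R] [IsDomain R] [Algebra k R]
    (D : OnePl k R) (f : R) (hf : f ≠ 0) (n : ℕ) : D.deg (f ^ n) = n * D.deg f := by
  induction n with
  | zero => simp [opo_deg_one D]
  | succ n ih =>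
    rw [pow_succ, D.deg_mul _ _ (pow_ne_zero n hf) hf, ih]
    ring

theorem gaps_finite {k L : Type} [Field k] [IsAlgClosed k] [Field L] [Algebra k L]
    (ord : L → ℤ) (hord : IsOrd k ord) (R : Subalgebra k L)
    (hfrac : ∀ f : L, ∃ a ∈ R, ∃ d ∈ R, d ≠ 0 ∧ f = a / d)
    (t : L) (ht0 : t ≠ 0) (ht : ord t = 1) (D : OnePl k R)
    (hD : ∀ f : R, f ≠ 0 → (D.deg f : ℤ) = - ord (f : L)) : D.gaps.Finite := by
  obtain ⟨a, ha, d, hd, hd0, htad⟩ := hfrac t
  have ha0 : a ≠ 0 := by
    rintro rfl
    exact ht0 (by rw [htad, zero_div])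
  have h1 : a = t * d := by
    rw [htad]
    field_simp
  have h2 := hord.mul t d ht0 hd0
  rw [← h1, ht] at h2
  have ha' : (⟨a, ha⟩ : R) ≠ 0 := by
    intro h
    exact ha0 (congrArg Subtype.val h)
  have hd' : (⟨d, hd⟩ : R) ≠ 0 := by
    intro h
    exact hd0 (congrArg Subtype.val h)
  have h3 := hD ⟨a, ha⟩ ha'
  have h4 := hD ⟨d, hd⟩ hd'
  dsimp only at h3 h4
  set n := D.deg ⟨a, ha⟩ with hn
  have h5 : D.deg ⟨d, hd⟩ = n + 1 := by omega
  rcases Nat.eq_zero_or_pos n with hn0 | hn0
  · refine Set.Finite.subset Set.finite_empty ?_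
    intro N hN
    have := hN (⟨d, hd⟩ ^ N) (pow_ne_zero N hd')
    rw [opo_deg_pow D _ hd' N, h5, hn0] at this
    omega
  · refine Set.Finite.subset (Set.finite_lt_nat (n * n)) ?_
    intro N hN
    by_contra hge
    have hge' : n * n ≤ N := not_lt.mp hge
    obtain ⟨i, j, hij⟩ := opo_semigroup n N hge' hn0
    have := hN ((⟨a, ha⟩ : R) ^ i * ⟨d, hd⟩ ^ j)
      (mul_ne_zero (pow_ne_zero i ha') (pow_ne_zero j hd'))
    rw [D.deg_mul _ _ (pow_ne_zero i ha') (pow_ne_zero j hd'), opo_deg_pow D _ ha' i,
      opo_deg_pow D _ hd' j, h5, ← hn] at this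
    exact this hij.symm

/-- a one place ring is a finite module over `k[h]` -/
theorem onePl_finite {k R : Type} [Field k] [CommRing R] [IsDomain R] [Algebra k R]
    (D : OnePl k R) (h : R) (hh : 0 < D.deg h) :
    Module.Finite (Algebra.adjoin k {h}) R := by
  classical
  have hh0 : h ≠ 0 := by
    rintro rfl
    rw [D.deg_zero] at hh
    exact lt_irrefl _ hh
  set d := D.deg h with hd
  -- elements of minimal degree in their class
  let P : ℕ → ℕ → Prop := fun i n => ∃ f : R, f ≠ 0 ∧ D.deg f = n ∧ n % d = i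
  let e : ℕ → R := fun i =>
    if hex : ∃ n, P i n then (Classical.choose (Nat.find_spec hex)) else 0
  have he : ∀ f : R, f ≠ 0 → e (D.deg f % d) ≠ 0 ∧ D.deg (e (D.deg f % d)) ≤ D.deg f ∧
      D.deg (e (D.deg f % d)) % d = D.deg f % d := by
    intro f hf
    have hex : ∃ n, P (D.deg f % d) n := ⟨D.deg f, f, hf, rfl, rfl⟩
    have hval : e (D.deg f % d) = Classical.choose (Nat.find_spec hex) := by
      simp only [e]
      rw [dif_pos hex]
    have hsp := Classical.choose_spec (Nat.find_spec hex)
    rw [← hval] at hsp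
    obtain ⟨h1, h2, h3⟩ := hsp
    refine ⟨h1, ?_, ?_⟩
    · rw [h2]
      exact Nat.find_min' hex ⟨f, hf, rfl, rfl⟩
    · rw [h2]
      exact h3
  let A := Algebra.adjoin k {h}
  have hA : h ∈ A := Algebra.self_mem_adjoin_singleton k h
  let S : Submodule A R := Submodule.span A ((Finset.range d).image e : Set R)
  have key : ∀ n : ℕ, ∀ f : R, D.deg f ≤ n → f ∈ S := by
    intro n
    induction n using Nat.strong_induction_on with
    | _ n ih =>
      intro f hfn
      by_cases hf : f = 0
      · rw [hf]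
        exact S.zero_mem
      obtain ⟨h1, h2, h3⟩ := he f hf
      set i := D.deg f % d with hi
      have hid : i < d := Nat.mod_lt _ hh
      have heS : e i ∈ S := by
        apply Submodule.subset_span
        simp only [Finset.coe_image, Set.mem_image, Finset.mem_coe, Finset.mem_range]
        exact ⟨i, hid, rfl⟩
      obtain ⟨q, hq⟩ := Nat.exists_eq_add_of_le h2
      have hdq : d ∣ q := by
        have : (D.deg (e i) + q) ≡ D.deg (e i) + 0 [MOD d] := by
          rw [← hq, add_zero]
          exact h3.symm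
        exact (Nat.modEq_zero_iff_dvd).mp (Nat.ModEq.add_left_cancel' _ this)
      obtain ⟨m, rfl⟩ := hdq
      have hg0 : h ^ m * e i ≠ 0 := mul_ne_zero (pow_ne_zero m hh0) h1
      have hg : D.deg (h ^ m * e i) = D.deg f := by
        rw [D.deg_mul _ _ (pow_ne_zero m hh0) h1, opo_deg_pow D h hh0 m, hq, ← hd]
        ring
      have hgS : ∀ c : k, c • (h ^ m * e i) ∈ S := by
        intro c
        have hmem : c • h ^ m ∈ A := A.smul_mem (A.pow_mem hA m) c
        have : c • (h ^ m * e i) = (⟨c • h ^ m, hmem⟩ : A) • e i := by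
          change c • (h ^ m * e i) = (c • h ^ m) * e i
          rw [smul_mul_assoc]
        rw [this]
        exact S.smul_mem _ heS
      obtain ⟨c, hc, hcase⟩ := D.lead f (h ^ m * e i) hf hg0 hg.symm
      rcases hcase with hcase | hcase
      · rw [hcase]
        exact hgS c
      · have hrec : f - c • (h ^ m * e i) ∈ S := by
          refine ih (D.deg (f - c • (h ^ m * e i))) (lt_of_lt_of_le hcase hfn) _ le_rfl
        have : f = (f - c • (h ^ m * e i)) + c • (h ^ m * e i) := by ring
        rw [this]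
        exact S.add_mem hrec (hgS c)
  refine ⟨⟨(Finset.range d).image e, ?_⟩⟩
  rw [eq_top_iff]
  intro f _
  exact key (D.deg f) f le_rfl

end Pool.Agent.Harder
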