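import Pool.Agent.Harder.Semi
import Pool.Agent.Harder.OnePlOf

/-!
Harder's theorem: the integral elements without pole at the point are constants.
-/

set_option autoImplicit false

namespace Pool.Agent.Harder

/-- if all powers of `f` are in a finite dimensional space, then `f` is a constant -/
lemma intc_const_of_powers {k L : Type} [Field k] [IsAlgClosed k] [Field L] [Algebra k L]
    (E : Submodule k L) [Module.Finite k E] (f : L) (hf : ∀ n : ℕ, f ^ n ∈ E) :
    f ∈ Set.range (algebraMap k L) := by
  have hle : Subalgebra.toSubmodule (Algebra.adjoin k {f}) ≤ E := by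
    rw [Algebra.adjoin_eq_span, Submodule.span_le]
    rintro x hx
    obtain ⟨n, rfl⟩ := Submonoid.mem_closure_singleton.1 hx
    exact hf n
  have hfd : FiniteDimensional k (Subalgebra.toSubmodule (Algebra.adjoin k {f})) :=
    Submodule.finiteDimensional_of_le hle
  have hint : IsIntegral k f := IsIntegral.of_mem_of_fg (Algebra.adjoin k {f})
    (Module.Finite.iff_fg.1 hfd) f (Algebra.self_mem_adjoin_singleton k f)
  exact minpoly.mem_range_of_degree_eq_one k f
    (IsAlgClosed.degree_eq_one_of_irreducible k (minpoly.irreducible hint))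

lemma intc_ord_pow {k L : Type} [Field k] [Field L] [Algebra k L] (ord : L → ℤ)
    (hord : IsOrd k ord) (x : L) (hx : x ≠ 0) (n : ℕ) : ord (x ^ n) = n * ord x := by
  induction n with
  | zero =>
    have h := hord.mul 1 1 one_ne_zero one_ne_zero
    rw [mul_one] at h
    rw [pow_zero]
    push_cast
    linarith
  | succ n ih =>
    rw [pow_succ, hord.mul _ _ (pow_ne_zero n hx) hx, ih]
    push_cast
    ring

/-- the powers of an integral element have a common denominator -/
lemma intc_denom {k L : Type} [Field k] [Field L] [Algebra k L] (R : Subalgebra k L) (h : L)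
    (hh : h ∈ R) (f : L) (hf : IsIntegral (Algebra.adjoin k {h}) f) (a d : L) (ha : a ∈ R)
    (hd : d ∈ R) (hd0 : d ≠ 0) (hfad : f = a / d) :
    ∃ n : ℕ, ∀ j : ℕ, d ^ n * f ^ j ∈ R := by
  obtain ⟨p, hp, hev⟩ := hf
  have hAR : ∀ c : Algebra.adjoin k {h}, (c : L) ∈ R := by
    intro c
    have h1 : Algebra.adjoin k {h} ≤ R := Algebra.adjoin_le (by
      rintro x rfl
      exact hh)
    exact h1 c.2
  have hpow : f ^ p.natDegree = - ∑ i ∈ Finset.range p.natDegree, (p.coeff i : L) * f ^ i := by
    have h1 := hp.as_sum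
    rw [h1] at hev
    rw [Polynomial.eval₂_add, Polynomial.eval₂_finsetSum, Polynomial.eval₂_pow,
      Polynomial.eval₂_X] at hev
    have h2 : ∀ i ∈ Finset.range p.natDegree,
        Polynomial.eval₂ (algebraMap (Algebra.adjoin k {h}) L) f
          (Polynomial.C (p.coeff i) * Polynomial.X ^ i) = (p.coeff i : L) * f ^ i := by
      intro i _
      rw [Polynomial.eval₂_mul, Polynomial.eval₂_C, Polynomial.eval₂_pow, Polynomial.eval₂_X]
      rfl
    rw [Finset.sum_congr rfl h2] at hev
    exact eq_neg_of_add_eq_zero_left hev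
  refine ⟨p.natDegree, fun j => ?_⟩
  induction j using Nat.strong_induction_on with
  | _ j ih =>
    rcases Nat.lt_or_ge j p.natDegree with hj | hj
    · have e : d ^ p.natDegree * f ^ j = a ^ j * d ^ (p.natDegree - j) := by
        have h1 : d * f = a := by
          rw [hfad]
          field_simp
        calc d ^ p.natDegree * f ^ j = d ^ (p.natDegree - j + j) * f ^ j := by
              rw [Nat.sub_add_cancel hj.le]
          _ = (d * f) ^ j * d ^ (p.natDegree - j) := by ring
          _ = a ^ j * d ^ (p.natDegree - j) := by rw [h1]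
      rw [e]
      exact R.mul_mem (R.pow_mem ha j) (R.pow_mem hd _)
    · have e : d ^ p.natDegree * f ^ j = - ∑ i ∈ Finset.range p.natDegree,
          (p.coeff i : L) * (d ^ p.natDegree * f ^ (j - p.natDegree + i)) := by
        calc d ^ p.natDegree * f ^ j = d ^ p.natDegree * (f ^ (j - p.natDegree) *
              f ^ p.natDegree) := by
              rw [← pow_add, Nat.sub_add_cancel hj]
          _ = - ∑ i ∈ Finset.range p.natDegree,
              (p.coeff i : L) * (d ^ p.natDegree * f ^ (j - p.natDegree + i)) := by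
              rw [hpow, mul_neg, mul_neg, Finset.mul_sum, Finset.mul_sum]
              congr 1
              refine Finset.sum_congr rfl fun i _ => ?_
              rw [pow_add]
              ring
      rw [e]
      apply R.neg_mem
      apply R.sum_mem
      intro i hi
      apply R.mul_mem (hAR _)
      apply ih
      rw [Finset.mem_range] at hi
      omega

/-- Integral elements: the functions without pole at the point are constants. -/
theorem int_const {k L : Type} [Field k] [IsAlgClosed k] [Field L] [Algebra k L]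
    (ord : L → ℤ) (hord : IsOrd k ord) (R : Subalgebra k L)
    (hfrac : ∀ f : L, ∃ a ∈ R, ∃ d ∈ R, d ≠ 0 ∧ f = a / d)
    (hconst : ∀ f ∈ R, f ≠ 0 → 0 ≤ ord f → f ∈ Set.range (algebraMap k L))
    (h : L) (hh : h ∈ R) (f : L) (hf : IsIntegral (Algebra.adjoin k {h}) f) (hf0 : f ≠ 0)
    (hge : 0 ≤ ord f) : f ∈ Set.range (algebraMap k L) := by
  obtain ⟨a, ha, d, hd, hd0, hfad⟩ := hfrac f
  obtain ⟨n, hn⟩ := intc_denom R h hh f hf a d ha hd hd0 hfad
  obtain ⟨D, hD⟩ := onePl_of_ord ord hord R hconst
  have hdn : d ^ n ≠ 0 := pow_ne_zero n hd0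
  let dn : R := ⟨d ^ n, R.pow_mem hd n⟩
  have hdn0 : dn ≠ 0 := fun h0 => hdn (congrArg Subtype.val h0)
  have hfin := fil_finite D (D.deg dn)
  let ψ : R →ₗ[k] L := (LinearMap.mulLeft k (d ^ n)⁻¹).comp R.val.toLinearMap
  have hE : Module.Finite k ((D.fil (D.deg dn)).map ψ) := inferInstance
  apply intc_const_of_powers ((D.fil (D.deg dn)).map ψ) f
  intro j
  refine ⟨⟨d ^ n * f ^ j, hn j⟩, ?_, ?_⟩
  · change D.deg _ ≤ D.deg dn
    have h0 : (⟨d ^ n * f ^ j, hn j⟩ : R) ≠ 0 := by
      intro h0
      exact mul_ne_zero hdn (pow_ne_zero j hf0) (congrArg Subtype.val h0)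
    have h1 := hD _ h0
    have h2 := hD _ hdn0
    change (D.deg _ : ℤ) = - ord (d ^ n * f ^ j) at h1
    change (D.deg dn : ℤ) = - ord (d ^ n) at h2
    rw [hord.mul _ _ hdn (pow_ne_zero j hf0), intc_ord_pow ord hord f hf0] at h1
    have h3 : 0 ≤ (j : ℤ) * ord f := mul_nonneg (Int.natCast_nonneg j) hge
    have h4 : (D.deg (⟨d ^ n * f ^ j, hn j⟩ : R) : ℤ) ≤ D.deg dn := by
      rw [h1, h2]
      linarith
    exact_mod_cast h4
  · change (d ^ n)⁻¹ * (d ^ n * f ^ j) = f ^ j
    rw [inv_mul_cancel_left₀ hdn]

end Pool.Agent.Harder
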