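import Pool.Agent.Harder.Defs2

/-!
# HB-12: the ring `k[W ^ m / b]` of functions with only one pole
-/

set_option autoImplicit false

namespace Pool.Agent.Harder

/-- if all powers of `f` are in a finite dimensional space, then `f` is a constant -/
theorem const_of_powers {k L : Type} [Field k] [IsAlgClosed k] [Field L] [Algebra k L]
    (E : Submodule k L) [Module.Finite k E] (f : L) (hf : ∀ n : ℕ, f ^ n ∈ E) :
    f ∈ Set.range (algebraMap k L) := by
  have hle : Subalgebra.toSubmodule (Algebra.adjoin k {f}) ≤ E := by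
    rw [Algebra.adjoin_singleton_eq_range_aeval]
    rintro x ⟨P, rfl⟩
    change Polynomial.aeval f P ∈ E
    rw [Polynomial.aeval_eq_sum_range]
    exact Submodule.sum_mem _ fun i _ => E.smul_mem _ (hf i)
  have hfin : (Subalgebra.toSubmodule (Algebra.adjoin k {f})).FG := by
    have h1 : Module.Finite k (Subalgebra.toSubmodule (Algebra.adjoin k {f})) :=
      Module.Finite.of_injective (Submodule.inclusion hle) (Submodule.inclusion_injective hle)
    exact Module.Finite.iff_fg.1 h1
  have hint : IsIntegral k f :=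
    IsIntegral.of_mem_of_fg (Algebra.adjoin k {f}) hfin f (Algebra.self_mem_adjoin_singleton k f)
  have hdeg := IsAlgClosed.degree_eq_one_of_irreducible k (minpoly.irreducible hint)
  obtain ⟨c, hc⟩ := minpoly.mem_range_of_degree_eq_one k f hdeg
  exact ⟨c, hc⟩

section OR
variable {k C L : Type} [Field k] [CommRing C] [IsDomain C] [Algebra k C] [Field L]
  [Algebra C L] [IsFractionRing C L] [Algebra k L] [IsScalarTower k C L]

theorem or_inj {c : C} (hc : c ≠ 0) : algebraMap C L c ≠ 0 := fun h =>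
  hc ((IsFractionRing.injective C L) (h.trans (map_zero _).symm))

theorem or_pow_mono (W : Submodule k C) (h1 : (1 : C) ∈ W) {i j : ℕ} (hij : i ≤ j) :
    W ^ i ≤ W ^ j := by
  induction hij with
  | refl => exact le_rfl
  | step _ ih =>
    refine ih.trans ?_
    intro x hx
    rw [pow_succ]
    have := Submodule.mul_mem_mul hx h1
    rwa [mul_one] at this

theorem or_exists_pow (W : Submodule k C) (h1 : (1 : C) ∈ W)
    (hgen : Algebra.adjoin k (W : Set C) = ⊤) (x : C) : ∃ j, x ∈ W ^ j := by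
  have hx : x ∈ Algebra.adjoin k (W : Set C) := hgen ▸ Algebra.mem_top
  induction hx using Algebra.adjoin_induction with
  | mem x hx => exact ⟨1, by rwa [pow_one]⟩
  | algebraMap r => exact ⟨0, by rw [pow_zero]; exact Submodule.mem_one.2 ⟨r, rfl⟩⟩
  | add x y _ _ hx hy =>
    obtain ⟨i, hi⟩ := hx
    obtain ⟨j, hj⟩ := hy
    exact ⟨max i j, Submodule.add_mem _ (or_pow_mono W h1 (le_max_left _ _) hi)
      (or_pow_mono W h1 (le_max_right _ _) hj)⟩
  | mul x y _ _ hx hy =>
    obtain ⟨i, hi⟩ := hx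
    obtain ⟨j, hj⟩ := hy
    exact ⟨i + j, by rw [pow_add]; exact Submodule.mul_mem_mul hi hj⟩

/-- the order of a power -/
theorem or_ord_pow {ord : L → ℤ} (hord : IsOrd k ord) (a : L) (ha : a ≠ 0) (n : ℕ) :
    ord (a ^ n) = n * ord a := by
  induction n with
  | zero =>
    rw [pow_zero, Nat.cast_zero, zero_mul]
    have := hord.const 1 one_ne_zero
    rwa [map_one] at this
  | succ n ih =>
    rw [pow_succ, hord.mul _ _ (pow_ne_zero _ ha) ha, ih, Nat.cast_succ]
    ring

/-- the order of `b` -/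
theorem or_ord_b {W : Submodule k C} {x₀ : C →ₐ[k] k} {m M j₁ : ℕ} {b : C}
    (hC : CurveOut W x₀ m M j₁ b) {ord : L → ℤ}
    (hordC : ∀ (c : C) (n : ℕ), c ≠ 0 →
      ((n : ℤ) ≤ ord (algebraMap C L c) ↔ c ∈ (RingHom.ker x₀) ^ n))
    (hb : b ≠ 0) : ord (algebraMap C L b) = M := by
  have h1 : b ∈ (RingHom.ker x₀) ^ M := by
    rw [← hC.span]; exact Ideal.mem_span_singleton_self b
  have h2 := (hordC b M hb).2 h1
  by_contra hne
  have h3 : ((M + 1 : ℕ) : ℤ) ≤ ord (algebraMap C L b) := by
    push_cast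
    omega
  have h4 := (hordC b (M + 1) hb).1 h3
  have h5 : (RingHom.ker x₀) ^ (M + 1) = (RingHom.ker x₀) ^ M := by
    refine le_antisymm (Ideal.pow_le_pow_right (Nat.le_succ M)) ?_
    rw [← hC.span, Ideal.span_singleton_le_iff_mem]
    exact h4
  have h6 : ∀ n, (RingHom.ker x₀) ^ (M + n) = (RingHom.ker x₀) ^ M := by
    intro n
    induction n with
    | zero => rfl
    | succ n ih =>
      rw [← add_assoc, pow_succ, ih, ← pow_succ, h5]
  have h7 : ∀ n : ℕ, ((M + n : ℕ) : ℤ) ≤ ord (algebraMap C L b) := fun n =>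
    (hordC b (M + n) hb).2 (by rw [h6 n]; exact h1)
  have h8 := h7 (ord (algebraMap C L b) - M + 1).toNat
  push_cast at h8
  omega

/-- a nonzero element of `C` has nonnegative order -/
theorem or_ord_nonneg {x₀ : C →ₐ[k] k} {ord : L → ℤ}
    (hordC : ∀ (c : C) (n : ℕ), c ≠ 0 →
      ((n : ℤ) ≤ ord (algebraMap C L c) ↔ c ∈ (RingHom.ker x₀) ^ n))
    (c : C) (hc : c ≠ 0) : 0 ≤ ord (algebraMap C L c) := by
  have := (hordC c 0 hc).2 (by rw [pow_zero, Ideal.one_eq_top]; exact Submodule.mem_top)
  simpa using this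

end OR

/-- the functions `c / b ^ i` -/
theorem oneRing_const {k C L : Type} [Field k] [IsAlgClosed k] [CommRing C] [IsDomain C]
    [Algebra k C] [Field L] [Algebra C L] [IsFractionRing C L] [Algebra k L]
    [IsScalarTower k C L] (W : Submodule k C) (hW : W.FG) (h1 : (1 : C) ∈ W)
    (x₀ : C →ₐ[k] k) (m M j₁ : ℕ) (b : C) (hC : CurveOut W x₀ m M j₁ b) (ord : L → ℤ)
    (hord : IsOrd k ord)
    (hordC : ∀ (c : C) (n : ℕ), c ≠ 0 →
      ((n : ℤ) ≤ ord (algebraMap C L c) ↔ c ∈ (RingHom.ker x₀) ^ n))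
    (τ : C) (hτ : ord (algebraMap C L τ) = 1)
    (i : ℕ) (c : C) (hc : c ∈ W ^ (m * i)) (hc0 : c ≠ 0)
    (hge : ((M * i : ℕ) : ℤ) ≤ ord (algebraMap C L c)) :
    algebraMap C L c / algebraMap C L b ^ i ∈ Set.range (algebraMap k L) := by
  by_cases hb : b = 0
  · rcases Nat.eq_zero_or_pos i with rfl | hi
    · rw [mul_zero, pow_zero] at hc
      obtain ⟨r, rfl⟩ := Submodule.mem_one.1 hc
      exact ⟨r, by rw [pow_zero, div_one]; exact IsScalarTower.algebraMap_apply k C L r⟩
    · rw [hb, map_zero, zero_pow hi.ne', div_zero]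
      exact ⟨0, map_zero _⟩
  have hbL : algebraMap C L b ≠ 0 := or_inj hb
  have hordb : ord (algebraMap C L b) = M := or_ord_b hC hordC hb
  -- the finite dimensional space
  obtain ⟨E, hE⟩ : ∃ E : Submodule k L, E = Submodule.map
      ((LinearMap.mulLeft k ((algebraMap C L b ^ (j₁ + 2))⁻¹)) ∘ₗ (IsScalarTower.toAlgHom k C L).toLinearMap)
      (W ^ (m * (j₁ + 2))) := ⟨_, rfl⟩
  have hEfin : Module.Finite k E := by
    rw [Module.Finite.iff_fg, hE]
    exact (hW.pow _).map _
  have key : ∀ r : ℕ, ∀ d ∈ W ^ (m * r), d ≠ 0 → ((M * r : ℕ) : ℤ) ≤ ord (algebraMap C L d) →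
      algebraMap C L d / algebraMap C L b ^ r ∈ E := by
    intro r
    induction r using Nat.strong_induction_on with
    | _ r ih =>
      intro d hd hd0 hdo
      by_cases hr : r ≤ j₁ + 2
      · rw [hE]
        refine ⟨d * b ^ (j₁ + 2 - r), ?_, ?_⟩
        · have e : m * (j₁ + 2) = m * r + m * (j₁ + 2 - r) := by
            rw [← Nat.mul_add]; congr 1; omega
          rw [e, pow_add]
          refine Submodule.mul_mem_mul hd ?_
          rw [pow_mul]
          exact Submodule.pow_mem_pow _ hC.mem _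
        · change (algebraMap C L b ^ (j₁ + 2))⁻¹ * algebraMap C L (d * b ^ (j₁ + 2 - r)) = _
          rw [map_mul, map_pow]
          have e : algebraMap C L b ^ (j₁ + 2) = algebraMap C L b ^ r * algebraMap C L b ^ (j₁ + 2 - r) := by
            rw [← pow_add]; congr 1; omega
          rw [e]
          field_simp
      · have hr2 : 2 ≤ r := by omega
        have hmr : j₁ ≤ m * r := by
          have : 1 * r ≤ m * r := Nat.mul_le_mul_right r hC.m_pos
          omega
        have hM2 : M * 2 ≤ M * r := Nat.mul_le_mul_left M hr2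
        have hmem : d ∈ (RingHom.ker x₀) ^ (2 * M) := by
          refine (hordC d (2 * M) hd0).1 (le_trans ?_ hdo)
          exact_mod_cast (by omega : 2 * M ≤ M * r)
        obtain ⟨c', hc', e⟩ := hC.div (m * r) hmr d hd hmem
        have hc'0 : c' ≠ 0 := by
          rintro rfl
          exact hd0 (by rw [e, mul_zero])
        have hidx : m * r - 2 * m = m * (r - 2) := by
          rw [Nat.mul_sub]; congr 1; exact Nat.mul_comm _ _
        rw [hidx] at hc'
        have ho : ord (algebraMap C L d) = 2 * M + ord (algebraMap C L c') := by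
          rw [e, map_mul, hord.mul _ _ (or_inj (pow_ne_zero _ hb)) (or_inj hc'0), map_pow,
            or_ord_pow hord _ hbL, hordb]
          push_cast
          ring
        have h3 := ih (r - 2) (by omega) c' hc' hc'0 (by
          have e2 : M * r = M * (r - 2) + 2 * M := by
            have : r = (r - 2) + 2 := by omega
            calc M * r = M * ((r - 2) + 2) := by rw [← this]
              _ = _ := by ring
          rw [e2] at hdo
          push_cast at hdo ⊢
          rw [ho] at hdo
          linarith)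
        have e3 : algebraMap C L d / algebraMap C L b ^ r =
            algebraMap C L c' / algebraMap C L b ^ (r - 2) := by
          have e4 : algebraMap C L b ^ r = algebraMap C L b ^ 2 * algebraMap C L b ^ (r - 2) := by
            rw [← pow_add]; congr 1; omega
          rw [e, map_mul, map_pow, e4, mul_div_mul_left _ _ (pow_ne_zero _ hbL)]
        rw [e3]
        exact h3
  refine const_of_powers E _ fun n => ?_
  have hcn : c ^ n ∈ W ^ (m * (i * n)) := by
    rw [← Nat.mul_assoc, pow_mul]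
    exact Submodule.pow_mem_pow _ hc _
  have hres := key (i * n) (c ^ n) hcn (pow_ne_zero _ hc0) (by
    rw [map_pow, or_ord_pow hord _ (or_inj hc0)]
    push_cast at hge ⊢
    nlinarith [Int.natCast_nonneg n])
  rw [map_pow, pow_mul, ← div_pow] at hres
  exact hres

/-- There is a subring of functions with only one pole, whose fraction field is everything. -/
theorem exists_oneRing {k C L : Type} [Field k] [IsAlgClosed k] [CommRing C] [IsDomain C]
    [Algebra k C] [Field L] [Algebra C L] [IsFractionRing C L] [Algebra k L]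
    [IsScalarTower k C L] (W : Submodule k C) (hW : W.FG) (h1 : (1 : C) ∈ W)
    (hgen : Algebra.adjoin k (W : Set C) = ⊤)
    (x₀ : C →ₐ[k] k) (m M j₁ : ℕ) (b : C) (hC : CurveOut W x₀ m M j₁ b) (ord : L → ℤ)
    (hord : IsOrd k ord)
    (hordC : ∀ (c : C) (n : ℕ), c ≠ 0 →
      ((n : ℤ) ≤ ord (algebraMap C L c) ↔ c ∈ (RingHom.ker x₀) ^ n))
    (τ : C) (hτ : ord (algebraMap C L τ) = 1) (hτ0 : τ ≠ 0) :
    ∃ R : Subalgebra k L, (∀ f : L, ∃ a ∈ R, ∃ d ∈ R, d ≠ 0 ∧ f = a / d) ∧
      (∀ f ∈ R, f ≠ 0 → 0 ≤ ord f → f ∈ Set.range (algebraMap k L)) ∧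
      ∃ h ∈ R, ord h < 0 := by
  have hb : b ≠ 0 := by
    rintro rfl
    have h2 : τ ∈ (RingHom.ker x₀) ^ 1 := (hordC τ 1 hτ0).1 (by rw [hτ]; norm_num)
    have h3 : τ ^ M ∈ (RingHom.ker x₀) ^ M := by
      rw [pow_one] at h2
      exact Ideal.pow_mem_pow h2 M
    rw [← hC.span, Ideal.mem_span_singleton, zero_dvd_iff] at h3
    exact pow_ne_zero _ hτ0 h3
  have hbL : algebraMap C L b ≠ 0 := or_inj hb
  have hordb : ord (algebraMap C L b) = M := or_ord_b hC hordC hb
  have hbm : ∀ i, b ^ i ∈ W ^ (m * i) := fun i => by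
    rw [pow_mul]; exact Submodule.pow_mem_pow _ hC.mem _
  let R : Subalgebra k L :=
    { carrier := {f | ∃ i : ℕ, ∃ c ∈ W ^ (m * i), f = algebraMap C L c / algebraMap C L b ^ i}
      mul_mem' := by
        rintro x y ⟨i, c, hc, rfl⟩ ⟨j, d, hd, rfl⟩
        refine ⟨i + j, c * d, ?_, ?_⟩
        · rw [Nat.mul_add, pow_add]; exact Submodule.mul_mem_mul hc hd
        · rw [map_mul, pow_add]; exact div_mul_div_comm _ _ _ _
      add_mem' := by
        rintro x y ⟨i, c, hc, rfl⟩ ⟨j, d, hd, rfl⟩
        refine ⟨i + j, c * b ^ j + d * b ^ i, ?_, ?_⟩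
        · rw [Nat.mul_add, pow_add]
          refine Submodule.add_mem _ (Submodule.mul_mem_mul hc (hbm j)) ?_
          rw [mul_comm d]
          exact Submodule.mul_mem_mul (hbm i) hd
        · rw [map_add, map_mul, map_mul, map_pow, map_pow, pow_add]
          field_simp
      algebraMap_mem' := by
        intro r
        refine ⟨0, algebraMap k C r, ?_, ?_⟩
        · rw [mul_zero, pow_zero]; exact Submodule.mem_one.2 ⟨r, rfl⟩
        · rw [pow_zero, div_one]; exact IsScalarTower.algebraMap_apply k C L r }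
  have hR : ∀ f : L, f ∈ R ↔ ∃ i : ℕ, ∃ c ∈ W ^ (m * i),
      f = algebraMap C L c / algebraMap C L b ^ i := fun f => Iff.rfl
  refine ⟨R, ?_, ?_, ?_⟩
  · intro f
    obtain ⟨x, y, hy, rfl⟩ := IsFractionRing.div_surjective (A := C) f
    have hy0 : y ≠ 0 := nonZeroDivisors.ne_zero hy
    obtain ⟨i, hi⟩ := or_exists_pow W h1 hgen x
    obtain ⟨j, hj⟩ := or_exists_pow W h1 hgen y
    have hm : ∀ n : ℕ, n ≤ m * n := fun n => Nat.le_mul_of_pos_left n hC.m_pos
    refine ⟨algebraMap C L x / algebraMap C L b ^ (i + j), (hR _).2 ⟨i + j, x, ?_, rfl⟩,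
      algebraMap C L y / algebraMap C L b ^ (i + j), (hR _).2 ⟨i + j, y, ?_, rfl⟩, ?_, ?_⟩
    · exact or_pow_mono W h1 ((Nat.le_add_right i j).trans (hm _)) hi
    · exact or_pow_mono W h1 ((Nat.le_add_left j i).trans (hm _)) hj
    · exact div_ne_zero (or_inj hy0) (pow_ne_zero _ hbL)
    · rw [div_div_div_cancel_right₀ (pow_ne_zero _ hbL)]
  · intro f hf hf0 hfo
    obtain ⟨i, c, hc, rfl⟩ := (hR f).1 hf
    have hc0 : c ≠ 0 := by
      rintro rfl
      exact hf0 (by rw [map_zero, zero_div])
    refine oneRing_const W hW h1 x₀ m M j₁ b hC ord hord hordC τ hτ i c hc hc0 ?_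
    have e : algebraMap C L c = (algebraMap C L c / algebraMap C L b ^ i) *
        algebraMap C L b ^ i := by
      field_simp
    rw [e, hord.mul _ _ hf0 (pow_ne_zero _ hbL), or_ord_pow hord _ hbL, hordb]
    push_cast
    nlinarith
  · refine ⟨1 / algebraMap C L b, (hR _).2 ⟨1, 1, ?_, ?_⟩, ?_⟩
    · rw [mul_one]
      exact or_pow_mono W h1 (Nat.zero_le m)
        (by rw [pow_zero]; exact Submodule.mem_one.2 ⟨1, map_one _⟩)
    · rw [map_one, pow_one]
    · have e : ord ((1 / algebraMap C L b) * algebraMap C L b) =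
          ord (1 / algebraMap C L b) + ord (algebraMap C L b) :=
        hord.mul _ _ (one_div_ne_zero hbL) hbL
      rw [one_div_mul_cancel hbL, hordb] at e
      have e1 := hord.const 1 one_ne_zero
      rw [map_one] at e1
      rw [e1] at e
      have := hC.M_pos
      omega

end Pool.Agent.Harder
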