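import Pool.Agent.Harder.Defs2
import Pool.Agent.K1.L2Defs

set_option autoImplicit false

/-!
Harder's theorem: the order at a smooth point of a curve.
-/

namespace Pool.Agent.Harder

open Pool.Agent.K1

section
variable {k C : Type} [Field k] [CommRing C] [IsDomain C] [Algebra k C] {x₀ : C →ₐ[k] k} {τ e : C}

open Classical in
/-- the order of a nonzero element of the ring -/
private noncomputable def ooC (hx : LocalPt x₀ τ e) (c : C) : ℕ :=
  if h : c = 0 then 0 else (hx.ord c h).choose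

omit [IsDomain C] in
private lemma ooC_spec (hx : LocalPt x₀ τ e) {c : C} (hc : c ≠ 0) :
    c ∈ (RingHom.ker x₀) ^ (ooC hx c) ∧ c ∉ (RingHom.ker x₀) ^ (ooC hx c + 1) := by
  unfold ooC
  rw [dif_neg hc]
  exact (hx.ord c hc).choose_spec

private lemma ooC_le_iff (hx : LocalPt x₀ τ e) {c : C} (hc : c ≠ 0) (n : ℕ) :
    n ≤ ooC hx c ↔ c ∈ (RingHom.ker x₀) ^ n := by
  constructor
  · intro h
    exact Ideal.pow_le_pow_right h (ooC_spec hx hc).1
  · intro h
    by_contra hn
    exact (ooC_spec hx hc).2 (Ideal.pow_le_pow_right (by omega) h)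

private lemma ooC_eq (hx : LocalPt x₀ τ e) {c : C} (hc : c ≠ 0) {n : ℕ}
    (h1 : c ∈ (RingHom.ker x₀) ^ n) (h2 : c ∉ (RingHom.ker x₀) ^ (n + 1)) : ooC hx c = n := by
  have a1 := (ooC_le_iff hx hc n).2 h1
  have a2 : ¬ n + 1 ≤ ooC hx c := fun h => h2 ((ooC_le_iff hx hc _).1 h)
  omega

private lemma ooC_mul (hx : LocalPt x₀ τ e) {c d : C} (hc : c ≠ 0) (hd : d ≠ 0) :
    ooC hx (c * d) = ooC hx c + ooC hx d := by
  obtain ⟨c1, c2⟩ := ooC_spec hx hc
  obtain ⟨d1, d2⟩ := ooC_spec hx hd
  refine ooC_eq hx (mul_ne_zero hc hd) ?_ (hx.mul _ _ _ _ c1 c2 d1 d2)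
  rw [pow_add]
  exact Ideal.mul_mem_mul c1 d1

variable {L : Type} [Field L] [Algebra C L] [IsFractionRing C L]

private lemma ooL_exists (hx : LocalPt x₀ τ e) (x : L) : ∃ z : ℤ, ∀ a d : C, a ≠ 0 → d ≠ 0 →
    algebraMap C L a / algebraMap C L d = x → (ooC hx a : ℤ) - ooC hx d = z := by
  have hinj : Function.Injective (algebraMap C L) := IsFractionRing.injective C L
  have hne : ∀ {d : C}, d ≠ 0 → algebraMap C L d ≠ 0 := by
    intro d hd
    rw [Ne, map_eq_zero_iff _ hinj]; exact hd
  obtain ⟨b, f, hf0, hbf⟩ := IsFractionRing.div_surjective (A := C) x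
  have hf1 : f ≠ 0 := nonZeroDivisors.ne_zero hf0
  refine ⟨(ooC hx b : ℤ) - ooC hx f, fun a d ha hd had => ?_⟩
  have hb1 : b ≠ 0 := by
    intro h
    rw [h, map_zero, zero_div] at hbf
    rw [← hbf] at had
    exact div_ne_zero (hne ha) (hne hd) had
  have hcross : a * f = b * d := by
    apply hinj
    rw [map_mul, map_mul]
    rw [← hbf, div_eq_div_iff (hne hd) (hne hf1)] at had
    exact had
  have h1 := congrArg (ooC hx) hcross
  rw [ooC_mul hx ha hf1, ooC_mul hx hb1 hd] at h1
  omega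

/-- the order of an element of the fraction field -/
private noncomputable def ooL (L : Type) [Field L] [Algebra C L] [IsFractionRing C L]
    (hx : LocalPt x₀ τ e) (x : L) : ℤ := (ooL_exists hx x).choose

private lemma ooL_div (hx : LocalPt x₀ τ e) {a d : C} (ha : a ≠ 0) (hd : d ≠ 0) :
    ooL L hx (algebraMap C L a / algebraMap C L d) = (ooC hx a : ℤ) - ooC hx d :=
  ((ooL_exists (L := L) hx (algebraMap C L a / algebraMap C L d)).choose_spec a d ha hd rfl).symm

end

theorem exists_ord {k C L : Type} [Field k] [CommRing C] [IsDomain C] [Algebra k C] [Field L]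
    [Algebra C L] [IsFractionRing C L] [Algebra k L] [IsScalarTower k C L] (x₀ : C →ₐ[k] k)
    (τ e : C) (hx : Pool.Agent.K1.LocalPt x₀ τ e) :
    ∃ ord : L → ℤ, IsOrd k ord ∧ ord (algebraMap C L τ) = 1 ∧
      ∀ (c : C) (n : ℕ), c ≠ 0 →
        ((n : ℤ) ≤ ord (algebraMap C L c) ↔ c ∈ (RingHom.ker x₀) ^ n) := by
  have hinj : Function.Injective (algebraMap C L) := IsFractionRing.injective C L
  have hne : ∀ {d : C}, d ≠ 0 → algebraMap C L d ≠ 0 := by
    intro d hd
    rw [Ne, map_eq_zero_iff _ hinj]; exact hd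
  -- common denominators
  have hrep : ∀ a b : L, ∃ α β δ : C, δ ≠ 0 ∧ a = algebraMap C L α / algebraMap C L δ ∧
      b = algebraMap C L β / algebraMap C L δ := by
    intro a b
    obtain ⟨α, δ₁, h1, ha⟩ := IsFractionRing.div_surjective (A := C) a
    obtain ⟨β, δ₂, h2, hb⟩ := IsFractionRing.div_surjective (A := C) b
    have n1 : δ₁ ≠ 0 := nonZeroDivisors.ne_zero h1
    have n2 : δ₂ ≠ 0 := nonZeroDivisors.ne_zero h2
    have m1 := hne n1
    have m2 := hne n2
    refine ⟨α * δ₂, β * δ₁, δ₁ * δ₂, mul_ne_zero n1 n2, ?_, ?_⟩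
    · rw [← ha, map_mul, map_mul]
      field_simp
    · rw [← hb, map_mul, map_mul]
      field_simp
  have hz : ∀ {α δ : C}, δ ≠ 0 → algebraMap C L α / algebraMap C L δ ≠ 0 → α ≠ 0 := by
    intro α δ _ h h0
    apply h
    rw [h0, map_zero, zero_div]
  have hC : ∀ c : C, c ≠ 0 → ooL L hx (algebraMap C L c) = ooC hx c := by
    intro c hc
    have h := ooL_div (L := L) hx hc one_ne_zero
    have h1 : ooC hx (1 : C) = 0 := by
      refine ooC_eq hx one_ne_zero (by simp) ?_
      intro h
      rw [zero_add, pow_one, RingHom.mem_ker, map_one] at h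
      exact one_ne_zero h
    rw [map_one, div_one, h1] at h
    simpa using h
  refine ⟨ooL L hx, ⟨?_, ?_, ?_, ?_⟩, ?_, ?_⟩
  · -- mul
    intro a b ha hb
    obtain ⟨α, β, δ, hδ, rfl, rfl⟩ := hrep a b
    have hα := hz hδ ha
    have hβ := hz hδ hb
    rw [div_mul_div_comm, ← map_mul, ← map_mul, ooL_div hx (mul_ne_zero hα hβ) (mul_ne_zero hδ hδ),
      ooL_div hx hα hδ, ooL_div hx hβ hδ, ooC_mul hx hα hβ, ooC_mul hx hδ hδ]
    push_cast
    ring
  · -- add
    intro a b ha hb hab
    obtain ⟨α, β, δ, hδ, rfl, rfl⟩ := hrep a b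
    have hα := hz hδ ha
    have hβ := hz hδ hb
    rw [← add_div, ← map_add] at hab ⊢
    have hαβ := hz hδ hab
    rw [ooL_div hx hα hδ, ooL_div hx hβ hδ, ooL_div hx hαβ hδ]
    have h1 : min (ooC hx α) (ooC hx β) ≤ ooC hx (α + β) := by
      rw [ooC_le_iff hx hαβ]
      exact Ideal.add_mem _ ((ooC_le_iff hx hα _).1 (min_le_left _ _))
        ((ooC_le_iff hx hβ _).1 (min_le_right _ _))
    omega
  · -- const
    intro c hc
    have hc1 : algebraMap k C c ≠ 0 := by
      intro h
      have h2 := congrArg x₀ h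
      rw [AlgHom.commutes, map_zero] at h2
      exact hc (by simpa using h2)
    rw [IsScalarTower.algebraMap_apply k C L, hC _ hc1]
    have : ooC hx (algebraMap k C c) = 0 := by
      refine ooC_eq hx hc1 (by simp) ?_
      intro h
      rw [zero_add, pow_one, RingHom.mem_ker] at h
      have h2 : x₀ (algebraMap k C c) = 0 := h
      rw [AlgHom.commutes] at h2
      exact hc (by simpa using h2)
    rw [this]; rfl
  · -- lead
    intro a b ha hb hab
    obtain ⟨α, β, δ, hδ, rfl, rfl⟩ := hrep a b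
    have hα := hz hδ ha
    have hβ := hz hδ hb
    rw [ooL_div hx hα hδ, ooL_div hx hβ hδ] at hab
    have hn : ooC hx α = ooC hx β := by omega
    obtain ⟨α1, α2⟩ := ooC_spec hx hα
    obtain ⟨β1, β2⟩ := ooC_spec hx hβ
    rw [← hn] at β1 β2
    obtain ⟨u, hu⟩ := hx.digit _ _ α1
    obtain ⟨v, hv⟩ := hx.digit _ _ β1
    have hu0 : u ≠ 0 := by
      rintro rfl
      rw [zero_smul, sub_zero] at hu
      exact α2 hu
    have hv0 : v ≠ 0 := by
      rintro rfl
      rw [zero_smul, sub_zero] at hv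
      exact β2 hv
    refine ⟨u / v, div_ne_zero hu0 hv0, ?_⟩
    have hkey : α - (u / v) • β ∈ (RingHom.ker x₀) ^ (ooC hx α + 1) := by
      have e1 : α - (u / v) • β = (α - u • τ ^ ooC hx α) -
          algebraMap k C (u / v) * (β - v • τ ^ ooC hx α) := by
        have e2 : algebraMap k C (u / v) * algebraMap k C v = algebraMap k C u := by
          rw [← map_mul, div_mul_cancel₀ _ hv0]
        simp only [Algebra.smul_def]
        linear_combination (-(τ ^ ooC hx α)) * e2
      rw [e1]
      exact Ideal.sub_mem _ hu (Ideal.mul_mem_left _ _ hv)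
    have hsub : algebraMap C L α / algebraMap C L δ -
        (u / v) • (algebraMap C L β / algebraMap C L δ) =
        algebraMap C L (α - (u / v) • β) / algebraMap C L δ := by
      rw [map_sub, Algebra.smul_def, Algebra.smul_def, map_mul,
        ← IsScalarTower.algebraMap_apply k C L]
      ring
    by_cases h0 : α - (u / v) • β = 0
    · left
      rw [h0, map_zero, zero_div] at hsub
      exact sub_eq_zero.mp hsub
    · right
      rw [hsub, ooL_div hx hα hδ, ooL_div hx h0 hδ]
      have := (ooC_le_iff hx h0 _).2 hkey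
      omega
  · rw [hC _ hx.τ0]
    have : ooC hx τ = 1 := by
      refine ooC_eq hx hx.τ0 ?_ ?_
      · rw [pow_one, RingHom.mem_ker]; exact hx.hτ
      · have := hx.pow_notMem 1
        rwa [pow_one] at this
    rw [this]; rfl
  · intro c n hc
    rw [hC c hc, ← ooC_le_iff hx hc]
    exact Nat.cast_le

end Pool.Agent.Harder
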