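import Pool.Agent.Harder.Defs2
import Pool.Agent.Harder.Ord
import Pool.Agent.Harder.OneRing
import Pool.Agent.Harder.OnePlOf
import Pool.Agent.Harder.IntConst
import Pool.Agent.K1.L2Curve

/-!
HB-13c : there is a Dedekind domain of functions with only one pole.
-/

set_option autoImplicit false

namespace Pool.Agent.Harder

/-! ### auxiliary -/

theorem on_ord_update {k L : Type} [Field k] [Field L] [Algebra k L] (ord : L → ℤ)
    (hord : IsOrd k ord) :
    ∃ ord' : L → ℤ, IsOrd k ord' ∧ ord' 0 = 0 ∧ ∀ f, f ≠ 0 → ord' f = ord f := by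
  classical
  refine ⟨fun f => if f = 0 then 0 else ord f, ?_, if_pos rfl, fun f hf => if_neg hf⟩
  refine ⟨?_, ?_, ?_, ?_⟩
  · intro a b ha hb
    simp only [if_neg ha, if_neg hb, if_neg (mul_ne_zero ha hb)]
    exact hord.mul a b ha hb
  · intro a b ha hb hab
    simp only [if_neg ha, if_neg hb, if_neg hab]
    exact hord.add a b ha hb hab
  · intro c hc
    have h : algebraMap k L c ≠ 0 := by
      rw [Ne, map_eq_zero]; exact hc
    simp only [if_neg h]
    exact hord.const c hc
  · intro a b ha hb hab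
    simp only [if_neg ha, if_neg hb] at hab
    obtain ⟨c, hc, h | h⟩ := hord.lead a b ha hb hab
    · exact ⟨c, hc, Or.inl h⟩
    · refine ⟨c, hc, ?_⟩
      by_cases h0 : a - c • b = 0
      · exact Or.inl (sub_eq_zero.mp h0)
      · right
        simp only [if_neg ha, if_neg h0]
        exact h

/-- An element of a field of transcendence degree one is algebraic over `k[h]`. -/
theorem on_algebraic {k L : Type} [Field k] [Field L] [Algebra k L]
    (hdep : ∀ a b : L, ¬ AlgebraicIndependent k ![a, b]) (h : L) (hh : Transcendental k h)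
    (f : L) : IsAlgebraic (Algebra.adjoin k {h}) f := by
  by_contra hf
  apply hdep h f
  rw [AlgebraicIndependent.iff_transcendental_adjoin_image (1 : Fin 2)]
  have himg : (![h, f] : Fin 2 → L) '' {(1 : Fin 2)}ᶜ = {h} := by
    ext x
    simp only [Set.mem_image, Set.mem_compl_iff, Set.mem_singleton_iff]
    constructor
    · rintro ⟨i, hi, rfl⟩
      fin_cases i
      · rfl
      · exact absurd rfl hi
    · rintro rfl
      exact ⟨0, by decide, rfl⟩
  refine ⟨?_, ?_⟩
  · have hss : Subsingleton {j : Fin 2 // j ≠ 1} := by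
      constructor
      rintro ⟨i, hi⟩ ⟨j, hj⟩
      apply Subtype.ext
      apply Fin.ext
      have hi' : (i : ℕ) ≠ 1 := fun h1 => hi (Fin.ext h1)
      have hj' : (j : ℕ) ≠ 1 := fun h1 => hj (Fin.ext h1)
      have hi2 := i.2
      have hj2 := j.2
      show (i : ℕ) = (j : ℕ)
      omega
    rw [algebraicIndependent_singleton_iff ⟨(0 : Fin 2), by decide⟩]
    exact hh
  · rw [himg]
    exact hf

/-- Integral elements over an algebraically closed field are constants. -/
theorem on_range {k L : Type} [Field k] [IsAlgClosed k] [Field L] [Algebra k L] (f : L)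
    (hf : IsIntegral k f) : f ∈ Set.range (algebraMap k L) := by
  refine ⟨-(minpoly k f).coeff 0, ?_⟩
  have hq : (minpoly k f).leadingCoeff = 1 := minpoly.monic hf
  have h : (minpoly k f).degree = 1 :=
    IsAlgClosed.degree_eq_one_of_irreducible k (minpoly.irreducible hf)
  have h2 : Polynomial.aeval f (minpoly k f) = 0 := minpoly.aeval k f
  rw [Polynomial.eq_X_add_C_of_degree_eq_one h, hq, Polynomial.C_1, one_mul, map_add,
    Polynomial.aeval_X, Polynomial.aeval_C, add_eq_zero_iff_eq_neg] at h2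
  rw [map_neg]
  exact h2.symm

theorem on_fraction {k L : Type} [Field k] [Field L] [Algebra k L] (R : Subalgebra k L)
    (hfrac : ∀ f : L, ∃ a ∈ R, ∃ d ∈ R, d ≠ 0 ∧ f = a / d) : IsFractionRing R L :=
  .of_field _ _ fun f => by
    obtain ⟨a, ha, d, hd, -, h⟩ := hfrac f
    exact ⟨⟨a, ha⟩, ⟨d, hd⟩, h⟩

/-- The integral closure of `k[h]` is a Dedekind domain. -/
theorem on_dedekind {k L : Type} [Field k] [Field L] [Algebra k L] (h : L)
    (R : Subalgebra k L) (hR : ∀ f : L, f ∈ R ↔ IsIntegral (Algebra.adjoin k {h}) f)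
    (hfrac : ∀ f : L, ∃ a ∈ R, ∃ d ∈ R, d ≠ 0 ∧ f = a / d) (hh : h ∈ R)
    (hfin : Module.Finite (Algebra.adjoin k {(⟨h, hh⟩ : R)}) R) : IsDedekindDomain R := by
  have hfr : IsFractionRing R L := on_fraction R hfrac
  obtain ⟨A, hA⟩ : ∃ A : Subalgebra k R, A = Algebra.adjoin k {(⟨h, hh⟩ : R)} := ⟨_, rfl⟩
  rw [← hA] at hfin
  have hft : Algebra.FiniteType k A := by
    rw [hA]
    exact Algebra.FiniteType.adjoin_of_finite (Set.finite_singleton _)
  have hnoeth : IsNoetherianRing A := Algebra.FiniteType.isNoetherianRing k A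
  have hpid : IsPrincipalIdealRing A := by
    have hmem : ∀ q : Polynomial k, Polynomial.aeval (⟨h, hh⟩ : R) q ∈ A := by
      intro q
      rw [hA]
      exact Polynomial.aeval_mem_adjoin_singleton _ _
    refine IsPrincipalIdealRing.of_surjective
      ((Polynomial.aeval (⟨h, hh⟩ : R)).codRestrict A hmem : Polynomial k →ₐ[k] A) ?_
    rintro ⟨a, ha⟩
    have ha' := ha
    rw [hA, Algebra.adjoin_singleton_eq_range_aeval] at ha'
    obtain ⟨q, hq⟩ := ha'
    exact ⟨q, Subtype.ext hq⟩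
  have hint : Algebra.IsIntegral A R := Algebra.IsIntegral.of_finite A R
  rw [isDedekindDomain_iff R L]
  refine ⟨inferInstance, IsNoetherianRing.of_finite A R, Ring.DimensionLEOne.of_isIntegral A R, ?_⟩
  intro x hx
  have hxA : IsIntegral A x := isIntegral_trans x hx
  suffices h' : IsIntegral (Algebra.adjoin k {h}) x from ⟨⟨x, (hR x).mpr h'⟩, rfl⟩
  have hmem : ∀ a : A, (R.val.comp A.val) a ∈ Algebra.adjoin k {h} := by
    intro a
    have h1 : A.map R.val = Algebra.adjoin k {h} := by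
      rw [hA, AlgHom.map_adjoin, Set.image_singleton]
      rfl
    rw [← h1]
    exact ⟨a.1, a.2, rfl⟩
  obtain ⟨q, hq, hq0⟩ := hxA
  refine ⟨q.map (((R.val.comp A.val).codRestrict (Algebra.adjoin k {h}) hmem :
    A →ₐ[k] Algebra.adjoin k {h}) : A →+* Algebra.adjoin k {h}), hq.map _, ?_⟩
  rw [Polynomial.eval₂_map]
  exact hq0

theorem on_core {k C L : Type} [Field k] [IsAlgClosed k] [CommRing C] [IsDomain C]
    [Algebra k C] [Field L] [Algebra C L] [IsFractionRing C L] [Algebra k L]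
    [IsScalarTower k C L] (hdep : ∀ a b : L, ¬ AlgebraicIndependent k ![a, b])
    (W : Submodule k C) (hW : W.FG) (h1 : (1 : C) ∈ W)
    (hgen : Algebra.adjoin k (W : Set C) = ⊤) (x₀ : C →ₐ[k] k) (τ e : C)
    (hx : Pool.Agent.K1.LocalPt x₀ τ e) (m M j₁ : ℕ) (b : C) (hC : CurveOut W x₀ m M j₁ b) :
    ∃ R : Subalgebra k L, IsDedekindDomain R ∧ (∀ f : L, ∃ a ∈ R, ∃ d ∈ R, d ≠ 0 ∧ f = a / d) ∧
      ∃ D : OnePl k R, D.gaps.Finite := by
  obtain ⟨ord₀, hord₀, hτ₀, hordC₀⟩ := exists_ord (L := L) x₀ τ e hx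
  obtain ⟨ord, hord, hord0, hordf⟩ := on_ord_update ord₀ hord₀
  have hinj : Function.Injective (algebraMap C L) := IsFractionRing.injective C L
  have hτne : algebraMap C L τ ≠ 0 := by
    rw [Ne, map_eq_zero_iff _ hinj]
    exact hx.τ0
  have hτ : ord (algebraMap C L τ) = 1 := by
    rw [hordf _ hτne]
    exact hτ₀
  have hordC : ∀ (c : C) (n : ℕ), c ≠ 0 →
      ((n : ℤ) ≤ ord (algebraMap C L c) ↔ c ∈ (RingHom.ker x₀) ^ n) := by
    intro c n hc
    rw [hordf _ (by rw [Ne, map_eq_zero_iff _ hinj]; exact hc)]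
    exact hordC₀ c n hc
  obtain ⟨R', hfrac', hconst', h, hh', hneg⟩ :=
    exists_oneRing W hW h1 hgen x₀ m M j₁ b hC ord hord hordC τ hτ hx.τ0
  have hh0 : h ≠ 0 := by
    rintro rfl
    rw [hord0] at hneg
    exact lt_irrefl _ hneg
  have htr : Transcendental k h := by
    intro halg
    obtain ⟨c, hc⟩ := on_range h halg.isIntegral
    have hc0 : c ≠ 0 := by
      rintro rfl
      rw [map_zero] at hc
      exact hh0 hc.symm
    rw [← hc, hord.const c hc0] at hneg
    exact lt_irrefl _ hneg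
  obtain ⟨R, hR⟩ : ∃ R : Subalgebra k L, ∀ f : L, f ∈ R ↔ IsIntegral (Algebra.adjoin k {h}) f :=
    ⟨(integralClosure (Algebra.adjoin k {h}) L).restrictScalars k, fun f => Iff.rfl⟩
  have hconst : ∀ f ∈ R, f ≠ 0 → 0 ≤ ord f → f ∈ Set.range (algebraMap k L) :=
    fun f hf hf0 hge => int_const ord hord R' hfrac' hconst' h hh' f ((hR f).mp hf) hf0 hge
  have hAR : ∀ y : Algebra.adjoin k {h}, (y : L) ∈ R := fun y =>
    (hR _).mpr (isIntegral_algebraMap (R := Algebra.adjoin k {h}) (A := L) (x := y))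
  have hfrac : ∀ f : L, ∃ a ∈ R, ∃ d ∈ R, d ≠ 0 ∧ f = a / d := by
    intro f
    obtain ⟨y, hy, hyf⟩ := (on_algebraic hdep h htr f).exists_integral_multiple
    have hy0 : (y : L) ≠ 0 := fun h0 => hy (Subtype.ext h0)
    refine ⟨y • f, (hR _).mpr hyf, y, hAR y, hy0, ?_⟩
    rw [Subalgebra.smul_def, smul_eq_mul, mul_div_cancel_left₀ _ hy0]
  obtain ⟨D, hD⟩ := onePl_of_ord ord hord R hconst
  have hh : h ∈ R := hAR ⟨h, Algebra.subset_adjoin rfl⟩
  have hpos : 0 < D.deg (⟨h, hh⟩ : R) := by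
    have h3 := hD ⟨h, hh⟩ (fun h0 => hh0 (congrArg Subtype.val h0))
    have h4 : ord ((⟨h, hh⟩ : R) : L) < 0 := hneg
    omega
  exact ⟨R, on_dedekind h R hR hfrac hh (onePl_finite D ⟨h, hh⟩ hpos), hfrac, D,
    gaps_finite ord hord R hfrac _ hτne hτ D hD⟩

theorem exists_onePl (p : ℕ) [Fact p.Prime] {k L : Type} [Field k] [IsAlgClosed k]
    [CharP k p] [Algebra (ZMod p) k] [Algebra.IsAlgebraic (ZMod p) k] [Field L] [Algebra k L]
    (hfg : (⊤ : IntermediateField k L).FG) (hdep : ∀ a b : L, ¬ AlgebraicIndependent k ![a, b])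
    (hinf : ∃ a : L, Transcendental k a) :
    ∃ R : Subalgebra k L, IsDedekindDomain R ∧ (∀ f : L, ∃ a ∈ R, ∃ d ∈ R, d ≠ 0 ∧ f = a / d) ∧
      ∃ D : OnePl k R, D.gaps.Finite := by
  obtain ⟨S, hS⟩ := hfg
  obtain ⟨T, hT⟩ : ∃ T : Set L, T = insert (1 : L) (S : Set L) := ⟨_, rfl⟩
  have hTfin : T.Finite := by
    rw [hT]
    exact S.finite_toSet.insert 1
  have hT1 : (1 : L) ∈ T := by
    rw [hT]
    exact Set.mem_insert _ _
  have hfrac : ∀ f : L, ∃ a ∈ Algebra.adjoin k T, ∃ d ∈ Algebra.adjoin k T, f = a / d := by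
    intro f
    have hf : f ∈ IntermediateField.adjoin k T := by
      have h1 : IntermediateField.adjoin k (S : Set L) ≤ IntermediateField.adjoin k T := by
        apply IntermediateField.adjoin.mono
        rw [hT]
        exact Set.subset_insert _ _
      apply h1
      rw [hS]
      exact IntermediateField.mem_top
    exact IntermediateField.mem_adjoin_iff_div.mp hf
  have hfr : IsFractionRing (Algebra.adjoin k T) L := .of_field _ _ fun f => by
    obtain ⟨a, ha, d, hd, h⟩ := hfrac f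
    exact ⟨⟨a, ha⟩, ⟨d, hd⟩, h⟩
  have hnf : ¬ Module.Finite k (Algebra.adjoin k T) := by
    intro hfin
    obtain ⟨a, ha⟩ := hinf
    obtain ⟨r, hr, s, hs, hrs⟩ := hfrac a
    have hint : ∀ z ∈ Algebra.adjoin k T, z ∈ Set.range (algebraMap k L) := by
      intro z hz
      apply on_range
      have h2 : IsIntegral k (⟨z, hz⟩ : Algebra.adjoin k T) :=
        Algebra.IsIntegral.isIntegral _
      exact h2.map (Algebra.adjoin k T).val
    obtain ⟨r', rfl⟩ := hint r hr
    obtain ⟨s', rfl⟩ := hint s hs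
    apply ha
    rw [hrs, ← map_div₀]
    exact isAlgebraic_algebraMap _
  have hdep' : ∀ a b : Algebra.adjoin k T, ¬ AlgebraicIndependent k ![a, b] := by
    intro a b hab
    apply hdep a b
    have h2 := hab.map' (f := (Algebra.adjoin k T).val) Subtype.val_injective
    convert h2 using 1
    funext i
    fin_cases i <;> rfl
  obtain ⟨W, hWdef⟩ : ∃ W : Submodule k (Algebra.adjoin k T), W = Submodule.span k
      (((↑) : Algebra.adjoin k T → L) ⁻¹' T) := ⟨_, rfl⟩
  have hW : W.FG := by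
    rw [hWdef]
    exact Submodule.fg_span (hTfin.preimage Subtype.val_injective.injOn)
  have h1 : (1 : Algebra.adjoin k T) ∈ W := by
    rw [hWdef]
    exact Submodule.subset_span hT1
  have hgen : Algebra.adjoin k (W : Set (Algebra.adjoin k T)) = ⊤ := by
    rw [hWdef, Algebra.adjoin_span]
    exact Algebra.adjoin_adjoin_coe_preimage
  obtain ⟨x₀, τ, e, m, M, j₁, b, hx, -, hm, hM, hj, hb, hsp, hdiv⟩ :=
    Pool.Agent.K1.curve_main p hnf hdep' W hW h1 hgen 1 one_ne_zero
  exact on_core hdep W hW h1 hgen x₀ τ e hx m M j₁ b ⟨hm, hM, hj, hb, hsp, hdiv⟩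

end Pool.Agent.Harder
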