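import Pool.Agent.Harder.Defs

/-!
Harder's theorem, HB-01: elementary properties of Steinberg functionals.
-/

set_option autoImplicit false

namespace Pool.Agent.Harder

section field
variable {F : Type} [Field F] {φ : F → F → ℝ} (h : St2 φ)
include h

private theorem hst_one_left (a : F) (ha : a ≠ 0) : φ 1 a = 0 := by
  have h1 := h.mul_left 1 1 a one_ne_zero one_ne_zero ha
  rw [mul_one] at h1
  linarith

private theorem hst_one_right (a : F) (ha : a ≠ 0) : φ a 1 = 0 := by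
  have h1 := h.mul_right a 1 1 ha one_ne_zero one_ne_zero
  rw [mul_one] at h1
  linarith

private theorem hst_inv_left (a b : F) (ha : a ≠ 0) (hb : b ≠ 0) : φ a⁻¹ b = - φ a b := by
  have h1 := h.mul_left a a⁻¹ b ha (inv_ne_zero ha) hb
  rw [mul_inv_cancel₀ ha, hst_one_left h b hb] at h1
  linarith

private theorem hst_inv_right (a b : F) (ha : a ≠ 0) (hb : b ≠ 0) : φ a b⁻¹ = - φ a b := by
  have h1 := h.mul_right a b b⁻¹ ha hb (inv_ne_zero hb)
  rw [mul_inv_cancel₀ hb, hst_one_right h a ha] at h1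
  linarith

private theorem hst_neg_self (a : F) (ha : a ≠ 0) : φ a (-a) = 0 := by
  by_cases h1 : a = 1
  · rw [h1]
    exact hst_one_left h _ (neg_ne_zero.2 one_ne_zero)
  · have h2 : 1 - a ≠ 0 := sub_ne_zero.2 (Ne.symm h1)
    have h3 : 1 - a⁻¹ ≠ 0 := by
      intro h4
      apply h1
      have h5 : a⁻¹ = 1 := (sub_eq_zero.1 h4).symm
      rw [← inv_inv a, h5, inv_one]
    have h4 : -a = (1 - a) * (1 - a⁻¹)⁻¹ := by
      rw [eq_mul_inv_iff_mul_eq₀ h3]
      field_simp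
      ring
    rw [h4, h.mul_right a _ _ ha h2 (inv_ne_zero h3), h.stein a ha h2,
      hst_inv_right h a _ ha h3]
    have h5 := h.stein a⁻¹ (inv_ne_zero ha) h3
    rw [hst_inv_left h a _ ha h3] at h5
    linarith

private theorem hst_anti (a b : F) (ha : a ≠ 0) (hb : b ≠ 0) : φ a b = - φ b a := by
  have hna : -a ≠ 0 := neg_ne_zero.2 ha
  have hnb : -b ≠ 0 := neg_ne_zero.2 hb
  have h1 := hst_neg_self h (a * b) (mul_ne_zero ha hb)
  rw [h.mul_left a b _ ha hb (neg_ne_zero.2 (mul_ne_zero ha hb))] at h1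
  have h2 : φ a (-(a * b)) = φ a (-a) + φ a b := by
    rw [← neg_mul, h.mul_right a (-a) b ha hna hb]
  have h3 : φ b (-(a * b)) = φ b a + φ b (-b) := by
    rw [← mul_neg, h.mul_right b a (-b) hb ha hnb]
  rw [h2, h3, hst_neg_self h a ha, hst_neg_self h b hb] at h1
  linarith

private theorem hst_neg_one (a : F) (ha : a ≠ 0) : φ (-1) a = 0 := by
  have h0 : (-1 : F) ≠ 0 := neg_ne_zero.2 one_ne_zero
  have h1 := h.mul_left (-1) (-1) a h0 h0 ha
  rw [neg_mul_neg, mul_one, hst_one_left h a ha] at h1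
  linarith

private theorem hst_neg_left (a b : F) (ha : a ≠ 0) (hb : b ≠ 0) : φ (-a) b = φ a b := by
  have h0 : (-1 : F) ≠ 0 := neg_ne_zero.2 one_ne_zero
  have h1 := h.mul_left (-1) a b h0 ha hb
  rw [neg_one_mul, hst_neg_one h b hb] at h1
  linarith

private theorem hst_neg_right (a b : F) (ha : a ≠ 0) (hb : b ≠ 0) : φ a (-b) = φ a b := by
  rw [hst_anti h a (-b) ha (neg_ne_zero.2 hb), hst_neg_left h b a hb ha, hst_anti h b a hb ha,
    neg_neg]

private theorem hst_rel (a b c : F) (ha : a ≠ 0) (hb : b ≠ 0) (hc : c ≠ 0)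
    (hs : a + b + c = 0) : φ a b + φ b c + φ c a = 0 := by
  have hc' : -c ≠ 0 := neg_ne_zero.2 hc
  have hx : a * (-c)⁻¹ ≠ 0 := mul_ne_zero ha (inv_ne_zero hc')
  have e : 1 - a * (-c)⁻¹ = b * (-c)⁻¹ := by
    have h1 : b = -c - a := by linear_combination hs
    rw [h1, sub_mul, mul_inv_cancel₀ hc']
  have hy : b * (-c)⁻¹ ≠ 0 := mul_ne_zero hb (inv_ne_zero hc')
  have h1 := h.stein (a * (-c)⁻¹) hx (by rw [e]; exact hy)
  rw [e, h.mul_left a _ _ ha (inv_ne_zero hc') hy, hst_inv_left h (-c) _ hc' hy,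
    h.mul_right a b _ ha hb (inv_ne_zero hc'), h.mul_right (-c) b _ hc' hb (inv_ne_zero hc'),
    hst_inv_right h a (-c) ha hc', hst_inv_right h (-c) (-c) hc' hc',
    hst_neg_right h a c ha hc, hst_neg_left h c b hc hb, hst_neg_left h c (-c) hc hc',
    hst_neg_self h c hc, hst_anti h a c ha hc, hst_anti h c b hc hb] at h1
  linarith

theorem St2.toStR : StR φ :=
  ⟨h.mul_left, hst_anti h, hst_rel h⟩

end field

theorem StR.comap {R S : Type} [CommRing R] [CommRing S] (f : R →+* S)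
    (hf : Function.Injective f) {φ : S → S → ℝ} (h : StR φ) :
    StR (fun a b : R => φ (f a) (f b)) := by
  have hne : ∀ a : R, a ≠ 0 → f a ≠ 0 := fun a ha h0 => ha (hf (by rw [h0, map_zero]))
  refine ⟨fun a b c ha hb hc => ?_, fun a b ha hb => h.anti _ _ (hne a ha) (hne b hb),
    fun a b c ha hb hc hs => ?_⟩
  · show φ (f (a * b)) (f c) = _
    rw [map_mul]
    exact h.mul_left _ _ _ (hne a ha) (hne b hb) (hne c hc)
  · refine h.rel _ _ _ (hne a ha) (hne b hb) (hne c hc) ?_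
    rw [← map_add, ← map_add, hs, map_zero]

section StRlemmas
variable {R : Type} [CommRing R] [IsDomain R] {φ : R → R → ℝ} (h : StR φ)
include h

theorem StR.mul_right (a b c : R) (ha : a ≠ 0) (hb : b ≠ 0) (hc : c ≠ 0) :
    φ a (b * c) = φ a b + φ a c := by
  rw [h.anti a (b * c) ha (mul_ne_zero hb hc), h.mul_left b c a hb hc ha, h.anti a b ha hb,
    h.anti a c ha hc]
  ring

theorem StR.one_left (a : R) (ha : a ≠ 0) : φ 1 a = 0 := by
  have h1 := h.mul_left 1 1 a one_ne_zero one_ne_zero ha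
  rw [mul_one] at h1
  linarith

theorem StR.self (a : R) (ha : a ≠ 0) : φ a a = 0 := by
  have h1 := h.anti a a ha ha
  linarith

theorem StR.pow_left (a b : R) (ha : a ≠ 0) (hb : b ≠ 0) (n : ℕ) :
    φ (a ^ n) b = n * φ a b := by
  induction n with
  | zero => rw [pow_zero, StR.one_left h b hb]; simp
  | succ n ih =>
    rw [pow_succ, h.mul_left _ _ _ (pow_ne_zero n ha) ha hb, ih]
    push_cast
    ring

/-- elements of finite order -/
theorem StR.torsion (c a : R) (n : ℕ) (hn : 0 < n) (hc : c ^ n = 1) (ha : a ≠ 0) :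
    φ c a = 0 := by
  have hc0 : c ≠ 0 := by
    intro h0
    rw [h0, zero_pow hn.ne'] at hc
    exact zero_ne_one hc
  have h1 := StR.pow_left h c a hc0 ha n
  rw [hc, StR.one_left h a ha] at h1
  have hn' : (n : ℝ) ≠ 0 := by exact_mod_cast hn.ne'
  rcases mul_eq_zero.1 h1.symm with h2 | h2
  · exact absurd h2 hn'
  · exact h2

/-- The relation of the three products. -/
theorem StR.rel6 (p : Fin 3 → R) (p' : Fin 3 → R) (hp : ∀ i, p i ≠ 0) (hp' : ∀ i, p' i ≠ 0)
    (hs : p 0 * p' 0 + p 1 * p' 1 + p 2 * p' 2 = 0) :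
    (φ (p 0) (p 1) + φ (p 0) (p' 1) + φ (p' 0) (p 1) + φ (p' 0) (p' 1)) +
    (φ (p 1) (p 2) + φ (p 1) (p' 2) + φ (p' 1) (p 2) + φ (p' 1) (p' 2)) +
    (φ (p 2) (p 0) + φ (p 2) (p' 0) + φ (p' 2) (p 0) + φ (p' 2) (p' 0)) = 0 := by
  have hne : ∀ i, p i * p' i ≠ 0 := fun i => mul_ne_zero (hp i) (hp' i)
  have e : ∀ i j, φ (p i * p' i) (p j * p' j) =
      φ (p i) (p j) + φ (p i) (p' j) + φ (p' i) (p j) + φ (p' i) (p' j) := by
    intro i j
    rw [h.mul_left _ _ _ (hp i) (hp' i) (hne j), StR.mul_right h _ _ _ (hp i) (hp j) (hp' j),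
      StR.mul_right h _ _ _ (hp' i) (hp j) (hp' j)]
    ring
  have h1 := h.rel _ _ _ (hne 0) (hne 1) (hne 2) hs
  rw [e 0 1, e 1 2, e 2 0] at h1
  linarith

end StRlemmas

end Pool.Agent.Harder
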