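import Pool.Agent.Harder.Defs2
import Pool.Agent.Harder.CopClosed
import Pool.Agent.Harder.Stein
import Pool.Agent.Harder.Dedekind
import Pool.Agent.Harder.OneNormal

/-!
Harder's theorem: `K_2` of a field of transcendence degree at most one over the algebraic closure
of a finite field is torsion.
-/

set_option autoImplicit false

namespace Pool.Agent.Harder

/-- A nonzero element which is algebraic over `𝔽_p` is a root of unity. -/
theorem hbm_root (p : ℕ) [Fact p.Prime] {L : Type} [Field L] [Algebra (ZMod p) L] (x : L)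
    (hx : x ≠ 0) (hal : IsAlgebraic (ZMod p) x) : ∃ n : ℕ, 0 < n ∧ x ^ n = 1 := by
  have hint : IsIntegral (ZMod p) x := hal.isIntegral
  have : FiniteDimensional (ZMod p) (IntermediateField.adjoin (ZMod p) ({x} : Set L)) :=
    IntermediateField.adjoin.finiteDimensional hint
  have : Finite (IntermediateField.adjoin (ZMod p) ({x} : Set L)) :=
    Module.finite_of_finite (ZMod p)
  have hxm : x ∈ IntermediateField.adjoin (ZMod p) ({x} : Set L) :=
    IntermediateField.mem_adjoin_simple_self _ _
  set y : IntermediateField.adjoin (ZMod p) ({x} : Set L) := ⟨x, hxm⟩ with hy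
  have hy0 : y ≠ 0 := by
    intro h
    exact hx (congrArg Subtype.val h)
  set u : (IntermediateField.adjoin (ZMod p) ({x} : Set L))ˣ := Units.mk0 y hy0 with hu
  have : Finite (IntermediateField.adjoin (ZMod p) ({x} : Set L))ˣ := inferInstance
  have hfo : IsOfFinOrder u := isOfFinOrder_of_finite u
  obtain ⟨n, hn, hun⟩ := isOfFinOrder_iff_pow_eq_one.1 hfo
  refine ⟨n, hn, ?_⟩
  have h1 : y ^ n = 1 := by
    have := congrArg (fun v : (IntermediateField.adjoin (ZMod p) ({x} : Set L))ˣ =>
      (v : IntermediateField.adjoin (ZMod p) ({x} : Set L))) hun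
    simpa [hu] using this
  have h2 := congrArg Subtype.val h1
  simpa [hy] using h2

theorem hbm_div (L : Type) [Field L] {φ : L → L → ℝ} (hφ : St2 φ) (a b c : L) (ha : a ≠ 0)
    (hb : b ≠ 0) (hc : c ≠ 0) : φ (a / b) c = φ a c - φ b c := by
  have h := hφ.mul_left (a / b) b c (div_ne_zero ha hb) hb hc
  rw [div_mul_cancel₀ a hb] at h
  linarith

theorem hbm_div' (L : Type) [Field L] {φ : L → L → ℝ} (hφ : St2 φ) (a b c : L) (ha : a ≠ 0)
    (hb : b ≠ 0) (hc : c ≠ 0) : φ c (a / b) = φ c a - φ c b := by
  have h := hφ.mul_right c (a / b) b hc (div_ne_zero ha hb) hb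
  rw [div_mul_cancel₀ a hb] at h
  linarith

/-- Harder's theorem: `K_2` of a field of transcendence degree at most one over the algebraic
closure of a finite field is torsion. -/
theorem harder (p : ℕ) [Fact p.Prime] {k L : Type} [Field k] [IsAlgClosed k]
    [Algebra (ZMod p) k] [Algebra.IsAlgebraic (ZMod p) k] [Field L] [Algebra k L]
    (hdep : ∀ a b : L, ¬ AlgebraicIndependent k ![a, b]) (φ : L → L → ℝ) (hφ : St2 φ)
    (x y : L) (hx : x ≠ 0) (hy : y ≠ 0) : φ x y = 0 := by
  have hR : StR φ := hφ.toStR
  set L0 : IntermediateField k L := IntermediateField.adjoin k {x, y} with hL0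
  have hxm : x ∈ L0 := IntermediateField.subset_adjoin k _ (by simp)
  have hym : y ∈ L0 := IntermediateField.subset_adjoin k _ (by simp)
  by_cases hinf : ∃ a : L0, Transcendental k a
  · have : CharP k p := charP_of_injective_algebraMap (algebraMap (ZMod p) k).injective p
    have hfg : (⊤ : IntermediateField k L0).FG := by
      have h1 : L0.FG := by
        rw [hL0]
        exact IntermediateField.fg_adjoin_of_finite (Set.toFinite _)
      exact IntermediateField.fg_top_iff.2 (IntermediateField.essFiniteType_iff.2 h1)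
    have hdep0 : ∀ a b : L0, ¬ AlgebraicIndependent k ![a, b] := by
      intro a b hab
      have h1 := hab.map' (f := L0.val) L0.val.injective
      apply hdep (a : L) (b : L)
      have h2 : (L0.val : L0 → L) ∘ ![a, b] = ![(a : L), (b : L)] := by
        funext i
        fin_cases i <;> rfl
      rw [h2] at h1
      exact h1
    obtain ⟨R, hded, hfrac, D, hgaps⟩ := exists_onePl p hfg hdep0 hinf
    set f : R →+* L := (algebraMap L0 L).comp (algebraMap R L0) with hf
    have hfinj : Function.Injective f := by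
      intro a b hab
      have h1 : ((a : L0) : L) = ((b : L0) : L) := hab
      exact Subtype.ext (Subtype.ext h1)
    have hf0 : ∀ a : R, a ≠ 0 → f a ≠ 0 := fun a ha h => ha (hfinj (by rw [h, map_zero]))
    have hRR : StR (fun a b : R => φ (f a) (f b)) := hR.comap f hfinj
    have hcop := fun (a b : R) (ha : a ≠ 0) (hb : b ≠ 0) (hab : IsCoprime a b) =>
      coprime_closed p D hgaps _ hRR a b ha hb hab
    have hall := fun (a b : R) (ha : a ≠ 0) (hb : b ≠ 0) =>
      dedekind_moving _ hRR hcop a b ha hb
    obtain ⟨a, ha, d, hd, hd0, hxe⟩ := hfrac ⟨x, hxm⟩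
    obtain ⟨a', ha', d', hd', hd0', hye⟩ := hfrac ⟨y, hym⟩
    have hx' : x = (a : L) / (d : L) := congrArg Subtype.val hxe
    have hy' : y = (a' : L) / (d' : L) := congrArg Subtype.val hye
    have hdL : (d : L) ≠ 0 := fun h => hd0 (Subtype.ext h)
    have hdL' : (d' : L) ≠ 0 := fun h => hd0' (Subtype.ext h)
    have haL : (a : L) ≠ 0 := fun h => hx (by rw [hx', h, zero_div])
    have haL' : (a' : L) ≠ 0 := fun h => hy (by rw [hy', h, zero_div])
    have hz : ∀ (u v : L0) (hu : u ∈ R) (hv : v ∈ R), (u : L) ≠ 0 → (v : L) ≠ 0 →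
        φ (u : L) (v : L) = 0 := by
      intro u v hu hv hu0 hv0
      exact hall ⟨u, hu⟩ ⟨v, hv⟩
        (fun h => hu0 (congrArg (fun w : R => ((w : L0) : L)) h))
        (fun h => hv0 (congrArg (fun w : R => ((w : L0) : L)) h))
    rw [hx', hy', hbm_div L hφ _ _ _ haL hdL (div_ne_zero haL' hdL'),
      hbm_div' L hφ _ _ _ haL' hdL' haL, hbm_div' L hφ _ _ _ haL' hdL' hdL,
      hz a a' ha ha' haL haL', hz a d' ha hd' haL hdL', hz d a' hd ha' hdL haL',
      hz d d' hd hd' hdL hdL']
    ring
  · push Not at hinf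
    have hal : Algebra.IsAlgebraic k L0 := by
      refine ⟨fun a => ?_⟩
      have h1 := hinf a
      rw [Transcendental, not_not] at h1
      exact h1
    have hint : Algebra.IsIntegral k L0 := ⟨fun a => (hal.isAlgebraic a).isIntegral⟩
    obtain ⟨c, hc'⟩ := (IsAlgClosed.algebraMap_bijective_of_isIntegral (k := k) (K := L0)).2
      (⟨x, hxm⟩ : L0)
    have hc : algebraMap k L c = x := congrArg Subtype.val hc'
    have hc0 : c ≠ 0 := fun h => hx (by rw [← hc, h, map_zero])
    obtain ⟨n, hn, hcn⟩ := hbm_root p c hc0 (Algebra.IsAlgebraic.isAlgebraic c)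
    refine hR.torsion x y n hn ?_ hy
    rw [← hc, ← map_pow, hcn, map_one]

end Pool.Agent.Harder
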